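import Pool.Agent.Helper96.Dim.Leg

/-!
# Test functions
-/

namespace Pool.Agent.Helper96.Dim

open MeasureTheory Filter Topology Set
open scoped ContDiff

lemma Test.contDiff {φ : V → ℝ} (h : Test φ) : ContDiff ℝ ∞ φ := h.1

lemma Test.continuous {φ : V → ℝ} (h : Test φ) : Continuous φ := h.1.continuous

lemma Test.differentiable {φ : V → ℝ} (h : Test φ) : Differentiable ℝ φ :=
  h.1.differentiable (by simp)

lemma contDiff_differentiable {φ : V → ℝ} (h : ContDiff ℝ ∞ φ) : Differentiable ℝ φ :=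
  h.differentiable (by simp)

lemma contDiff_continuous_fderiv {φ : V → ℝ} (h : ContDiff ℝ ∞ φ) :
    Continuous (fun x => fderiv ℝ φ x) :=
  h.continuous_fderiv (by simp)

lemma Test.continuous_fderiv {φ : V → ℝ} (h : Test φ) : Continuous (fun x => fderiv ℝ φ x) :=
  contDiff_continuous_fderiv h.1

lemma Test.bound {φ : V → ℝ} (h : Test φ) : ∃ K : ℝ, 0 ≤ K ∧ ∀ x, ‖fderiv ℝ φ x‖ ≤ K := by
  obtain ⟨K, hK⟩ := h.continuous_fderiv.bounded_above_of_compact_support (h.2.fderiv ℝ)
  exact ⟨K, (norm_nonneg _).trans (hK 0), hK⟩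

lemma Test.bound' {φ : V → ℝ} (h : Test φ) : ∃ K : ℝ, 0 ≤ K ∧ ∀ x, |φ x| ≤ K := by
  obtain ⟨K, hK⟩ := h.continuous.bounded_above_of_compact_support h.2
  exact ⟨K, (norm_nonneg _).trans (hK 0), hK⟩

lemma Test.zero : Test (fun _ => (0 : ℝ)) := by
  refine ⟨contDiff_const, ?_⟩
  exact HasCompactSupport.zero

lemma Test.add {φ ψ : V → ℝ} (h : Test φ) (h' : Test ψ) : Test (fun x => φ x + ψ x) :=
  ⟨h.1.add h'.1, h.2.add h'.2⟩

lemma Test.const_mul {φ : V → ℝ} (h : Test φ) (c : ℝ) : Test (fun x => c * φ x) :=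
  ⟨contDiff_const.mul h.1, h.2.mul_left⟩

lemma Test.neg {φ : V → ℝ} (h : Test φ) : Test (fun x => -φ x) := by
  have := h.const_mul (-1)
  simpa using this

lemma Test.sub {φ ψ : V → ℝ} (h : Test φ) (h' : Test ψ) : Test (fun x => φ x - ψ x) := by
  have := h.add h'.neg
  simpa [sub_eq_add_neg] using this

lemma Test.mul_right {φ ψ : V → ℝ} (h : Test φ) (h' : ContDiff ℝ ∞ ψ) :
    Test (fun x => φ x * ψ x) :=
  ⟨h.1.mul h', h.2.mul_right⟩

lemma Test.mul_left {φ ψ : V → ℝ} (h : Test φ) (h' : ContDiff ℝ ∞ ψ) :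
    Test (fun x => ψ x * φ x) :=
  ⟨h'.mul h.1, h.2.mul_left⟩

lemma Test.translate {φ : V → ℝ} (h : Test φ) (v : V) : Test (fun x => φ (x + v)) := by
  refine ⟨h.1.comp (contDiff_id.add contDiff_const), ?_⟩
  exact h.2.comp_homeomorph (Homeomorph.addRight v)

lemma fderiv_translate (φ : V → ℝ) (v x : V) :
    fderiv ℝ (fun y => φ (y + v)) x = fderiv ℝ φ (x + v) := by
  rw [fderiv_comp_add_right]

lemma measurable_apply {Φ : V → V →L[ℝ] ℝ} (hΦ : Continuous Φ) {a : V → V} (ha : Measurable a) :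
    Measurable (fun x => Φ x (a x)) := by
  have h1 : Measurable (fun x => (Φ x, a x)) := hΦ.measurable.prodMk ha
  exact isBoundedBilinearMap_apply.continuous.measurable.comp h1

/-- Integrability of the pairing of a bounded field with the gradient of a test function. -/
lemma Test.integrable_apply {φ : V → ℝ} (h : Test φ) {a : V → V} (ha : Measurable a) {B : ℝ}
    (hB : ∀ x, ‖a x‖ ≤ B) : Integrable (fun x => fderiv ℝ φ x (a x)) := by
  have h1 : Integrable (fun x => fderiv ℝ φ x) :=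
    h.continuous_fderiv.integrable_of_hasCompactSupport (h.2.fderiv ℝ)
  refine (h1.norm.mul_const B).mono' ?_ ?_
  · exact (measurable_apply h.continuous_fderiv ha).aestronglyMeasurable
  · filter_upwards with x
    calc ‖fderiv ℝ φ x (a x)‖ ≤ ‖fderiv ℝ φ x‖ * ‖a x‖ := (fderiv ℝ φ x).le_opNorm _
      _ ≤ ‖fderiv ℝ φ x‖ * B := by
        have := hB x
        gcongr

/-- Integrability of the product of a bounded function with a test function. -/
lemma Test.integrable_mul {φ : V → ℝ} (h : Test φ) {a : V → ℝ} (ha : Measurable a) {B : ℝ}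
    (hB : ∀ x, |a x| ≤ B) : Integrable (fun x => φ x * a x) := by
  have h1 : Integrable φ := h.continuous.integrable_of_hasCompactSupport h.2
  refine (h1.norm.mul_const B).mono' ?_ ?_
  · exact (h.continuous.measurable.mul ha).aestronglyMeasurable
  · filter_upwards with x
    rw [norm_mul]
    have := hB x
    rw [← Real.norm_eq_abs] at this
    gcongr

end Pool.Agent.Helper96.Dim
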