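import Pool.Agent.Helper96.Dim.Basic

/-!
# Continuity of translations in `L¹`, smooth cutoffs, smooth approximation
-/

namespace Pool.Agent.Helper96.Dim

open MeasureTheory Filter Topology Set
open scoped ContDiff Manifold

/-- Continuity of translations for continuous functions with compact support. -/
lemma transl_cont {E : Type*} [NormedAddCommGroup E] {g : V → E} (hg : Continuous g)
    (hgs : HasCompactSupport g) :
    Tendsto (fun v : V => ∫ x, ‖g (x + v) - g x‖) (𝓝 0) (𝓝 0) := by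
  have huc : UniformContinuous g := hgs.uniformContinuous_of_continuous hg
  set K : Set V := Metric.cthickening 1 (tsupport g) with hK
  have hKc : IsCompact K := hgs.isCompact.cthickening
  set M : ℝ := (volume K).toReal + 1 with hM
  have hM0 : 0 < M := by
    have : 0 ≤ (volume K).toReal := ENNReal.toReal_nonneg
    rw [hM]; linarith
  rw [Metric.tendsto_nhds_nhds]
  intro ε hε
  obtain ⟨δ, hδ, hd⟩ := Metric.uniformContinuous_iff.mp huc (ε / (2 * M)) (by positivity)
  refine ⟨min δ 1, lt_min hδ one_pos, ?_⟩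
  intro v hv
  rw [dist_zero_right] at hv
  have hv1 : ‖v‖ < δ := hv.trans_le (min_le_left _ _)
  have hv2 : ‖v‖ < 1 := hv.trans_le (min_le_right _ _)
  have hnn : 0 ≤ ∫ x, ‖g (x + v) - g x‖ := integral_nonneg fun x => norm_nonneg _
  rw [dist_zero_right, Real.norm_eq_abs, abs_of_nonneg hnn]
  have hzero : ∀ x, x ∉ K → ‖g (x + v) - g x‖ = 0 := by
    intro x hx
    have h1 : g x = 0 := by
      by_contra hne
      exact hx (Metric.self_subset_cthickening _ (subset_tsupport _ hne))
    have h2 : g (x + v) = 0 := by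
      by_contra hne
      apply hx
      have h3 : x + v ∈ tsupport g := subset_tsupport _ hne
      refine Metric.mem_cthickening_of_dist_le x (x + v) 1 _ h3 ?_
      rw [dist_eq_norm]
      simpa using hv2.le
    rw [h1, h2, sub_zero, norm_zero]
  rw [← setIntegral_eq_integral_of_forall_compl_eq_zero hzero]
  have hb : ∀ x ∈ K, ‖‖g (x + v) - g x‖‖ ≤ ε / (2 * M) := by
    intro x _
    rw [norm_norm, ← dist_eq_norm]
    refine (hd ?_).le
    rw [dist_eq_norm]
    simpa using hv1
  have h1 := norm_setIntegral_le_of_norm_le_const (μ := (volume : Measure V)) hKc.measure_lt_top hb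
  have h2 : 0 ≤ ∫ x in K, ‖g (x + v) - g x‖ := integral_nonneg fun x => norm_nonneg _
  rw [Real.norm_eq_abs, abs_of_nonneg h2] at h1
  refine lt_of_le_of_lt h1 ?_
  have h3 : volume.real K ≤ M := by
    rw [hM]
    have : volume.real K = (volume K).toReal := rfl
    linarith
  calc ε / (2 * M) * volume.real K ≤ ε / (2 * M) * M := by gcongr
    _ = ε / 2 := by field_simp
    _ < ε := by linarith

/-- Continuity of translations in `L¹`. -/
lemma transl {E : Type*} [NormedAddCommGroup E] [NormedSpace ℝ E] {g : V → E}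
    (hg : Integrable g) :
    Tendsto (fun v : V => ∫ x, ‖g (x + v) - g x‖) (𝓝 0) (𝓝 0) := by
  rw [Metric.tendsto_nhds_nhds]
  intro ε hε
  obtain ⟨g', hg's, hg'd, hg'c, hg'i⟩ := hg.exists_hasCompactSupport_integral_sub_le
    (show 0 < ε / 4 by positivity)
  obtain ⟨δ, hδ, hd⟩ := Metric.tendsto_nhds_nhds.mp (transl_cont hg'c hg's) (ε / 4)
    (by positivity)
  refine ⟨δ, hδ, ?_⟩
  intro v hv
  have h1 := hd hv
  have hnn : 0 ≤ ∫ x, ‖g (x + v) - g x‖ := integral_nonneg fun x => norm_nonneg _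
  have hnn' : 0 ≤ ∫ x, ‖g' (x + v) - g' x‖ := integral_nonneg fun x => norm_nonneg _
  rw [dist_zero_right, Real.norm_eq_abs, abs_of_nonneg hnn]
  rw [dist_zero_right, Real.norm_eq_abs, abs_of_nonneg hnn'] at h1
  have hi1 : Integrable (fun x => ‖g x - g' x‖) := (hg.sub hg'i).norm
  have hi2 : Integrable (fun x => ‖g (x + v) - g' (x + v)‖) := hi1.comp_add_right v
  have hi3 : Integrable (fun x => ‖g' (x + v) - g' x‖) := ((hg'i.comp_add_right v).sub hg'i).norm
  have h2 : ∫ x, ‖g (x + v) - g x‖ ≤ ∫ x, (‖g (x + v) - g' (x + v)‖ + ‖g' (x + v) - g' x‖ +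
      ‖g x - g' x‖) := by
    refine integral_mono ((hg.comp_add_right v).sub hg).norm ((hi2.add hi3).add hi1) ?_
    intro x
    simp only
    calc ‖g (x + v) - g x‖ = ‖(g (x + v) - g' (x + v)) + (g' (x + v) - g' x) - (g x - g' x)‖ := by
          congr 1; abel
      _ ≤ ‖(g (x + v) - g' (x + v)) + (g' (x + v) - g' x)‖ + ‖g x - g' x‖ := norm_sub_le _ _
      _ ≤ _ := by
        gcongr
        exact norm_add_le _ _
  have h3 : ∫ x, (‖g (x + v) - g' (x + v)‖ + ‖g' (x + v) - g' x‖ + ‖g x - g' x‖) =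
      (∫ x, ‖g (x + v) - g' (x + v)‖) + (∫ x, ‖g' (x + v) - g' x‖) + ∫ x, ‖g x - g' x‖ := by
    have hi23 : Integrable (fun x => ‖g (x + v) - g' (x + v)‖ + ‖g' (x + v) - g' x‖) :=
      hi2.add hi3
    rw [integral_add hi23 hi1, integral_add hi2 hi3]
  have h4 : ∫ x, ‖g (x + v) - g' (x + v)‖ = ∫ x, ‖g x - g' x‖ :=
    integral_add_right_eq_self (fun x => ‖g x - g' x‖) v
  rw [h3, h4] at h2
  linarith

/-- Smooth cutoff functions. -/
lemma exists_cutoff {K U : Set V} (hK : IsCompact K) (hU : IsOpen U) (hKU : K ⊆ U) :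
    ∃ χ : V → ℝ, Test χ ∧ (∀ x, 0 ≤ χ x) ∧ (∀ x, χ x ≤ 1) ∧ (∀ x ∈ K, χ x = 1) ∧
      tsupport χ ⊆ U := by
  obtain ⟨δ, hδ, hKδ⟩ := hK.exists_cthickening_subset_open hU hKU
  obtain ⟨f, hf, hr, hs, h1⟩ := exists_contMDiff_support_eq_eq_one_iff (n := ⊤) 𝓘(ℝ, V)
    (Metric.isOpen_thickening (δ := δ) (E := K)) hK.isClosed (Metric.self_subset_thickening hδ K)
  have hsub : tsupport f ⊆ Metric.cthickening δ K := by
    unfold tsupport
    rw [hs]
    exact Metric.closure_thickening_subset_cthickening δ K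
  refine ⟨f, ⟨?_, ?_⟩, ?_, ?_, ?_, hsub.trans hKδ⟩
  · exact contMDiff_iff_contDiff.mp hf
  · exact HasCompactSupport.intro' hK.cthickening Metric.isClosed_cthickening
      (fun x hx => by
        by_contra hne
        exact hx (hsub (subset_tsupport _ hne)))
  · intro x; exact (hr ⟨x, rfl⟩).1
  · intro x; exact (hr ⟨x, rfl⟩).2
  · intro x hx; exact (h1 x).mp hx

end Pool.Agent.Helper96.Dim
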