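import Pool.Agent.Helper96.Dim.Ode
import Pool.Agent.Helper96.Dim.Transl

/-!
# The components of the difference of two maximizers are divergence free in the interior
-/

namespace Pool.Agent.Helper96.Dim

open MeasureTheory Filter Topology Set
open scoped ContDiff

/-- The set where `f` is parallel to the direction `j`. -/
def Dj (f : V → V) (j : Fin 6) : Set V := {x | f x = (f x (piv j)) • dir j}

lemma mem_Dj {f : V → V} {j : Fin 6} {x : V} : x ∈ Dj f j ↔ ∃ a : ℝ, f x = a • dir j := by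
  constructor
  · intro h; exact ⟨_, h⟩
  · rintro ⟨a, ha⟩
    change f x = (f x (piv j)) • dir j
    have h1 : f x (piv j) = a := by
      rw [ha, Pi.smul_apply, dir_piv, smul_eq_mul, mul_one]
    rw [h1]; exact ha

lemma measurableSet_Dj {f : V → V} (hf : Measurable f) (j : Fin 6) : MeasurableSet (Dj f j) := by
  refine measurableSet_eq_fun hf ?_
  exact ((measurable_pi_apply (piv j)).comp hf).smul_const (dir j)

/-- The standing assumptions on the pair of flows. -/
structure Pair (ent : V → ℝ) (R : Set V) (g1 g2 : V → V) : Prop where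
  hR : IsCompact R
  m1 : Measurable g1
  m2 : Measurable g2
  O1 : ∀ x, g1 x ∈ Oct
  O2 : ∀ x, g2 x ∈ Oct
  i1 : Integrable g1
  i2 : Integrable g2
  d1 : ∀ ψ, Test ψ → tsupport ψ ⊆ interior R → ∫ x, fderiv ℝ ψ x (g1 x) = 0
  d2 : ∀ ψ, Test ψ → tsupport ψ ⊆ interior R → ∫ x, fderiv ℝ ψ x (g2 x) = 0
  dual : ∀ ε : ℝ, 0 < ε → ∃ φ, Test φ ∧ ∫ x in R, Gap ent (fderiv ℝ φ x) (g1 x) ≤ ε ∧
    ∫ x in R, Gap ent (fderiv ℝ φ x) (g2 x) ≤ ε
  ce : ∀ᵐ x, g1 x = g2 x ∨ (g1 x ≠ g2 x ∧ CommonEdge (g1 x) (g2 x))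

variable {ent : V → ℝ} {R : Set V} {g1 g2 : V → V}

/-- The sum of the two gaps. -/
noncomputable def G2 (ent : V → ℝ) (g1 g2 : V → V) (L : V →L[ℝ] ℝ) (x : V) : ℝ :=
  Gap ent L (g1 x) + Gap ent L (g2 x)

lemma G2_nonneg (h : EntHyp ent) (hp : Pair ent R g1 g2) (L : V →L[ℝ] ℝ) (x : V) :
    0 ≤ G2 ent g1 g2 L x := add_nonneg (Gap_nonneg h _ (hp.O1 x)) (Gap_nonneg h _ (hp.O2 x))

lemma integrable_weighted (h : EntHyp ent) {g : V → V} (hg : Measurable g)
    (hO : ∀ x, g x ∈ Oct) {φ χ : V → ℝ} (hφ : Test φ) (hχ : Test χ) (lam : ℝ) (v v' : V) :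
    Integrable (fun x => χ x * (wt φ lam v x * Gap ent (fderiv ℝ φ (x + v')) (g x))) := by
  obtain ⟨B, hB0, hB⟩ := Gap_bound h hφ
  have hpvc : Continuous (fun x => fderiv ℝ φ (x + v')) :=
    hφ.continuous_fderiv.comp (continuous_id.add continuous_const)
  refine hχ.integrable_mul ((continuous_wt hφ.1 lam v).measurable.mul
    (measurable_Gap h hpvc.measurable hg hO)) (B := B) ?_
  intro x
  rw [abs_mul, abs_of_pos (wt_pos φ lam v x)]
  calc wt φ lam v x * |Gap ent (fderiv ℝ φ (x + v')) (g x)| ≤ 1 * B :=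
        mul_le_mul (wt_le_one _ _ _ _) (hB _ _ (hO x)) (abs_nonneg _) zero_le_one
    _ = B := one_mul _

/-- The data for the approximation. -/
lemma inner_data (h : EntHyp ent) (hp : Pair ent R g1 g2) (j : Fin 6) {χ : V → ℝ}
    (hχ : Test χ) (hχ0 : ∀ x, 0 ≤ χ x) (hχ1 : ∀ x, χ x ≤ 1) (hχs : tsupport χ ⊆ interior R) :
    ∃ C : ℝ, 0 ≤ C ∧ ∀ κ : ℝ, 0 < κ → ∃ (t : ℝ) (φ : V → ℝ), 0 < t ∧ t ≤ κ ∧ Test φ ∧
      (∀ τ ∈ Icc (0 : ℝ) 1, ∫ x, χ x * (wt φ (κ * t) ((τ * t) • dir j) x *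
        G2 ent g1 g2 (fderiv ℝ φ (x + (τ * t) • dir j)) x) ≤ (κ * (κ * t)) * C) ∧
      ∫ x in R, G2 ent g1 g2 (fderiv ℝ φ x) x ≤ (κ * (κ * t)) * 2 := by
  obtain ⟨K, hK0, hK⟩ := hχ.bound
  have hpi := Real.pi_pos
  refine ⟨4 + Real.pi * K, by positivity, ?_⟩
  intro κ hκ
  -- room for translations
  obtain ⟨δ, hδ, hδs⟩ := hχ.2.isCompact.exists_cthickening_subset_open isOpen_interior hχs
  have e1 := (Metric.tendsto_nhds_nhds.mp (transl hp.i1)) κ hκ
  have e2 := (Metric.tendsto_nhds_nhds.mp (transl hp.i2)) κ hκ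
  obtain ⟨δ1, hδ1, hd1⟩ := e1
  obtain ⟨δ2, hδ2, hd2⟩ := e2
  set t : ℝ := min (min κ δ) (min (δ1 / 2) (δ2 / 2)) with ht
  have ht0 : 0 < t := by rw [ht]; positivity
  have htκ : t ≤ κ := (min_le_left _ _).trans (min_le_left _ _)
  have htδ : t ≤ δ := (min_le_left _ _).trans (min_le_right _ _)
  have htδ1 : t ≤ δ1 / 2 := (min_le_right _ _).trans (min_le_left _ _)
  have htδ2 : t ≤ δ2 / 2 := (min_le_right _ _).trans (min_le_right _ _)
  have hlam : 0 < κ * t := by positivity
  obtain ⟨φ, hφ, hφ1, hφ2⟩ := hp.dual (κ * (κ * t)) (by positivity)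
  refine ⟨t, φ, ht0, htκ, hφ, ?_, ?_⟩
  · intro τ hτ
    set v : V := (τ * t) • dir j with hv
    have hvn : ‖v‖ ≤ t := by
      rw [hv, norm_smul, Real.norm_eq_abs, abs_mul, abs_of_nonneg hτ.1, abs_of_pos ht0]
      calc τ * t * ‖dir j‖ ≤ 1 * t * 1 := by
            have := norm_dir_le j
            have := hτ.2
            gcongr
        _ = t := by ring
    have hsv : ∀ x ∈ tsupport χ, x + v ∈ interior R := by
      intro x hx
      apply hδs
      refine Metric.mem_cthickening_of_dist_le (x + v) x δ _ hx ?_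
      rw [dist_eq_norm]
      simpa using hvn.trans htδ
    have b1 := trans_bound h interior_subset hp.hR hp.m1 hp.O1 hp.i1 hp.d1 hφ hχ hχ0 hχ1 hχs hsv
      hlam hK
    have b2 := trans_bound h interior_subset hp.hR hp.m2 hp.O2 hp.i2 hp.d2 hφ hχ hχ0 hχ1 hχs hsv
      hlam hK
    have hv1 : dist v 0 < δ1 := by rw [dist_zero_right]; linarith
    have hv2 : dist v 0 < δ2 := by rw [dist_zero_right]; linarith
    have c1 := hd1 hv1
    have c2 := hd2 hv2
    rw [dist_zero_right, Real.norm_eq_abs, abs_of_nonneg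
      (integral_nonneg fun x => norm_nonneg _)] at c1 c2
    have hi1 := integrable_weighted h hp.m1 hp.O1 hφ hχ (κ * t) v v
    have hi2 := integrable_weighted h hp.m2 hp.O2 hφ hχ (κ * t) v v
    have hsum : ∫ x, χ x * (wt φ (κ * t) v x * G2 ent g1 g2 (fderiv ℝ φ (x + v)) x) =
        (∫ x, χ x * (wt φ (κ * t) v x * Gap ent (fderiv ℝ φ (x + v)) (g1 x))) +
        ∫ x, χ x * (wt φ (κ * t) v x * Gap ent (fderiv ℝ φ (x + v)) (g2 x)) := by
      rw [← integral_add hi1 hi2]
      refine integral_congr_ae (Eventually.of_forall fun x => ?_)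
      simp only [G2]
      ring
    rw [hsum]
    have f1 : κ * t * (Real.pi / 2) * K * ∫ x, ‖g1 (x + v) - g1 x‖ ≤
        κ * t * (Real.pi / 2) * K * κ := by gcongr
    have f2 : κ * t * (Real.pi / 2) * K * ∫ x, ‖g2 (x + v) - g2 x‖ ≤
        κ * t * (Real.pi / 2) * K * κ := by gcongr
    calc _ ≤ (2 * (κ * (κ * t)) + κ * t * (Real.pi / 2) * K * κ) +
          (2 * (κ * (κ * t)) + κ * t * (Real.pi / 2) * K * κ) := by linarith
      _ = _ := by ring
  · have : IsFiniteMeasure (volume.restrict R : Measure V) :=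
      ⟨by rw [Measure.restrict_apply_univ]; exact hp.hR.measure_lt_top⟩
    obtain ⟨B, hB0, hB⟩ := Gap_bound h hφ
    have hi1 : Integrable (fun x => Gap ent (fderiv ℝ φ x) (g1 x)) (volume.restrict R) :=
      Integrable.of_bound (measurable_Gap h hφ.continuous_fderiv.measurable hp.m1
        hp.O1).aestronglyMeasurable B (Eventually.of_forall fun x => hB _ _ (hp.O1 x))
    have hi2 : Integrable (fun x => Gap ent (fderiv ℝ φ x) (g2 x)) (volume.restrict R) :=
      Integrable.of_bound (measurable_Gap h hφ.continuous_fderiv.measurable hp.m2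
        hp.O2).aestronglyMeasurable B (Eventually.of_forall fun x => hB _ _ (hp.O2 x))
    unfold G2
    rw [integral_add hi1 hi2]
    linarith

/-- Joint integrability for Fubini. -/
lemma integrable_uncurry (h : EntHyp ent) (hp : Pair ent R g1 g2) (j : Fin 6) {χ φ : V → ℝ}
    (hχ : Test χ) (hφ : Test φ) (lam t : ℝ) :
    Integrable (Function.uncurry fun (x : V) (τ : ℝ) => χ x * (wt φ lam ((τ * t) • dir j) x *
      G2 ent g1 g2 (fderiv ℝ φ (x + (τ * t) • dir j)) x))
      ((volume : Measure V).prod (volume.restrict (Ioc (0 : ℝ) 1))) := by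
  obtain ⟨B, hB0, hB⟩ := Gap_bound h hφ
  have hχi : Integrable (fun x => |χ x|) :=
    (hχ.continuous.integrable_of_hasCompactSupport hχ.2).abs
  have hbi : Integrable (fun z : V × ℝ => |χ z.1| * (2 * B))
      ((volume : Measure V).prod (volume.restrict (Ioc (0 : ℝ) 1))) :=
    hχi.mul_prod (integrable_const (2 * B))
  refine hbi.mono' ?_ ?_
  · have hc1 : Continuous fun z : V × ℝ => z.1 + (z.2 * t) • dir j := by fun_prop
    have hP : Continuous fun z : V × ℝ => fderiv ℝ φ (z.1 + (z.2 * t) • dir j) :=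
      hφ.continuous_fderiv.comp hc1
    have hw : Continuous fun z : V × ℝ => wt φ lam ((z.2 * t) • dir j) z.1 := by
      unfold wt
      have h5 : Continuous fun z : V × ℝ => (φ (z.1 + (z.2 * t) • dir j) - φ z.1) / lam :=
        ((hφ.continuous.comp hc1).sub (hφ.continuous.comp continuous_fst)).div_const _
      refine continuous_const.div (continuous_const.add (h5.pow 2)) ?_
      intro z
      positivity
    have hG : Measurable fun z : V × ℝ =>
        G2 ent g1 g2 (fderiv ℝ φ (z.1 + (z.2 * t) • dir j)) z.1 := by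
      unfold G2
      exact (measurable_Gap h hP.measurable (hp.m1.comp measurable_fst) fun z => hp.O1 _).add
        (measurable_Gap h hP.measurable (hp.m2.comp measurable_fst) fun z => hp.O2 _)
    exact ((hχ.continuous.measurable.comp measurable_fst).mul
      (hw.measurable.mul hG)).aestronglyMeasurable
  · filter_upwards with z
    simp only [Function.uncurry]
    rw [norm_mul, Real.norm_eq_abs, norm_mul, Real.norm_eq_abs, Real.norm_eq_abs,
      abs_of_pos (wt_pos _ _ _ _)]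
    have h1 : |G2 ent g1 g2 (fderiv ℝ φ (z.1 + (z.2 * t) • dir j)) z.1| ≤ 2 * B := by
      unfold G2
      calc _ ≤ |Gap ent (fderiv ℝ φ (z.1 + (z.2 * t) • dir j)) (g1 z.1)| +
            |Gap ent (fderiv ℝ φ (z.1 + (z.2 * t) • dir j)) (g2 z.1)| := abs_add_le _ _
        _ ≤ B + B := add_le_add (hB _ _ (hp.O1 _)) (hB _ _ (hp.O2 _))
        _ = 2 * B := by ring
    calc |χ z.1| * (wt φ lam ((z.2 * t) • dir j) z.1 *
          |G2 ent g1 g2 (fderiv ℝ φ (z.1 + (z.2 * t) • dir j)) z.1|) ≤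
          |χ z.1| * (1 * (2 * B)) := by
          gcongr
          exact wt_le_one _ _ _ _
      _ = _ := by rw [one_mul]

end Pool.Agent.Helper96.Dim
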