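import Pool.Agent.Helper96.Dim.Layer
import Pool.Agent.Helper96.Dim.Inner

/-!
# The local analysis at smooth boundary points
-/

namespace Pool.Agent.Helper96.Dim

open MeasureTheory Filter Topology Set
open scoped ContDiff ENNReal

/-- Families of one-dimensional flows with disjoint supports, divergence free inside `R`, with
globally divergence free sum. -/
structure Fam (R : Set V) (a : Fin 6 → V → ℝ) (B : ℝ) : Prop where
  hR : IsCompact R
  meas : ∀ j, Measurable (a j)
  bdd : ∀ j x, |a j x| ≤ B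
  off : ∀ j x, x ∉ R → a j x = 0
  disj : ∀ i j, i ≠ j → ∀ x, a i x * a j x = 0
  inner : ∀ j ψ, Test ψ → tsupport ψ ⊆ interior R → ∫ x, a j x * fderiv ℝ ψ x (dir j) = 0
  glob : ∀ ψ, Test ψ → ∑ j, ∫ x, a j x * fderiv ℝ ψ x (dir j) = 0

/-- Local description of the region. -/
structure Loc (R : Set V) (F : V → ℝ) (z : V) (r : ℝ) (v : V) (K : ℝ) : Prop where
  r0 : 0 < r
  smooth : ContDiff ℝ ∞ F
  iff : ∀ x ∈ Metric.ball z r, (x ∈ R ↔ 0 ≤ F x)
  low : ∀ x ∈ Metric.ball z r, 1 ≤ fderiv ℝ F x v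
  up : ∀ x ∈ Metric.ball z r, ‖fderiv ℝ F x‖ ≤ K

variable {R : Set V} {F : V → ℝ} {z : V} {r : ℝ} {v : V} {K : ℝ} {a : Fin 6 → V → ℝ} {B : ℝ}

lemma integrable_mul_cc {k : V → ℝ} (hk : Continuous k) (hks : HasCompactSupport k)
    {b : V → ℝ} (hb : Measurable b) {B : ℝ} (hB : ∀ x, |b x| ≤ B) :
    Integrable (fun x => b x * k x) := by
  have h1 : Integrable k := hk.integrable_of_hasCompactSupport hks
  refine (h1.norm.const_mul B).mono' (hb.mul hk.measurable).aestronglyMeasurable ?_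
  filter_upwards with x
  rw [norm_mul]
  have := hB x
  rw [← Real.norm_eq_abs] at this
  gcongr

lemma grow {F : V → ℝ} (hF : ContDiff ℝ ∞ F) {x w : V} {t c : ℝ} (ht : 0 ≤ t)
    (hc : ∀ s ∈ Icc (0 : ℝ) t, c ≤ fderiv ℝ F (x + s • w) w) : F x + c * t ≤ F (x + t • w) := by
  rcases ht.eq_or_lt with h0 | h0
  · rw [← h0]; simp
  · have hd : ∀ s : ℝ, HasDerivAt (fun s : ℝ => F (x + s • w)) (fderiv ℝ F (x + s • w) w) s := by
      intro s
      have h2 : HasDerivAt (fun s : ℝ => x + s • w) w s := by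
        have h3 : HasDerivAt (fun s : ℝ => s • w) ((1 : ℝ) • w) s :=
          (hasDerivAt_id s).smul_const w
        rw [one_smul] at h3
        exact h3.const_add x
      exact ((contDiff_differentiable hF) _).hasFDerivAt.comp_hasDerivAt s h2
    obtain ⟨s, hs, hs'⟩ := exists_hasDerivAt_eq_slope (fun s : ℝ => F (x + s • w))
      (fun s => fderiv ℝ F (x + s • w) w) h0
      (fun s _ => (hd s).continuousAt.continuousWithinAt) (fun s _ => hd s)
    have h1 := hc s ⟨hs.1.le, hs.2.le⟩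
    simp only [zero_smul, add_zero, sub_zero] at hs'
    rw [hs', le_div_iff₀ h0] at h1
    linarith

lemma Loc.mem_interior (hL : Loc R F z r v K) {x : V} (hx : x ∈ Metric.ball z r)
    (hF : 0 < F x) : x ∈ interior R := by
  rw [_root_.mem_interior]
  refine ⟨Metric.ball z r ∩ {y | 0 < F y}, ?_, ?_, ⟨hx, hF⟩⟩
  · intro y hy
    exact (hL.iff y hy.1).mpr hy.2.le
  · exact Metric.isOpen_ball.inter (isOpen_lt continuous_const hL.smooth.continuous)

lemma Loc.K_nonneg (hL : Loc R F z r v K) : 0 ≤ K :=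
  (norm_nonneg _).trans (hL.up z (Metric.mem_ball_self hL.r0))

/-- The volume of the layers. -/
lemma Loc.vol (hL : Loc R F z r v K) : ∃ C : ℝ, 0 ≤ C ∧ ∀ ε : ℝ, 0 < ε →
    volume {x | x ∈ Metric.ball z r ∧ 0 ≤ F x ∧ F x ≤ 2 * ε} ≤ ENNReal.ofReal (C * ε) := by
  set D : Set V := Metric.closedBall z (r + ‖v‖) with hD
  have hDc : volume D < ⊤ := (isCompact_closedBall z _).measure_lt_top
  refine ⟨2 * (volume D).toReal, by positivity, ?_⟩
  intro ε hε
  set S : Set V := {x | x ∈ Metric.ball z r ∧ 0 ≤ F x ∧ F x ≤ 2 * ε} with hS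
  have hFc : Continuous F := hL.smooth.continuous
  have hSm : MeasurableSet S := by
    refine Metric.isOpen_ball.measurableSet.inter ?_
    exact (isClosed_le continuous_const hFc).measurableSet.inter
      (isClosed_le hFc continuous_const).measurableSet
  have hstep : ∀ y : V, ∀ s s' : ℝ, s ≤ s' → y - s • v ∈ S → y - s' • v ∈ S →
      s' - s ≤ 2 * ε := by
    intro y s s' hss hs hs'
    have h1 : y - s • v = (y - s' • v) + (s' - s) • v := by rw [sub_smul]; abel
    have h2 := grow hL.smooth (x := y - s' • v) (w := v) (t := s' - s) (c := 1) (by linarith) ?_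
    · rw [← h1] at h2
      have h3 := hs.2.2
      have h4 := hs'.2.1
      linarith
    · intro q hq
      apply hL.low
      have hconv := (convex_ball z r).segment_subset hs'.1 hs.1
      apply hconv
      rw [h1]
      rcases (sub_nonneg.mpr hss).eq_or_lt with h0 | h0
      · have : q = 0 := le_antisymm (by rw [h0]; exact hq.2) hq.1
        rw [this, ← h0]
        simp
      · refine ⟨1 - q / (s' - s), q / (s' - s), ?_, ?_, ?_, ?_⟩
        · have : q / (s' - s) ≤ 1 := by rw [div_le_one h0]; exact hq.2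
          linarith
        · exact div_nonneg hq.1 h0.le
        · ring
        · have h5 : (q / (s' - s)) * (s' - s) = q := by field_simp
          rw [smul_add, smul_smul, h5, ← add_assoc, ← add_smul]
          simp
  have hlay := layer hSm v (p := 0) (q := 1) (ρ := 2 * ε) (h := D.indicator (fun _ => 1)) ?_
    (measurable_const.indicator Metric.isClosed_closedBall.measurableSet)
  · have h1 : ∫⁻ s in Icc (0 : ℝ) 1, ∫⁻ x in S, D.indicator (fun _ => (1 : ℝ≥0∞)) (x + s • v) =
        ∫⁻ s in Icc (0 : ℝ) 1, volume S := by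
      refine setLIntegral_congr_fun measurableSet_Icc fun s hs => ?_
      have h2 : ∫⁻ x in S, D.indicator (fun _ => (1 : ℝ≥0∞)) (x + s • v) = ∫⁻ x in S, 1 := by
        refine setLIntegral_congr_fun hSm fun x hx => ?_
        have : x + s • v ∈ D := by
          rw [hD, Metric.mem_closedBall]
          calc dist (x + s • v) z ≤ dist (x + s • v) x + dist x z := dist_triangle _ _ _
            _ ≤ ‖v‖ + r := by
              refine add_le_add ?_ (Metric.mem_ball.mp hx.1).le
              rw [dist_eq_norm, add_sub_cancel_left, norm_smul, Real.norm_eq_abs,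
                abs_of_nonneg hs.1]
              calc s * ‖v‖ ≤ 1 * ‖v‖ := by
                    have := hs.2
                    gcongr
                _ = ‖v‖ := one_mul _
            _ = r + ‖v‖ := add_comm _ _
        exact indicator_of_mem this _
      rw [h2, setLIntegral_one]
    rw [h1] at hlay
    have h3 : ∫⁻ _ in Icc (0 : ℝ) 1, volume S = volume S := by
      rw [setLIntegral_const]
      simp
    rw [h3, lintegral_indicator_const Metric.isClosed_closedBall.measurableSet, one_mul] at hlay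
    refine hlay.trans (le_of_eq ?_)
    have h9 : 2 * (volume D).toReal * ε = (2 * ε) * (volume D).toReal := by ring
    rw [h9, ENNReal.ofReal_mul (p := 2 * ε) (by positivity), ENNReal.ofReal_toReal hDc.ne]
  · intro y s _ s' _ hs hs'
    rcases le_total s s' with h | h
    · rw [abs_sub_comm, abs_of_nonneg (by linarith)]
      exact hstep y s s' h hs hs'
    · rw [abs_of_nonneg (by linarith)]
      exact hstep y s' s h hs' hs

/-- The cutoff near the boundary. -/
noncomputable def et (F : V → ℝ) (ε : ℝ) (x : V) : ℝ := Real.smoothTransition (F x / ε - 1)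

lemma contDiff_et {F : V → ℝ} (hF : ContDiff ℝ ∞ F) (ε : ℝ) : ContDiff ℝ ∞ (et F ε) := by
  have h : ContDiff ℝ ∞ Real.smoothTransition := Real.smoothTransition.contDiff
  exact h.comp ((hF.div_const ε).sub contDiff_const)

lemma hasFDerivAt_et {F : V → ℝ} (hF : ContDiff ℝ ∞ F) (ε : ℝ) (x : V) :
    HasFDerivAt (et F ε) ((st' (F x / ε - 1) / ε) • fderiv ℝ F x) x := by
  have h1 : HasFDerivAt (fun x => F x / ε - 1) (ε⁻¹ • fderiv ℝ F x) x := by
    have h2 := (((contDiff_differentiable hF) x).hasFDerivAt.const_mul ε⁻¹).sub_const 1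
    refine h2.congr_of_eventuallyEq (Eventually.of_forall fun y => ?_)
    simp [div_eq_inv_mul]
  have h3 := (hasDerivAt_st (F x / ε - 1)).comp_hasFDerivAt x h1
  rw [smul_smul, ← div_eq_mul_inv] at h3
  exact h3

lemma et_zero {F : V → ℝ} {ε : ℝ} (hε : 0 < ε) {x : V} (hx : F x ≤ ε) : et F ε x = 0 := by
  apply Real.smoothTransition.zero_of_nonpos
  have : F x / ε ≤ 1 := by rw [div_le_one hε]; exact hx
  linarith

lemma et_one {F : V → ℝ} {ε : ℝ} (hε : 0 < ε) {x : V} (hx : 2 * ε ≤ F x) : et F ε x = 1 := by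
  apply Real.smoothTransition.one_of_one_le
  have : 2 ≤ F x / ε := by rw [le_div_iff₀ hε]; exact hx
  linarith

lemma st'_ne_zero {F : V → ℝ} {ε : ℝ} (hε : 0 < ε) {x : V} (h : st' (F x / ε - 1) ≠ 0) :
    ε ≤ F x ∧ F x ≤ 2 * ε := by
  constructor
  · by_contra hcon
    push Not at hcon
    apply h
    apply st'_zero_of_neg
    have : F x / ε < 1 := by rw [div_lt_one hε]; exact hcon
    linarith
  · by_contra hcon
    push Not at hcon
    apply h
    apply st'_zero_of_one_lt
    have : 2 < F x / ε := by rw [lt_div_iff₀ hε]; exact hcon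
    linarith

/-- The flux through the layer. -/
noncomputable def mf (a : Fin 6 → V → ℝ) (F : V → ℝ) (ε : ℝ) (j : Fin 6) (Ψ : V → ℝ) : ℝ :=
  ∫ x, a j x * (Ψ x * (st' (F x / ε - 1) / ε * fderiv ℝ F x (dir j)))

lemma continuous_weight {F : V → ℝ} (hF : ContDiff ℝ ∞ F) (ε : ℝ) (w : V) :
    Continuous fun x => st' (F x / ε - 1) / ε * fderiv ℝ F x w := by
  have h1 : Continuous fun x => F x / ε - 1 := (hF.continuous.div_const ε).sub continuous_const
  exact ((continuous_st'.comp h1).div_const ε).mul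
    ((contDiff_continuous_fderiv hF).clm_apply continuous_const)

lemma step1 (hL : Loc R F z r v K) (hA : Fam R a B) (j : Fin 6) {Ψ : V → ℝ} (hΨ : Test Ψ)
    (hΨs : tsupport Ψ ⊆ Metric.ball z r) {ε : ℝ} (hε : 0 < ε) :
    ∫ x, a j x * (et F ε x * fderiv ℝ Ψ x (dir j)) = - mf a F ε j Ψ := by
  have hT : Test (fun x => Ψ x * et F ε x) := hΨ.mul_right (contDiff_et hL.smooth ε)
  have hTs : tsupport (fun x => Ψ x * et F ε x) ⊆ interior R := by
    have h1 : tsupport (fun x => Ψ x * et F ε x) ⊆ tsupport Ψ :=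
      tsupport_mul_subset_left (f := Ψ) (g := et F ε)
    have h2 : tsupport (fun x => Ψ x * et F ε x) ⊆ {x | ε ≤ F x} := by
      refine closure_minimal ?_ (isClosed_le continuous_const hL.smooth.continuous)
      intro x hx
      by_contra hcon
      simp only [mem_ofPred_eq, not_le] at hcon
      apply hx
      simp only
      rw [et_zero hε hcon.le, mul_zero]
    intro x hx
    exact hL.mem_interior (hΨs (h1 hx)) (hε.trans_le (h2 hx))
  have h1 := hA.inner j _ hT hTs
  have hder : ∀ x, a j x * fderiv ℝ (fun x => Ψ x * et F ε x) x (dir j) =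
      a j x * (Ψ x * (st' (F x / ε - 1) / ε * fderiv ℝ F x (dir j))) +
        a j x * (et F ε x * fderiv ℝ Ψ x (dir j)) := by
    intro x
    have h2 : fderiv ℝ (fun x => Ψ x * et F ε x) x =
        Ψ x • fderiv ℝ (et F ε) x + et F ε x • fderiv ℝ Ψ x :=
      fderiv_fun_mul (hΨ.differentiable x) (contDiff_differentiable (contDiff_et hL.smooth ε) x)
    rw [h2, (hasFDerivAt_et hL.smooth ε x).fderiv]
    simp only [add_apply, smul_apply, smul_eq_mul]
    ring
  rw [integral_congr_ae (Eventually.of_forall hder), integral_add] at h1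
  · unfold mf
    linarith
  · exact integrable_mul_cc (hΨ.continuous.mul (continuous_weight hL.smooth ε (dir j)))
      (hΨ.2.mul_right) (hA.meas j) (hA.bdd j)
  · refine integrable_mul_cc ((contDiff_et hL.smooth ε).continuous.mul
      (hΨ.continuous_fderiv.clm_apply continuous_const)) ?_ (hA.meas j) (hA.bdd j)
    refine HasCompactSupport.mul_left ?_
    exact (hΨ.2.fderiv ℝ).comp_left (g := fun L : V →L[ℝ] ℝ => L (dir j)) rfl

lemma step2 (hL : Loc R F z r v K) (hA : Fam R a B) {C : ℝ} (hC0 : 0 ≤ C)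
    (hC : ∀ ε : ℝ, 0 < ε →
      volume {x | x ∈ Metric.ball z r ∧ 0 ≤ F x ∧ F x ≤ 2 * ε} ≤ ENNReal.ofReal (C * ε))
    (j : Fin 6) {Ψ : V → ℝ} (hΨ : Test Ψ) (hΨs : tsupport Ψ ⊆ Metric.ball z r) {D : ℝ}
    (hD : ∀ x, ‖fderiv ℝ Ψ x‖ ≤ D) {ε : ℝ} (hε : 0 < ε) :
    |(∫ x, a j x * fderiv ℝ Ψ x (dir j)) + mf a F ε j Ψ| ≤ B * D * (C * ε) := by
  have hD0 : 0 ≤ D := (norm_nonneg _).trans (hD 0)
  have hB0 : 0 ≤ B := (abs_nonneg _).trans (hA.bdd 0 0)
  have h1 := step1 hL hA j hΨ hΨs hε
  have hcs : HasCompactSupport fun x => fderiv ℝ Ψ x (dir j) :=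
    (hΨ.2.fderiv ℝ).comp_left (g := fun L : V →L[ℝ] ℝ => L (dir j)) rfl
  have hcc : Continuous fun x => fderiv ℝ Ψ x (dir j) :=
    hΨ.continuous_fderiv.clm_apply continuous_const
  have hi1 : Integrable (fun x => a j x * fderiv ℝ Ψ x (dir j)) :=
    integrable_mul_cc hcc hcs (hA.meas j) (hA.bdd j)
  have hi2 : Integrable (fun x => a j x * (et F ε x * fderiv ℝ Ψ x (dir j))) :=
    integrable_mul_cc ((contDiff_et hL.smooth ε).continuous.mul hcc) hcs.mul_left
      (hA.meas j) (hA.bdd j)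
  have h2 : (∫ x, a j x * fderiv ℝ Ψ x (dir j)) + mf a F ε j Ψ =
      ∫ x, (a j x * fderiv ℝ Ψ x (dir j) - a j x * (et F ε x * fderiv ℝ Ψ x (dir j))) := by
    rw [integral_sub hi1 hi2, h1]
    ring
  rw [h2]
  set S : Set V := {x | x ∈ Metric.ball z r ∧ 0 ≤ F x ∧ F x ≤ 2 * ε} with hS
  have hFc : Continuous F := hL.smooth.continuous
  have hzero : ∀ x, x ∉ S → a j x * fderiv ℝ Ψ x (dir j) -
      a j x * (et F ε x * fderiv ℝ Ψ x (dir j)) = 0 := by
    intro x hx
    by_cases hxs : x ∈ tsupport Ψ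
    · by_cases hxR : x ∈ R
      · have hb := hΨs hxs
        have h3 : 0 ≤ F x := (hL.iff x hb).mp hxR
        have h4 : 2 * ε < F x := by
          by_contra hcon
          exact hx ⟨hb, h3, not_lt.mp hcon⟩
        rw [et_one hε h4.le, one_mul, sub_self]
      · rw [hA.off j x hxR]; ring
    · have h3 : x ∉ tsupport (fderiv ℝ Ψ) := fun h => hxs (tsupport_fderiv_subset ℝ h)
      rw [image_eq_zero_of_notMem_tsupport h3]
      simp
  rw [← setIntegral_eq_integral_of_forall_compl_eq_zero hzero]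
  have hfin : volume S < ⊤ := (hC ε hε).trans_lt ENNReal.ofReal_lt_top
  have hb : ∀ x ∈ S, ‖a j x * fderiv ℝ Ψ x (dir j) -
      a j x * (et F ε x * fderiv ℝ Ψ x (dir j))‖ ≤ B * D := by
    intro x _
    have h3 : a j x * fderiv ℝ Ψ x (dir j) - a j x * (et F ε x * fderiv ℝ Ψ x (dir j)) =
        a j x * ((1 - et F ε x) * fderiv ℝ Ψ x (dir j)) := by ring
    rw [h3, norm_mul, norm_mul, Real.norm_eq_abs, Real.norm_eq_abs]
    have h4 : |1 - et F ε x| ≤ 1 := by
      have h5 := Real.smoothTransition.nonneg (F x / ε - 1)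
      have h6 := Real.smoothTransition.le_one (F x / ε - 1)
      rw [abs_le]
      unfold et
      constructor <;> linarith
    have h5 : ‖fderiv ℝ Ψ x (dir j)‖ ≤ D := by
      calc ‖fderiv ℝ Ψ x (dir j)‖ ≤ ‖fderiv ℝ Ψ x‖ * ‖dir j‖ := ContinuousLinearMap.le_opNorm _ _
        _ ≤ D * 1 := mul_le_mul (hD x) (norm_dir_le j) (norm_nonneg _) hD0
        _ = D := mul_one _
    calc |a j x| * (|1 - et F ε x| * ‖fderiv ℝ Ψ x (dir j)‖) ≤ B * (1 * D) := by
          have h6 := hA.bdd j x
          gcongr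
      _ = B * D := by ring
  have h4 := norm_setIntegral_le_of_norm_le_const hfin hb
  rw [Real.norm_eq_abs] at h4
  refine h4.trans ?_
  have h5 : volume.real S ≤ C * ε := by
    have : volume.real S = (volume S).toReal := rfl
    rw [this]
    exact ENNReal.toReal_le_of_le_ofReal (by positivity) (hC ε hε)
  gcongr

lemma step3 (hL : Loc R F z r v K) (hA : Fam R a B) {C : ℝ} (hC0 : 0 ≤ C)
    (hC : ∀ ε : ℝ, 0 < ε →
      volume {x | x ∈ Metric.ball z r ∧ 0 ≤ F x ∧ F x ≤ 2 * ε} ≤ ENNReal.ofReal (C * ε))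
    {Ψ : V → ℝ} (hΨ : Test Ψ) (hΨs : tsupport Ψ ⊆ Metric.ball z r) {D : ℝ}
    (hD : ∀ x, ‖fderiv ℝ Ψ x‖ ≤ D) {ε : ℝ} (hε : 0 < ε) :
    |∑ j, mf a F ε j Ψ| ≤ 6 * (B * D * (C * ε)) := by
  have h1 := hA.glob Ψ hΨ
  have h2 : ∑ j, mf a F ε j Ψ = ∑ j, ((∫ x, a j x * fderiv ℝ Ψ x (dir j)) + mf a F ε j Ψ) := by
    rw [Finset.sum_add_distrib, h1, zero_add]
  rw [h2]
  calc |∑ j, ((∫ x, a j x * fderiv ℝ Ψ x (dir j)) + mf a F ε j Ψ)|
      ≤ ∑ j, |(∫ x, a j x * fderiv ℝ Ψ x (dir j)) + mf a F ε j Ψ| :=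
        Finset.abs_sum_le_sum_abs _ _
    _ ≤ ∑ _j : Fin 6, B * D * (C * ε) :=
        Finset.sum_le_sum fun j _ => step2 hL hA hC0 hC j hΨ hΨs hD hε
    _ = 6 * (B * D * (C * ε)) := by
        rw [Finset.sum_const]
        simp

end Pool.Agent.Helper96.Dim
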