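import Pool.Agent.Helper96.Dim.Bdry

/-!
# The local analysis at smooth boundary points, II
-/

namespace Pool.Agent.Helper96.Dim

open MeasureTheory Filter Topology Set
open scoped ContDiff ENNReal

variable {R : Set V} {F : V → ℝ} {z : V} {r : ℝ} {v : V} {K : ℝ} {a : Fin 6 → V → ℝ} {B : ℝ}

/-- The transversality cutoff. -/
noncomputable def th (F : V → ℝ) (σ η : ℝ) (w x : V) : ℝ :=
  Real.smoothTransition (2 * (σ * fderiv ℝ F x w) / η - 1)

lemma contDiff_fderiv_apply {F : V → ℝ} (hF : ContDiff ℝ ∞ F) (w : V) :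
    ContDiff ℝ ∞ (fun x => fderiv ℝ F x w) :=
  (hF.fderiv_right (m := ∞) (by simp)).clm_apply contDiff_const

lemma contDiff_th {F : V → ℝ} (hF : ContDiff ℝ ∞ F) (σ η : ℝ) (w : V) :
    ContDiff ℝ ∞ (th F σ η w) := by
  have h : ContDiff ℝ ∞ Real.smoothTransition := Real.smoothTransition.contDiff
  exact h.comp (((contDiff_const.mul (contDiff_const.mul (contDiff_fderiv_apply hF w))).div_const
    η).sub contDiff_const)

lemma th_nonneg (F : V → ℝ) (σ η : ℝ) (w x : V) : 0 ≤ th F σ η w x :=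
  Real.smoothTransition.nonneg _

lemma th_le_one (F : V → ℝ) (σ η : ℝ) (w x : V) : th F σ η w x ≤ 1 :=
  Real.smoothTransition.le_one _

lemma th_ne_zero {F : V → ℝ} {σ η : ℝ} (hη : 0 < η) {w x : V} (h : th F σ η w x ≠ 0) :
    η / 2 < σ * fderiv ℝ F x w := by
  by_contra hcon
  push Not at hcon
  apply h
  apply Real.smoothTransition.zero_of_nonpos
  have : 2 * (σ * fderiv ℝ F x w) / η ≤ 1 := by
    rw [div_le_one hη]; linarith
  linarith

lemma th_eq_one {F : V → ℝ} {σ η : ℝ} (hη : 0 < η) {w x : V} (h : η ≤ σ * fderiv ℝ F x w) :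
    th F σ η w x = 1 := by
  apply Real.smoothTransition.one_of_one_le
  have : 2 ≤ 2 * (σ * fderiv ℝ F x w) / η := by
    rw [le_div_iff₀ hη]; linarith
  linarith

/-- The positive weight. -/
noncomputable def Wt (F : V → ℝ) (σ η ε : ℝ) (w : V) (χ : V → ℝ) (x : V) : ℝ :=
  χ x * th F σ η w x * (st' (F x / ε - 1) / ε * (σ * fderiv ℝ F x w))

lemma continuous_Wt {F : V → ℝ} (hF : ContDiff ℝ ∞ F) (σ η ε : ℝ) (w : V) {χ : V → ℝ}
    (hχ : Continuous χ) : Continuous (Wt F σ η ε w χ) := by
  have h1 := continuous_weight hF ε w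
  have h2 : Wt F σ η ε w χ = fun x => χ x * th F σ η w x *
      (σ * (st' (F x / ε - 1) / ε * fderiv ℝ F x w)) := by
    funext x
    unfold Wt
    ring
  rw [h2]
  exact (hχ.mul (contDiff_th hF σ η w).continuous).mul (continuous_const.mul h1)

lemma Wt_nonneg {F : V → ℝ} {σ η ε : ℝ} (hη : 0 < η) (hε : 0 < ε) {w : V} {χ : V → ℝ}
    (hχ0 : ∀ x, 0 ≤ χ x) (x : V) : 0 ≤ Wt F σ η ε w χ x := by
  unfold Wt
  by_cases h : th F σ η w x = 0
  · rw [h]; simp
  · have h1 := th_ne_zero hη h
    have h2 := th_nonneg F σ η w x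
    have h3 := hχ0 x
    have h4 := st'_nonneg (F x / ε - 1)
    have h5 : 0 ≤ σ * fderiv ℝ F x w := by linarith
    positivity

lemma abs_fderiv_dir_le (hL : Loc R F z r v K) (j : Fin 6) {x : V} (hx : x ∈ Metric.ball z r) :
    |fderiv ℝ F x (dir j)| ≤ K := by
  rw [← Real.norm_eq_abs]
  calc ‖fderiv ℝ F x (dir j)‖ ≤ ‖fderiv ℝ F x‖ * ‖dir j‖ := ContinuousLinearMap.le_opNorm _ _
    _ ≤ K * 1 := mul_le_mul (hL.up x hx) (norm_dir_le j) (norm_nonneg _) hL.K_nonneg
    _ = K := mul_one _

/-- Room for the translations. -/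
lemma room (hL : Loc R F z r v K) (j : Fin 6) {σ : ℝ} (hσ : |σ| = 1) {η : ℝ} (hη : 0 < η) :
    ∃ τ : ℝ, 0 < τ ∧ ∀ x ∈ Metric.ball z (r / 2), η / 2 < σ * fderiv ℝ F x (dir j) →
      ∀ s ∈ Icc (0 : ℝ) (2 * τ), x + s • (σ • dir j) ∈ Metric.ball z r ∧
        F x + (η / 4) * s ≤ F (x + s • (σ • dir j)) := by
  have hr := hL.r0
  have huc := (isCompact_closedBall z r).uniformContinuousOn_of_continuous
    (contDiff_continuous_fderiv hL.smooth).continuousOn
  obtain ⟨δ, hδ, hd⟩ := Metric.uniformContinuousOn_iff.mp huc (η / 4) (by positivity)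
  set τ : ℝ := min (r / 8) (δ / 4) with hτ
  have hτ0 : 0 < τ := by rw [hτ]; positivity
  have hτ1 : τ ≤ r / 8 := min_le_left _ _
  have hτ2 : τ ≤ δ / 4 := min_le_right _ _
  refine ⟨τ, hτ0, ?_⟩
  intro x hx hxη
  have hwn : ‖σ • dir j‖ ≤ 1 := by
    rw [norm_smul, Real.norm_eq_abs, hσ, one_mul]; exact norm_dir_le j
  have hball : ∀ s ∈ Icc (0 : ℝ) (2 * τ), x + s • (σ • dir j) ∈ Metric.ball z r := by
    intro s hs
    rw [Metric.mem_ball]
    calc dist (x + s • (σ • dir j)) z ≤ dist (x + s • (σ • dir j)) x + dist x z :=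
          dist_triangle _ _ _
      _ < r / 4 + r / 2 + r / 4 := by
        have h1 : dist (x + s • (σ • dir j)) x ≤ r / 4 := by
          rw [dist_eq_norm, add_sub_cancel_left, norm_smul, Real.norm_eq_abs, abs_of_nonneg hs.1]
          calc s * ‖σ • dir j‖ ≤ (2 * τ) * 1 :=
                mul_le_mul hs.2 hwn (norm_nonneg _) (by positivity)
            _ ≤ r / 4 := by linarith
        have h2 := Metric.mem_ball.mp hx
        linarith
      _ = r := by ring
  intro s hs
  refine ⟨hball s hs, ?_⟩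
  refine grow hL.smooth hs.1 ?_
  intro q hq
  have hq' : q ∈ Icc (0 : ℝ) (2 * τ) := ⟨hq.1, hq.2.trans hs.2⟩
  have h1 := hball q hq'
  have h2 : dist (x + q • (σ • dir j)) x < δ := by
    rw [dist_eq_norm, add_sub_cancel_left, norm_smul, Real.norm_eq_abs, abs_of_nonneg hq.1]
    calc q * ‖σ • dir j‖ ≤ (2 * τ) * 1 :=
          mul_le_mul hq'.2 hwn (norm_nonneg _) (by positivity)
      _ < δ := by linarith
  have hxb : x ∈ Metric.closedBall z r := by
    rw [Metric.mem_closedBall]
    have := Metric.mem_ball.mp hx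
    linarith
  have h3 := hd _ (Metric.ball_subset_closedBall h1) x hxb h2
  rw [dist_eq_norm] at h3
  have h4 : |(fderiv ℝ F (x + q • (σ • dir j)) - fderiv ℝ F x) (σ • dir j)| ≤ η / 4 := by
    rw [← Real.norm_eq_abs]
    calc ‖(fderiv ℝ F (x + q • (σ • dir j)) - fderiv ℝ F x) (σ • dir j)‖
        ≤ ‖fderiv ℝ F (x + q • (σ • dir j)) - fderiv ℝ F x‖ * ‖σ • dir j‖ :=
          ContinuousLinearMap.le_opNorm _ _
      _ ≤ (η / 4) * 1 := mul_le_mul h3.le hwn (norm_nonneg _) (by positivity)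
      _ = η / 4 := mul_one _
  rw [sub_apply] at h4
  have h5 : fderiv ℝ F x (σ • dir j) = σ * fderiv ℝ F x (dir j) := by
    rw [map_smul, smul_eq_mul]
  rw [h5] at h4
  have h6 := (abs_le.mp h4).1
  linarith

/-- The main local estimate. -/
lemma pos_part (hL : Loc R F z r v K) (hA : Fam R a B) {C : ℝ} (hC0 : 0 ≤ C)
    (hC : ∀ ε : ℝ, 0 < ε →
      volume {x | x ∈ Metric.ball z r ∧ 0 ≤ F x ∧ F x ≤ 2 * ε} ≤ ENNReal.ofReal (C * ε))
    (j : Fin 6) {σ : ℝ} (hσ : σ = 1 ∨ σ = -1) {η : ℝ} (hη : 0 < η) {χ : V → ℝ} (hχ : Test χ)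
    (hχ0 : ∀ x, 0 ≤ χ x) (hχ1 : ∀ x, χ x ≤ 1) (hχs : tsupport χ ⊆ Metric.ball z (r / 2))
    {ρ : ℝ} (hρ : 0 < ρ) :
    ∃ ε0 : ℝ, 0 < ε0 ∧ ∀ ε : ℝ, 0 < ε → ε < ε0 →
      ∫ x, (a j x) ^ 2 * Wt F σ η ε (dir j) χ x ≤ ρ := by
  classical
  have hσ1 : |σ| = 1 := by rcases hσ with rfl | rfl <;> simp
  have hσσ : σ * σ = 1 := by rcases hσ with rfl | rfl <;> norm_num
  have hr := hL.r0
  have hB0 : 0 ≤ B := (abs_nonneg _).trans (hA.bdd 0 0)
  have hK0 := hL.K_nonneg
  obtain ⟨Cst, hCst0, hCst⟩ := st'_bound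
  obtain ⟨τ, hτ0, hroom⟩ := room hL j hσ1 hη
  set w : V := σ • dir j with hw
  have hFc : Continuous F := hL.smooth.continuous
  have hball2 : Metric.ball z (r / 2) ⊆ Metric.ball z r :=
    Metric.ball_subset_ball (by linarith)
  -- integrability of `a j`
  have hai : Integrable (a j) := by
    have h1 : Integrable (R.indicator (fun _ => B)) :=
      IntegrableOn.integrable_indicator (integrableOn_const hA.hR.measure_lt_top.ne)
        hA.hR.isClosed.measurableSet
    refine h1.mono' (hA.meas j).aestronglyMeasurable ?_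
    filter_upwards with x
    by_cases hx : x ∈ R
    · rw [indicator_of_mem hx, Real.norm_eq_abs]; exact hA.bdd j x
    · rw [indicator_of_notMem hx, hA.off j x hx, norm_zero]
  -- approximation
  set δ' : ℝ := ρ * η * τ / (96 * (B * Cst * K + 1)) with hδ'
  have hδ'0 : 0 < δ' := by rw [hδ']; positivity
  obtain ⟨A, hAt, hAi⟩ := exists_smooth_approx hai hδ'0
  obtain ⟨KA, hKA0, hKA⟩ := hAt.bound
  obtain ⟨KA', hKA'0, hKA'⟩ := hAt.bound'
  set P : V → ℝ := fun x => χ x * th F σ η (dir j) x with hP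
  have hPt : Test P := hχ.mul_right (contDiff_th hL.smooth σ η (dir j))
  have hPs : tsupport P ⊆ tsupport χ := tsupport_mul_subset_left (f := χ)
    (g := th F σ η (dir j))
  have hP0 : ∀ x, 0 ≤ P x := fun x => mul_nonneg (hχ0 x) (th_nonneg _ _ _ _ _)
  have hP1 : ∀ x, P x ≤ 1 := fun x => by
    calc χ x * th F σ η (dir j) x ≤ 1 * 1 :=
          mul_le_mul (hχ1 x) (th_le_one _ _ _ _ _) (th_nonneg _ _ _ _ _) zero_le_one
      _ = 1 := one_mul _
  obtain ⟨KP, hKP0, hKP⟩ := hPt.bound
  set D : ℝ := 1 * KA + KA' * KP with hD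
  have hD0 : 0 ≤ D := by rw [hD]; positivity
  refine ⟨ρ / (12 * (B * D * C + 1)), by positivity, ?_⟩
  intro ε hε hε0
  -- the layer
  set S : Set V := {x | x ∈ Metric.ball z (r / 2) ∧ (ε ≤ F x ∧ F x ≤ 2 * ε) ∧
    η / 2 < σ * fderiv ℝ F x (dir j)} with hS
  have hdc : Continuous fun x => σ * fderiv ℝ F x (dir j) :=
    continuous_const.mul ((contDiff_continuous_fderiv hL.smooth).clm_apply continuous_const)
  have hSm : MeasurableSet S := by
    refine Metric.isOpen_ball.measurableSet.inter (MeasurableSet.inter ?_ ?_)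
    · exact (isClosed_le continuous_const hFc).measurableSet.inter
        (isClosed_le hFc continuous_const).measurableSet
    · exact (isOpen_lt continuous_const hdc).measurableSet
  set O : Set V := {x | x ∈ Metric.ball z (r / 2) ∧ 0 < F x ∧
    η / 2 < σ * fderiv ℝ F x (dir j)} with hO
  have hOo : IsOpen O := Metric.isOpen_ball.inter
    ((isOpen_lt continuous_const hFc).inter (isOpen_lt continuous_const hdc))
  have hSO : S ⊆ O := fun x hx => ⟨hx.1, hε.trans_le hx.2.1.1, hx.2.2⟩
  -- invariance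
  have hshift : ∀ s ∈ Icc τ (2 * τ), ∀ᵐ x, x ∈ O → a j (x + s • w) = a j x := by
    intro s hs
    have hs0 : 0 ≤ s := hτ0.le.trans hs.1
    have h1 := shift_ae (hA.meas j) (hA.bdd j) (u := dir j) (U := interior R) (hA.inner j) hOo
      (s := s * σ) ?_
    · filter_upwards [h1] with x hx hxO
      have h2 := hx hxO
      rw [mul_smul] at h2
      exact h2
    · intro x hx q hq
      have h2 : q * s ∈ Icc (0 : ℝ) (2 * τ) := by
        refine ⟨mul_nonneg hq.1 hs0, ?_⟩
        calc q * s ≤ 1 * s := by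
              have := hq.2
              gcongr
          _ ≤ 2 * τ := by rw [one_mul]; exact hs.2
      have h3 := hroom x hx.1 hx.2.2 (q * s) h2
      have h4 : x + (q * (s * σ)) • dir j = x + (q * s) • w := by
        rw [hw, smul_smul, mul_assoc]
      rw [h4]
      refine hL.mem_interior h3.1 ?_
      have h5 : 0 ≤ (η / 4) * (q * s) := mul_nonneg (by positivity) h2.1
      linarith [hx.2.1, h3.2]
  -- the layer estimate
  have hlay := layer hSm w (p := τ) (q := 2 * τ) (ρ := 4 * ε / η)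
    (h := fun x => ENNReal.ofReal |A x - a j x|) ?_ ?_
  rotate_left
  · -- separation
    have hstep : ∀ y : V, ∀ s ∈ Icc τ (2 * τ), ∀ s' ∈ Icc τ (2 * τ), s ≤ s' →
        y - s • w ∈ S → y - s' • w ∈ S → s' - s ≤ 4 * ε / η := by
      intro y s hs s' hs' hss hsS hs'S
      have h1 : y - s • w = (y - s' • w) + (s' - s) • w := by rw [sub_smul]; abel
      have h2 := (hroom _ hs'S.1 hs'S.2.2 (s' - s) ⟨by linarith, by linarith [hs.1, hs'.2]⟩).2
      rw [← h1] at h2
      have h3 := hsS.2.1.2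
      have h4 := hs'S.2.1.1
      rw [le_div_iff₀ hη]
      linarith
    intro y s hs s' hs' hsS hs'S
    rcases le_total s s' with h | h
    · rw [abs_sub_comm, abs_of_nonneg (by linarith)]
      exact hstep y s hs s' hs' h hsS hs'S
    · rw [abs_of_nonneg (by linarith)]
      exact hstep y s' hs' s hs h hs'S hsS
  · exact ((hAt.continuous.measurable.sub (hA.meas j)).abs).ennreal_ofReal
  -- a good parameter
  set Q : ℝ := 2 * (4 * ε / η * δ') / τ with hQ
  have hQ0 : 0 < Q := by rw [hQ]; positivity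
  obtain ⟨s, hs, hsQ⟩ : ∃ s ∈ Icc τ (2 * τ),
      ∫⁻ x in S, ENNReal.ofReal |A (x + s • w) - a j (x + s • w)| ≤ ENNReal.ofReal Q := by
    by_contra hcon
    push Not at hcon
    have h1 : ∫⁻ s in Icc τ (2 * τ), ENNReal.ofReal Q ≤
        ∫⁻ s in Icc τ (2 * τ), ∫⁻ x in S, ENNReal.ofReal |A (x + s • w) - a j (x + s • w)| :=
      setLIntegral_mono' measurableSet_Icc fun s hs => (hcon s hs).le
    rw [setLIntegral_const, Real.volume_Icc, ← ENNReal.ofReal_mul hQ0.le] at h1
    have h2 := h1.trans hlay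
    have h3 : ENNReal.ofReal (4 * ε / η) * ∫⁻ y, ENNReal.ofReal |A y - a j y| ≤
        ENNReal.ofReal (4 * ε / η * δ') := by
      rw [ENNReal.ofReal_mul (p := 4 * ε / η) (by positivity)]
      gcongr
    have h4 := h2.trans h3
    rw [ENNReal.ofReal_le_ofReal_iff (by positivity)] at h4
    have h5 : Q * (2 * τ - τ) = 2 * (4 * ε / η * δ') := by
      rw [hQ]; field_simp; ring
    rw [h5] at h4
    have h6 : 0 < 4 * ε / η * δ' := by positivity
    linarith
  have hs0 : 0 ≤ s := hτ0.le.trans hs.1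
  -- transfer to the untranslated function
  have hsQ' : ∫⁻ x in S, ENNReal.ofReal |A (x + s • w) - a j x| ≤ ENNReal.ofReal Q := by
    refine le_trans (le_of_eq ?_) hsQ
    refine setLIntegral_congr_fun_ae hSm ?_
    filter_upwards [hshift s hs] with x hx hxS
    rw [hx (hSO hxS)]
  have hvolS : volume S < ⊤ := by
    refine lt_of_le_of_lt (measure_mono ?_)
      (isCompact_closedBall z r : IsCompact (Metric.closedBall z r)).measure_lt_top
    intro x hx
    exact Metric.ball_subset_closedBall (hball2 hx.1)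
  have hdiffm : Measurable fun x => |A (x + s • w) - a j x| :=
    ((hAt.continuous.comp (continuous_id.add continuous_const)).measurable.sub (hA.meas j)).abs
  have hdiffb : ∀ x, |A (x + s • w) - a j x| ≤ KA' + B := fun x =>
    (abs_sub _ _).trans (add_le_add (hKA' _) (hA.bdd j x))
  have hIi : IntegrableOn (fun x => |A (x + s • w) - a j x|) S := by
    refine Measure.integrableOn_of_bounded (M := KA' + B) hvolS.ne
      hdiffm.aestronglyMeasurable ?_
    filter_upwards with x
    rw [Real.norm_eq_abs, abs_abs]; exact hdiffb x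
  have hI : ∫ x in S, |A (x + s • w) - a j x| ≤ Q := by
    rw [integral_eq_lintegral_of_nonneg_ae (Eventually.of_forall fun x => abs_nonneg _)
      hdiffm.aestronglyMeasurable]
    exact ENNReal.toReal_le_of_le_ofReal hQ0.le hsQ'
  -- the test function
  set Ψ : V → ℝ := fun x => P x * A (x + s • w) with hΨ
  have hAs : ContDiff ℝ ∞ (fun x => A (x + s • w)) :=
    hAt.1.comp (contDiff_id.add contDiff_const)
  have hΨt : Test Ψ := hPt.mul_right hAs
  have hΨs : tsupport Ψ ⊆ Metric.ball z (r / 2) :=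
    ((tsupport_mul_subset_left (f := P) (g := fun x => A (x + s • w))).trans hPs).trans hχs
  have hΨD : ∀ x, ‖fderiv ℝ Ψ x‖ ≤ D := by
    intro x
    have h1 : fderiv ℝ Ψ x = P x • fderiv ℝ (fun x => A (x + s • w)) x +
        A (x + s • w) • fderiv ℝ P x :=
      fderiv_fun_mul (hPt.differentiable x) (contDiff_differentiable hAs x)
    rw [h1, fderiv_translate, hD]
    refine (norm_add_le _ _).trans ?_
    rw [norm_smul, norm_smul]
    refine add_le_add ?_ ?_
    · refine mul_le_mul ?_ (hKA _) (norm_nonneg _) zero_le_one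
      rw [Real.norm_eq_abs, abs_of_nonneg (hP0 x)]
      exact hP1 x
    · refine mul_le_mul ?_ (hKP x) (norm_nonneg _) hKA'0
      rw [Real.norm_eq_abs]; exact hKA' _
  have hsum := step3 hL hA hC0 hC hΨt (hΨs.trans hball2) hΨD hε
  -- pointwise bound
  have hpt : ∀ (j' : Fin 6) (b : ℝ), |b| ≤ B → ∀ x, |b * (P x * (A (x + s • w) - a j x) *
      (st' (F x / ε - 1) / ε * fderiv ℝ F x (dir j')))| ≤
      S.indicator (fun x => B * (Cst / ε * K) * |A (x + s • w) - a j x|) x := by
    intro j' b hb x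
    by_cases hx : x ∈ S
    · have habs : ∀ p q u t y : ℝ, |p * (q * u * (t * y))| = |p| * (|q| * |u| * (|t| * |y|)) := by
        intros; simp only [abs_mul]
      rw [indicator_of_mem hx, habs, abs_of_nonneg (hP0 x)]
      have h1 : |st' (F x / ε - 1) / ε| ≤ Cst / ε := by
        rw [abs_div, abs_of_nonneg (st'_nonneg _), abs_of_pos hε]
        have := hCst (F x / ε - 1)
        gcongr
      have h2 := abs_fderiv_dir_le hL j' (hball2 hx.1)
      have h3 := hP1 x
      have h4 := hP0 x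
      calc |b| * (P x * |A (x + s • w) - a j x| *
            (|st' (F x / ε - 1) / ε| * |fderiv ℝ F x (dir j')|))
          ≤ B * (1 * |A (x + s • w) - a j x| * (Cst / ε * K)) := by gcongr
        _ = _ := by ring
    · rw [indicator_of_notMem hx]
      have h0 : P x * (st' (F x / ε - 1) / ε * fderiv ℝ F x (dir j')) = 0 := by
        by_contra hne
        apply hx
        have h1 : P x ≠ 0 := fun h => hne (by rw [h, zero_mul])
        have h2 : st' (F x / ε - 1) ≠ 0 := fun h => hne (by rw [h]; simp)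
        have h3 : χ x ≠ 0 := fun h => h1 (by rw [hP]; simp [h])
        have h4 : th F σ η (dir j) x ≠ 0 := fun h => h1 (by rw [hP]; simp [h])
        exact ⟨hχs (subset_tsupport _ h3), st'_ne_zero hε h2, th_ne_zero hη h4⟩
      have h1 : b * (P x * (A (x + s • w) - a j x) *
          (st' (F x / ε - 1) / ε * fderiv ℝ F x (dir j'))) =
          b * (A (x + s • w) - a j x) * (P x * (st' (F x / ε - 1) / ε *
            fderiv ℝ F x (dir j'))) := by ring
      rw [h1, h0, mul_zero, abs_zero]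
  have hindi : Integrable (S.indicator
      (fun x => B * (Cst / ε * K) * |A (x + s • w) - a j x|)) := by
    have h1 : IntegrableOn (fun x => B * (Cst / ε * K) * |A (x + s • w) - a j x|) S :=
      hIi.const_mul (B * (Cst / ε * K))
    exact h1.integrable_indicator hSm
  have hindint : ∫ x, S.indicator (fun x => B * (Cst / ε * K) * |A (x + s • w) - a j x|) x ≤
      B * (Cst / ε * K) * Q := by
    rw [integral_indicator hSm, integral_const_mul]
    gcongr
  -- error terms
  have herr : ∀ j' ≠ j, |mf a F ε j' Ψ| ≤ B * (Cst / ε * K) * Q := by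
    intro j' hj'
    refine le_trans ?_ hindint
    unfold mf
    rw [← Real.norm_eq_abs]
    refine norm_integral_le_of_norm_le hindi (Eventually.of_forall fun x => ?_)
    rw [Real.norm_eq_abs]
    have h1 : a j' x * (Ψ x * (st' (F x / ε - 1) / ε * fderiv ℝ F x (dir j'))) =
        a j' x * (P x * (A (x + s • w) - a j x) *
          (st' (F x / ε - 1) / ε * fderiv ℝ F x (dir j'))) := by
      have h2 := hA.disj j' j hj' x
      have h3 : a j' x * (P x * (A (x + s • w) - a j x) *
          (st' (F x / ε - 1) / ε * fderiv ℝ F x (dir j'))) =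
          a j' x * (Ψ x * (st' (F x / ε - 1) / ε * fderiv ℝ F x (dir j'))) -
          (a j' x * a j x) * (P x * (st' (F x / ε - 1) / ε * fderiv ℝ F x (dir j'))) := by
        simp only [hΨ]
        ring
      rw [h3, h2, zero_mul, sub_zero]
    rw [h1]
    exact hpt j' (a j' x) (hA.bdd j' x) x
  -- the main term
  have hWc := continuous_Wt hL.smooth σ η ε (dir j) hχ.continuous
  have hWs : HasCompactSupport (Wt F σ η ε (dir j) χ) := by
    unfold Wt
    exact HasCompactSupport.mul_right (HasCompactSupport.mul_right hχ.2)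
  have hWi : Integrable (fun x => (a j x) ^ 2 * Wt F σ η ε (dir j) χ x) :=
    integrable_mul_cc hWc hWs ((hA.meas j).pow_const 2) (B := B ^ 2) (fun x => by
      rw [abs_pow]
      exact pow_le_pow_left₀ (abs_nonneg _) (hA.bdd j x) 2)
  have hmi : Integrable (fun x => a j x * (Ψ x * (st' (F x / ε - 1) / ε *
      fderiv ℝ F x (dir j)))) :=
    integrable_mul_cc (hΨt.continuous.mul (continuous_weight hL.smooth ε (dir j)))
      (hΨt.2.mul_right) (hA.meas j) (hA.bdd j)
  have hmain : |mf a F ε j Ψ - σ * ∫ x, (a j x) ^ 2 * Wt F σ η ε (dir j) χ x| ≤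
      B * (Cst / ε * K) * Q := by
    refine le_trans ?_ hindint
    unfold mf
    rw [← integral_const_mul, ← integral_sub hmi (hWi.const_mul σ), ← Real.norm_eq_abs]
    refine norm_integral_le_of_norm_le hindi (Eventually.of_forall fun x => ?_)
    rw [Real.norm_eq_abs]
    have h1 : a j x * (Ψ x * (st' (F x / ε - 1) / ε * fderiv ℝ F x (dir j))) -
        σ * ((a j x) ^ 2 * Wt F σ η ε (dir j) χ x) =
        a j x * (P x * (A (x + s • w) - a j x) *
          (st' (F x / ε - 1) / ε * fderiv ℝ F x (dir j))) := by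
      have h2 : Wt F σ η ε (dir j) χ x =
          σ * (P x * (st' (F x / ε - 1) / ε * fderiv ℝ F x (dir j))) := by
        unfold Wt
        simp only [hP]
        ring
      rw [h2]
      simp only [hΨ]
      calc _ = a j x * (P x * A (x + s • w) * (st' (F x / ε - 1) / ε * fderiv ℝ F x (dir j))) -
            (σ * σ) * ((a j x) ^ 2 * (P x * (st' (F x / ε - 1) / ε *
              fderiv ℝ F x (dir j)))) := by ring
        _ = _ := by rw [hσσ]; ring
    rw [h1]
    exact hpt j (a j x) (hA.bdd j x) x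
  -- collect
  set X : ℝ := ∫ x, (a j x) ^ 2 * Wt F σ η ε (dir j) χ x with hX
  have hsplit : ∑ j', mf a F ε j' Ψ = mf a F ε j Ψ +
      ∑ j' ∈ Finset.univ.erase j, mf a F ε j' Ψ := by
    rw [← Finset.add_sum_erase _ _ (Finset.mem_univ j)]
  have hrest : |∑ j' ∈ Finset.univ.erase j, mf a F ε j' Ψ| ≤ 5 * (B * (Cst / ε * K) * Q) := by
    calc |∑ j' ∈ Finset.univ.erase j, mf a F ε j' Ψ|
        ≤ ∑ j' ∈ Finset.univ.erase j, |mf a F ε j' Ψ| := Finset.abs_sum_le_sum_abs _ _
      _ ≤ ∑ _j' ∈ Finset.univ.erase j, (B * (Cst / ε * K) * Q) :=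
          Finset.sum_le_sum fun j' hj' => herr j' (Finset.ne_of_mem_erase hj')
      _ = 5 * (B * (Cst / ε * K) * Q) := by
          rw [Finset.sum_const, Finset.card_erase_of_mem (Finset.mem_univ j)]
          simp
  have hσX : |σ * X| ≤ 6 * (B * D * (C * ε)) + 6 * (B * (Cst / ε * K) * Q) := by
    have h1 : σ * X = (∑ j', mf a F ε j' Ψ) - (∑ j' ∈ Finset.univ.erase j, mf a F ε j' Ψ) -
        (mf a F ε j Ψ - σ * X) := by
      rw [hsplit]; ring
    rw [h1]
    refine (abs_sub _ _).trans ?_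
    refine (add_le_add (abs_sub _ _) (le_refl _)).trans ?_
    linarith
  rw [abs_mul, hσ1, one_mul] at hσX
  refine (le_abs_self X).trans (hσX.trans ?_)
  have e1 : 6 * (B * D * (C * ε)) ≤ ρ / 2 := by
    have h1 : (B * D * C + 1) * ε ≤ ρ / 12 := by
      rw [lt_div_iff₀ (by positivity)] at hε0
      linarith
    have h2 : B * D * C * ε ≤ (B * D * C + 1) * ε := by
      have : 0 < ε := hε
      nlinarith
    calc 6 * (B * D * (C * ε)) = 6 * (B * D * C * ε) := by ring
      _ ≤ 6 * (ρ / 12) := by linarith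
      _ = ρ / 2 := by ring
  have e2 : 6 * (B * (Cst / ε * K) * Q) ≤ ρ / 2 := by
    have h1 : 6 * (B * (Cst / ε * K) * Q) = 48 * (B * Cst * K) * δ' / (η * τ) := by
      rw [hQ]; field_simp; ring
    rw [h1, hδ']
    have h2 : 48 * (B * Cst * K) * (ρ * η * τ / (96 * (B * Cst * K + 1))) / (η * τ) =
        (ρ / 2) * ((B * Cst * K) / (B * Cst * K + 1)) := by
      field_simp
      ring
    rw [h2]
    have h3 : (B * Cst * K) / (B * Cst * K + 1) ≤ 1 := by
      rw [div_le_one (by positivity)]; linarith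
    calc (ρ / 2) * ((B * Cst * K) / (B * Cst * K + 1)) ≤ (ρ / 2) * 1 := by gcongr
      _ = ρ / 2 := mul_one _
  linarith

end Pool.Agent.Helper96.Dim
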