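import Pool.Agent.Helper96.Dim.Bdry2

/-!
# The local analysis at smooth boundary points, III
-/

namespace Pool.Agent.Helper96.Dim

open MeasureTheory Filter Topology Set
open scoped ContDiff ENNReal

variable {R : Set V} {F : V → ℝ} {z : V} {r : ℝ} {v : V} {K : ℝ} {a : Fin 6 → V → ℝ} {B : ℝ}

lemma frac_aux {k e : ℝ} (hk : 0 ≤ k) (he : 0 < e) : k * (e / (4 * (k + 1))) ≤ e / 4 := by
  have h1 : k * (e / (4 * (k + 1))) = (e / 4) * (k / (k + 1)) := by
    have : k + 1 ≠ 0 := by positivity
    field_simp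
  rw [h1]
  have h2 : k / (k + 1) ≤ 1 := by
    rw [div_le_one (by positivity)]; linarith
  calc (e / 4) * (k / (k + 1)) ≤ (e / 4) * 1 := by gcongr
    _ = e / 4 := mul_one _

theorem local_zero (hL : Loc R F z r v K) (hA : Fam R a B) (j : Fin 6) {ψ : V → ℝ}
    (hψ : Test ψ) (hψs : tsupport ψ ⊆ Metric.ball z (r / 2)) :
    ∫ x, a j x * fderiv ℝ ψ x (dir j) = 0 := by
  classical
  have hr := hL.r0
  have hB0 : 0 ≤ B := (abs_nonneg _).trans (hA.bdd 0 0)
  have hK0 := hL.K_nonneg
  have hball2 : Metric.ball z (r / 2) ⊆ Metric.ball z r :=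
    Metric.ball_subset_ball (by linarith)
  obtain ⟨C, hC0, hC⟩ := hL.vol
  obtain ⟨Cst, hCst0, hCst⟩ := st'_bound
  obtain ⟨χ, hχ, hχ0, hχ1, hχK, hχs⟩ := exists_cutoff hψ.2.isCompact Metric.isOpen_ball hψs
  obtain ⟨Kψ, hKψ0, hKψ⟩ := hψ.bound'
  obtain ⟨D, hD0, hD⟩ := hψ.bound
  have hFc : Continuous F := hL.smooth.continuous
  suffices h : ∀ e : ℝ, 0 < e → |∫ x, a j x * fderiv ℝ ψ x (dir j)| ≤ e by
    have h1 : |∫ x, a j x * fderiv ℝ ψ x (dir j)| ≤ 0 :=
      le_of_forall_pos_le_add fun e he => by rw [zero_add]; exact h e he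
    exact abs_eq_zero.mp (le_antisymm h1 (abs_nonneg _))
  intro e he
  set CW : ℝ := Cst * K * C with hCW
  have hCW0 : 0 ≤ CW := by rw [hCW]; positivity
  set s : ℝ := e / (4 * (2 * Kψ * CW + 1)) with hs
  have hs0 : 0 < s := by rw [hs]; positivity
  set η : ℝ := e / (4 * (Kψ * B * Cst * C + 1)) with hη
  have hη0 : 0 < η := by rw [hη]; positivity
  set ρ : ℝ := e * s / (8 * (Kψ + 1)) with hρ
  have hρ0 : 0 < ρ := by rw [hρ]; positivity
  obtain ⟨ε1, hε1, hp1⟩ := pos_part hL hA hC0 hC j (Or.inl rfl : (1 : ℝ) = 1 ∨ (1 : ℝ) = -1)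
    hη0 hχ hχ0 hχ1 hχs hρ0
  obtain ⟨ε2, hε2, hp2⟩ := pos_part hL hA hC0 hC j (Or.inr rfl : (-1 : ℝ) = 1 ∨ (-1 : ℝ) = -1)
    hη0 hχ hχ0 hχ1 hχs hρ0
  set ε : ℝ := min (min ε1 ε2) (e / (4 * (B * D * C + 1))) / 2 with hε
  have hε0 : 0 < ε := by rw [hε]; positivity
  have hm1 : min (min ε1 ε2) (e / (4 * (B * D * C + 1))) ≤ ε1 :=
    (min_le_left _ _).trans (min_le_left _ _)
  have hm2 : min (min ε1 ε2) (e / (4 * (B * D * C + 1))) ≤ ε2 :=
    (min_le_left _ _).trans (min_le_right _ _)
  have hm3 : min (min ε1 ε2) (e / (4 * (B * D * C + 1))) ≤ e / (4 * (B * D * C + 1)) :=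
    min_le_right _ _
  have hεε1 : ε < ε1 := by rw [hε]; linarith
  have hεε2 : ε < ε2 := by rw [hε]; linarith
  have hεε3 : ε ≤ e / (4 * (B * D * C + 1)) := by
    have : 0 < e / (4 * (B * D * C + 1)) := by positivity
    rw [hε]; linarith
  have hq1 := hp1 ε hε0 hεε1
  have hq2 := hp2 ε hε0 hεε2
  have hst2 := step2 hL hA hC0 hC j hψ (hψs.trans hball2) hD hε0
  -- the layer
  set S : Set V := {x | x ∈ Metric.ball z r ∧ 0 ≤ F x ∧ F x ≤ 2 * ε} with hS
  have hSm : MeasurableSet S := by
    refine Metric.isOpen_ball.measurableSet.inter ?_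
    exact (isClosed_le continuous_const hFc).measurableSet.inter
      (isClosed_le hFc continuous_const).measurableSet
  have hSfin : volume S < ⊤ := (hC ε hε0).trans_lt ENNReal.ofReal_lt_top
  have hSvol : volume.real S ≤ C * ε := by
    have : volume.real S = (volume S).toReal := rfl
    rw [this]
    exact ENNReal.toReal_le_of_le_ofReal (by positivity) (hC ε hε0)
  -- the weights
  have hWi : ∀ σ : ℝ, Integrable (Wt F σ η ε (dir j) χ) := by
    intro σ
    refine (continuous_Wt hL.smooth σ η ε (dir j) hχ.continuous).integrable_of_hasCompactSupport ?_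
    unfold Wt
    exact HasCompactSupport.mul_right (HasCompactSupport.mul_right hχ.2)
  have hWi2 : ∀ σ : ℝ, Integrable (fun x => (a j x) ^ 2 * Wt F σ η ε (dir j) χ x) := by
    intro σ
    refine integrable_mul_cc (continuous_Wt hL.smooth σ η ε (dir j) hχ.continuous) ?_
      ((hA.meas j).pow_const 2) (B := B ^ 2) (fun x => by
      rw [abs_pow]
      exact pow_le_pow_left₀ (abs_nonneg _) (hA.bdd j x) 2)
    unfold Wt
    exact HasCompactSupport.mul_right (HasCompactSupport.mul_right hχ.2)
  have hW0 : ∀ σ x, 0 ≤ Wt F σ η ε (dir j) χ x := fun σ x => Wt_nonneg hη0 hε0 hχ0 x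
  have hWint : ∀ σ : ℝ, (σ = 1 ∨ σ = -1) → ∫ x, Wt F σ η ε (dir j) χ x ≤ CW := by
    intro σ hσ
    have hσ1 : |σ| = 1 := by rcases hσ with rfl | rfl <;> simp
    have h1 : ∀ x, Wt F σ η ε (dir j) χ x ≤ S.indicator (fun _ => Cst / ε * K) x := by
      intro x
      by_cases hx : x ∈ S
      · rw [indicator_of_mem hx]
        unfold Wt
        by_cases h0 : th F σ η (dir j) x = 0
        · rw [h0]
          simp only [mul_zero, zero_mul]
          positivity
        · have h2 := th_ne_zero hη0 h0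
          have h3 := abs_fderiv_dir_le hL j hx.1
          have h4 : σ * fderiv ℝ F x (dir j) ≤ K := by
            calc σ * fderiv ℝ F x (dir j) ≤ |σ * fderiv ℝ F x (dir j)| := le_abs_self _
              _ = |fderiv ℝ F x (dir j)| := by rw [abs_mul, hσ1, one_mul]
              _ ≤ K := h3
          have h5 : 0 ≤ σ * fderiv ℝ F x (dir j) := by linarith
          have h6 := hχ1 x
          have h7 := hχ0 x
          have h8 := th_le_one F σ η (dir j) x
          have h9 := th_nonneg F σ η (dir j) x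
          have h10 := hCst (F x / ε - 1)
          have h11 := st'_nonneg (F x / ε - 1)
          calc χ x * th F σ η (dir j) x *
                (st' (F x / ε - 1) / ε * (σ * fderiv ℝ F x (dir j)))
              ≤ 1 * 1 * (Cst / ε * K) := by gcongr
            _ = Cst / ε * K := by ring
      · rw [indicator_of_notMem hx]
        unfold Wt
        by_cases hχx : χ x = 0
        · rw [hχx]; simp
        · by_cases hstx : st' (F x / ε - 1) = 0
          · rw [hstx]; simp
          · exfalso
            apply hx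
            have h2 := st'_ne_zero hε0 hstx
            exact ⟨hball2 (hχs (subset_tsupport _ hχx)), hε0.le.trans h2.1, h2.2⟩
    have h2 : Integrable (S.indicator (fun _ : V => Cst / ε * K)) :=
      IntegrableOn.integrable_indicator (integrableOn_const hSfin.ne) hSm
    calc ∫ x, Wt F σ η ε (dir j) χ x ≤ ∫ x, S.indicator (fun _ => Cst / ε * K) x :=
          integral_mono (hWi σ) h2 h1
      _ = volume.real S * (Cst / ε * K) := by
          rw [integral_indicator hSm, setIntegral_const, smul_eq_mul]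
      _ ≤ (C * ε) * (Cst / ε * K) := by gcongr
      _ = CW := by rw [hCW]; field_simp
  -- the pointwise bound
  have hpt : ∀ x, |a j x * (ψ x * (st' (F x / ε - 1) / ε * fderiv ℝ F x (dir j)))| ≤
      Kψ * ((1 / s) * ((a j x) ^ 2 * Wt F 1 η ε (dir j) χ x) +
        (1 / s) * ((a j x) ^ 2 * Wt F (-1) η ε (dir j) χ x) +
        s * Wt F 1 η ε (dir j) χ x + s * Wt F (-1) η ε (dir j) χ x) +
        S.indicator (fun _ => Kψ * B * (Cst / ε) * η) x := by
    intro x
    have n1 := hW0 1 x
    have n2 := hW0 (-1) x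
    have n3 : 0 ≤ S.indicator (fun _ => Kψ * B * (Cst / ε) * η) x :=
      indicator_nonneg (fun _ _ => by positivity) _
    have hRHS0 : 0 ≤ Kψ * ((1 / s) * ((a j x) ^ 2 * Wt F 1 η ε (dir j) χ x) +
        (1 / s) * ((a j x) ^ 2 * Wt F (-1) η ε (dir j) χ x) +
        s * Wt F 1 η ε (dir j) χ x + s * Wt F (-1) η ε (dir j) χ x) := by positivity
    by_cases hx : x ∈ tsupport ψ
    · by_cases hstx : st' (F x / ε - 1) = 0
      · rw [hstx]
        simp only [zero_div, zero_mul, mul_zero, abs_zero]
        linarith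
      · have hF := st'_ne_zero hε0 hstx
        have hxb := hball2 (hψs hx)
        have hxS : x ∈ S := ⟨hxb, hε0.le.trans hF.1, hF.2⟩
        have hχx := hχK x hx
        have hψx := hKψ x
        have ha := hA.bdd j x
        have hst0 := st'_nonneg (F x / ε - 1)
        have hstC := hCst (F x / ε - 1)
        have habs : |a j x * (ψ x * (st' (F x / ε - 1) / ε * fderiv ℝ F x (dir j)))| =
            |a j x| * (|ψ x| * (st' (F x / ε - 1) / ε * |fderiv ℝ F x (dir j)|)) := by
          rw [abs_mul, abs_mul, abs_mul, abs_of_nonneg (show 0 ≤ st' (F x / ε - 1) / ε by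
            positivity)]
        rw [habs]
        have hamgm : |a j x| ≤ (1 / s) * (a j x) ^ 2 + s := by
          have h1 : 0 ≤ (|a j x| - s) ^ 2 := sq_nonneg _
          have h2 : |a j x| * s ≤ (a j x) ^ 2 + s * s := by
            have h3 : |a j x| ^ 2 = (a j x) ^ 2 := sq_abs _
            have h4 := abs_nonneg (a j x)
            nlinarith
          have h5 : (1 / s) * (a j x) ^ 2 + s = ((a j x) ^ 2 + s * s) / s := by
            field_simp
          rw [h5, le_div_iff₀ hs0]
          exact h2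
        by_cases hP : η ≤ |fderiv ℝ F x (dir j)|
        · -- transversal
          have hcase : ∀ σ : ℝ, σ * fderiv ℝ F x (dir j) = |fderiv ℝ F x (dir j)| →
              |a j x| * (|ψ x| * (st' (F x / ε - 1) / ε * |fderiv ℝ F x (dir j)|)) ≤
              Kψ * ((1 / s) * ((a j x) ^ 2 * Wt F σ η ε (dir j) χ x) +
                s * Wt F σ η ε (dir j) χ x) := by
            intro σ hσ
            have hW : Wt F σ η ε (dir j) χ x =
                st' (F x / ε - 1) / ε * |fderiv ℝ F x (dir j)| := by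
              unfold Wt
              rw [hχx, th_eq_one hη0 (by rw [hσ]; exact hP), hσ]
              ring
            rw [hW]
            have h6 : 0 ≤ st' (F x / ε - 1) / ε * |fderiv ℝ F x (dir j)| := by positivity
            calc |a j x| * (|ψ x| * (st' (F x / ε - 1) / ε * |fderiv ℝ F x (dir j)|))
                ≤ ((1 / s) * (a j x) ^ 2 + s) *
                  (Kψ * (st' (F x / ε - 1) / ε * |fderiv ℝ F x (dir j)|)) := by gcongr
              _ = _ := by ring
          rcases le_total 0 (fderiv ℝ F x (dir j)) with h0 | h0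
          · have h1 := hcase 1 (by rw [one_mul, abs_of_nonneg h0])
            have h2 : 0 ≤ Kψ * ((1 / s) * ((a j x) ^ 2 * Wt F (-1) η ε (dir j) χ x) +
                s * Wt F (-1) η ε (dir j) χ x) := by positivity
            linarith
          · have h1 := hcase (-1) (by rw [neg_one_mul, abs_of_nonpos h0])
            have h2 : 0 ≤ Kψ * ((1 / s) * ((a j x) ^ 2 * Wt F 1 η ε (dir j) χ x) +
                s * Wt F 1 η ε (dir j) χ x) := by positivity
            linarith
        · push Not at hP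
          rw [indicator_of_mem hxS]
          have h1 : |a j x| * (|ψ x| * (st' (F x / ε - 1) / ε * |fderiv ℝ F x (dir j)|)) ≤
              B * (Kψ * (Cst / ε * η)) := by gcongr
          have h2 : B * (Kψ * (Cst / ε * η)) = Kψ * B * (Cst / ε) * η := by ring
          linarith
    · rw [image_eq_zero_of_notMem_tsupport hx]
      simp only [zero_mul, mul_zero, abs_zero]
      linarith
  have hindi : Integrable (S.indicator (fun _ : V => Kψ * B * (Cst / ε) * η)) :=
    IntegrableOn.integrable_indicator (integrableOn_const hSfin.ne) hSm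
  have i1 := (hWi2 1).const_mul (1 / s)
  have i2 := (hWi2 (-1)).const_mul (1 / s)
  have i3 := (hWi 1).const_mul s
  have i4 := (hWi (-1)).const_mul s
  have i12 : Integrable fun x => (1 / s) * ((a j x) ^ 2 * Wt F 1 η ε (dir j) χ x) +
        (1 / s) * ((a j x) ^ 2 * Wt F (-1) η ε (dir j) χ x) := i1.add i2
  have i123 : Integrable fun x => (1 / s) * ((a j x) ^ 2 * Wt F 1 η ε (dir j) χ x) +
        (1 / s) * ((a j x) ^ 2 * Wt F (-1) η ε (dir j) χ x) +
        s * Wt F 1 η ε (dir j) χ x := i12.add i3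
  have i1234 : Integrable fun x => (1 / s) * ((a j x) ^ 2 * Wt F 1 η ε (dir j) χ x) +
        (1 / s) * ((a j x) ^ 2 * Wt F (-1) η ε (dir j) χ x) +
        s * Wt F 1 η ε (dir j) χ x + s * Wt F (-1) η ε (dir j) χ x := i123.add i4
  have itot : Integrable fun x => Kψ * ((1 / s) * ((a j x) ^ 2 * Wt F 1 η ε (dir j) χ x) +
        (1 / s) * ((a j x) ^ 2 * Wt F (-1) η ε (dir j) χ x) +
        s * Wt F 1 η ε (dir j) χ x + s * Wt F (-1) η ε (dir j) χ x) +
        S.indicator (fun _ => Kψ * B * (Cst / ε) * η) x := (i1234.const_mul Kψ).add hindi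
  have hmf : |mf a F ε j ψ| ≤ Kψ * ((1 / s) * ρ + (1 / s) * ρ + s * CW + s * CW) +
      Kψ * B * Cst * C * η := by
    unfold mf
    rw [← Real.norm_eq_abs]
    refine (norm_integral_le_of_norm_le itot
      (Eventually.of_forall fun x => by rw [Real.norm_eq_abs]; exact hpt x)).trans ?_
    rw [integral_add (i1234.const_mul Kψ) hindi, integral_const_mul, integral_add i123 i4,
      integral_add i12 i3, integral_add i1 i2, integral_const_mul, integral_const_mul,
      integral_const_mul, integral_const_mul]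
    refine add_le_add ?_ ?_
    · have w1 := hWint 1 (Or.inl rfl)
      have w2 := hWint (-1) (Or.inr rfl)
      gcongr
    · rw [integral_indicator hSm, setIntegral_const, smul_eq_mul]
      calc volume.real S * (Kψ * B * (Cst / ε) * η) ≤ (C * ε) * (Kψ * B * (Cst / ε) * η) := by
            gcongr
        _ = Kψ * B * Cst * C * η := by field_simp
  -- final estimate
  have hfin : |∫ x, a j x * fderiv ℝ ψ x (dir j)| ≤ B * D * (C * ε) + |mf a F ε j ψ| := by
    have h1 : ∫ x, a j x * fderiv ℝ ψ x (dir j) =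
        ((∫ x, a j x * fderiv ℝ ψ x (dir j)) + mf a F ε j ψ) - mf a F ε j ψ := by ring
    rw [h1]
    exact (abs_sub _ _).trans (add_le_add hst2 le_rfl)
  refine hfin.trans ?_
  have e1 : B * D * (C * ε) ≤ e / 4 := by
    have h1 : (B * D * C + 1) * ε ≤ e / 4 := by
      rw [le_div_iff₀ (by positivity)] at hεε3
      linarith
    have h2 : B * D * (C * ε) ≤ (B * D * C + 1) * ε := by nlinarith
    linarith
  have e2 : Kψ * ((1 / s) * ρ + (1 / s) * ρ) ≤ e / 4 := by
    have h1 : Kψ * ((1 / s) * ρ + (1 / s) * ρ) = (e / 4) * (Kψ / (Kψ + 1)) := by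
      rw [hρ]; field_simp; ring
    rw [h1]
    have h2 : Kψ / (Kψ + 1) ≤ 1 := by
      rw [div_le_one (by positivity)]; linarith
    calc (e / 4) * (Kψ / (Kψ + 1)) ≤ (e / 4) * 1 := by gcongr
      _ = e / 4 := mul_one _
  have e3 : Kψ * (s * CW + s * CW) ≤ e / 4 := by
    have h1 : Kψ * (s * CW + s * CW) = (2 * Kψ * CW) * s := by ring
    rw [h1, hs]
    exact frac_aux (by positivity) he
  have e4 : Kψ * B * Cst * C * η ≤ e / 4 := by
    rw [hη]
    exact frac_aux (by positivity) he
  have e5 : Kψ * ((1 / s) * ρ + (1 / s) * ρ + s * CW + s * CW) =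
      Kψ * ((1 / s) * ρ + (1 / s) * ρ) + Kψ * (s * CW + s * CW) := by ring
  rw [e5] at hmf
  linarith

end Pool.Agent.Helper96.Dim
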