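import Mathlib

/-!
# Asymptotic flows of three-dimensional dimer tilings

Definitions used in `Pool.Agent.Results.MP_835ab5_pr.UniqueMaximizer`.
-/

namespace Pool.Agent.Helper96.Dim

open MeasureTheory Filter Topology Set
open scoped ContDiff

/-- Three-dimensional space. -/
abbrev V : Type := Fin 3 → ℝ

/-- The octahedron `|s₁| + |s₂| + |s₃| ≤ 1` of the mean currents. -/
def Oct : Set V := {s | |s 0| + |s 1| + |s 2| ≤ 1}

/-- The union of the twelve edges of the octahedron: the segments which join `±e_i` and `±e_j`,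
`i ≠ j`. -/
def Edges : Set V :=
  {s | ∃ (i j : Fin 3) (σ τ : ℝ), i ≠ j ∧ (σ = 1 ∨ σ = -1) ∧ (τ = 1 ∨ τ = -1) ∧
    s ∈ segment ℝ (Pi.single i σ : V) (Pi.single j τ)}

/-- Test functions: smooth functions with compact support. -/
def Test (ψ : V → ℝ) : Prop := ContDiff ℝ ∞ ψ ∧ HasCompactSupport ψ

/-- The distributional divergence `div g`, as a functional of the test functions:
`(div g)(ψ) = - ∫ g · ∇ψ`. -/
noncomputable def divg (g : V → V) (ψ : V → ℝ) : ℝ := - ∫ x, fderiv ℝ ψ x (g x)

/-- The boundary of `R` is piecewise smooth: apart from a compact set `E` (edges and corners) of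
vanishing two-dimensional content (the volume of the `r`-neighbourhood of `E` is `o(r)`), each
boundary point has a neighbourhood in which `R` is given by `F ≥ 0` with a smooth function `F`
whose derivative at this point is not zero. -/
def PiecewiseSmoothBoundary (R : Set V) : Prop :=
  ∃ E : Set V, IsCompact E ∧
    Tendsto (fun r : ℝ => (volume (Metric.thickening r E)).toReal / r) (𝓝[>] 0) (𝓝 0) ∧
    ∀ z ∈ frontier R, z ∉ E → ∃ F : V → ℝ, ContDiff ℝ ∞ F ∧ fderiv ℝ F z ≠ 0 ∧
      ∀ᶠ x in 𝓝 z, (x ∈ R ↔ 0 ≤ F x)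

/-- Regions: compact sets which are the closure of a connected open set and have a piecewise
smooth boundary. -/
structure IsRegion (R : Set V) : Prop where
  compact : IsCompact R
  closure_open : ∃ W : Set V, IsOpen W ∧ IsConnected W ∧ closure W = R
  boundary : PiecewiseSmoothBoundary R

/-- The asymptotic flows `AF(R)`: measurable, zero off `R`, with values in the octahedron on `R`,
divergence free in the interior of `R`. -/
def AF (R : Set V) : Set (V → V) :=
  {g | Measurable g ∧ (∀ x ∈ R, g x ∈ Oct) ∧ (∀ x ∉ R, g x = 0) ∧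
    ∀ ψ, Test ψ → tsupport ψ ⊆ interior R → divg g ψ = 0}

/-- The asymptotic flows on `R` with the boundary value `b`, that is, with `div g = b` as
distributions on the whole space. -/
def AFb (R : Set V) (b : (V → ℝ) → ℝ) : Set (V → V) :=
  {g | g ∈ AF R ∧ ∀ ψ, Test ψ → divg g ψ = b ψ}

/-- The entropy of a flow. -/
noncomputable def Ent (ent : V → ℝ) (R : Set V) (g : V → V) : ℝ :=
  (volume R).toReal⁻¹ * ∫ x in R, ent (g x)

/-- `g` maximizes the entropy among the asymptotic flows on `R` with boundary value `b`. -/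
def IsMaximizer (ent : V → ℝ) (R : Set V) (b : (V → ℝ) → ℝ) (g : V → V) : Prop :=
  g ∈ AFb R b ∧ ∀ g' ∈ AFb R b, Ent ent R g' ≤ Ent ent R g

end Pool.Agent.Helper96.Dim
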