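import Pool.Agent.Helper96.Dim.Oct

/-!
# The six directions of the edges of the octahedron
-/

namespace Pool.Agent.Helper96.Dim

open MeasureTheory Filter Topology Set

/-- The six directions of the edges. -/
def dir : Fin 6 → V :=
  ![![1, -1, 0], ![1, 1, 0], ![1, 0, -1], ![1, 0, 1], ![0, 1, -1], ![0, 1, 1]]

/-- The first nonzero coordinate of a direction. -/
def piv : Fin 6 → Fin 3 := ![0, 0, 0, 0, 1, 1]

lemma dir_piv (j : Fin 6) : dir j (piv j) = 1 := by
  fin_cases j <;> simp [dir, piv]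

lemma norm_dir_le (j : Fin 6) : ‖dir j‖ ≤ 1 := by
  rw [pi_norm_le_iff_of_nonneg zero_le_one]
  intro i
  fin_cases j <;> fin_cases i <;> simp [dir]

lemma dir_ne_zero (j : Fin 6) : dir j ≠ 0 := by
  intro h
  have := congrFun h (piv j)
  rw [dir_piv] at this
  simp at this

/-- Different directions are not parallel. -/
lemma dir_parallel {j j' : Fin 6} {a b : ℝ} (ha : a ≠ 0) (h : a • dir j = b • dir j') : j = j' := by
  have h0 := congrFun h 0
  have h1 := congrFun h 1
  have h2 := congrFun h 2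
  fin_cases j <;> fin_cases j' <;> simp [dir] at h0 h1 h2 ⊢ <;>
    first
      | exact ha h0
      | exact ha h1
      | exact ha h2
      | (apply ha; linarith)

lemma l1_perm {i j k : Fin 3} (hij : i ≠ j) (hik : i ≠ k) (hjk : j ≠ k) (s : V) :
    l1 s = |s i| + |s j| + |s k| := by
  unfold l1
  fin_cases i <;> fin_cases j <;> fin_cases k <;>
    first
    | (exact absurd rfl hij)
    | (exact absurd rfl hik)
    | (exact absurd rfl hjk)
    | rfl
    | (simp only [Fin.zero_eta, Fin.mk_one, Fin.reduceFinMk]; ring)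

lemma not_edges_of_ne {i j k : Fin 3} (hij : i ≠ j) (hik : i ≠ k) (hjk : j ≠ k) {s : V}
    (h1 : s i ≠ 0) (h2 : s j ≠ 0) (h3 : s k ≠ 0) : s ∉ Edges := by
  intro h
  have h4 := (edges_coord h).2
  fin_cases i <;> fin_cases j <;> fin_cases k <;>
    first
    | (exact absurd rfl hij)
    | (exact absurd rfl hik)
    | (exact absurd rfl hjk)
    | (simp only [Fin.zero_eta, Fin.mk_one, Fin.reduceFinMk] at h1 h2 h3; tauto)

lemma abs_sub_sign {x c κ : ℝ} (hκ : 0 < κ) (hκx : κ < |x|) (hc : c * x = |x|) (hc1 : |c| = 1) :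
    |x - κ * c| = |x| - κ := by
  have hcx : x = c * |x| := by
    have : c * (c * x) = c * |x| := by rw [hc]
    have h2 : c * c = 1 := by
      have := congrArg (fun z => z ^ 2) hc1
      simp only [sq_abs, one_pow] at this
      nlinarith
    rw [← mul_assoc, h2, one_mul] at this
    exact this
  have h3 : x - κ * c = c * (|x| - κ) := by
    nth_rewrite 1 [hcx]
    ring
  rw [h3, abs_mul, hc1, one_mul, abs_of_pos (by linarith)]

/-- Push off the edge, first case. -/
lemma push_a {i j k : Fin 3} (hij : i ≠ j) (hik : i ≠ k) (hjk : j ≠ k) {m u : V}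
    (hmk : m k = 0) (hmi : m i ≠ 0) (hmj : m j ≠ 0) (hm : |m i| + |m j| = 1) (huk : u k = 0)
    (hui : |u i| = 1) (huj : |u j| = 1) (hpos : 0 < (u i * m i) * (u j * m j)) :
    ∃ κ : ℝ, 0 < κ ∧ ∃ ε : ℝ, (ε = 1 ∨ ε = -1) ∧ m - (κ * ε) • u ∈ Oct \ Edges := by
  set κ : ℝ := min |m i| |m j| / 2 with hκ
  have hpi : 0 < |m i| := abs_pos.mpr hmi
  have hpj : 0 < |m j| := abs_pos.mpr hmj
  have hκ0 : 0 < κ := by rw [hκ]; positivity
  have hκ1 : κ < |m i| := by
    have := min_le_left |m i| |m j|
    rw [hκ]; linarith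
  have hκ2 : κ < |m j| := by
    have := min_le_right |m i| |m j|
    rw [hκ]; linarith
  -- sign
  have hs : ∃ ε : ℝ, (ε = 1 ∨ ε = -1) ∧ (ε * u i) * m i = |m i| ∧ (ε * u j) * m j = |m j| := by
    rcases lt_or_gt_of_ne (show u i * m i ≠ 0 from fun h => by rw [h] at hpos; simp at hpos) with
      h | h
    · have h' : u j * m j < 0 := by
        by_contra hcon
        push Not at hcon
        nlinarith
      refine ⟨-1, Or.inr rfl, ?_, ?_⟩
      · have : |u i * m i| = |m i| := by rw [abs_mul, hui, one_mul]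
        rw [← this, abs_of_neg h]; ring
      · have : |u j * m j| = |m j| := by rw [abs_mul, huj, one_mul]
        rw [← this, abs_of_neg h']; ring
    · have h' : 0 < u j * m j := by
        by_contra hcon
        push Not at hcon
        nlinarith
      refine ⟨1, Or.inl rfl, ?_, ?_⟩
      · have : |u i * m i| = |m i| := by rw [abs_mul, hui, one_mul]
        rw [← this, abs_of_pos h]; ring
      · have : |u j * m j| = |m j| := by rw [abs_mul, huj, one_mul]
        rw [← this, abs_of_pos h']; ring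
  obtain ⟨ε, hε, h1, h2⟩ := hs
  have hε1 : |ε| = 1 := by rcases hε with rfl | rfl <;> simp
  refine ⟨κ, hκ0, ε, hε, ?_⟩
  have e1 : |(m - (κ * ε) • u) i| = |m i| - κ := by
    have : (m - (κ * ε) • u) i = m i - κ * (ε * u i) := by simp; ring
    rw [this]
    exact abs_sub_sign hκ0 hκ1 h1 (by rw [abs_mul, hε1, hui, one_mul])
  have e2 : |(m - (κ * ε) • u) j| = |m j| - κ := by
    have : (m - (κ * ε) • u) j = m j - κ * (ε * u j) := by simp; ring
    rw [this]
    exact abs_sub_sign hκ0 hκ2 h2 (by rw [abs_mul, hε1, huj, one_mul])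
  have e3 : (m - (κ * ε) • u) k = 0 := by simp [hmk, huk]
  have hl : l1 (m - (κ * ε) • u) < 1 := by
    rw [l1_perm hij hik hjk, e1, e2, e3, abs_zero]
    linarith
  exact ⟨hl.le, fun h => by rw [(edges_coord h).1] at hl; exact lt_irrefl _ hl⟩

/-- Push off the edge, second case. -/
lemma push_b {i j k : Fin 3} (hij : i ≠ j) (hik : i ≠ k) (hjk : j ≠ k) {m u : V}
    (hmk : m k = 0) (hmi : m i ≠ 0) (hmj : m j ≠ 0) (hm : |m i| + |m j| = 1) (huk : |u k| = 1)
    (hui : |u i| = 1) (huj : u j = 0) :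
    ∃ κ : ℝ, 0 < κ ∧ ∃ ε : ℝ, (ε = 1 ∨ ε = -1) ∧ m - (κ * ε) • u ∈ Oct \ Edges := by
  set κ : ℝ := |m i| / 2 with hκ
  have hpi : 0 < |m i| := abs_pos.mpr hmi
  have hκ0 : 0 < κ := by rw [hκ]; positivity
  have hκ1 : κ < |m i| := by rw [hκ]; linarith
  have hs : ∃ ε : ℝ, (ε = 1 ∨ ε = -1) ∧ (ε * u i) * m i = |m i| := by
    have hne : u i * m i ≠ 0 := by
      refine mul_ne_zero ?_ hmi
      intro h; rw [h] at hui; simp at hui
    rcases lt_or_gt_of_ne hne with h | h
    · refine ⟨-1, Or.inr rfl, ?_⟩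
      have : |u i * m i| = |m i| := by rw [abs_mul, hui, one_mul]
      rw [← this, abs_of_neg h]; ring
    · refine ⟨1, Or.inl rfl, ?_⟩
      have : |u i * m i| = |m i| := by rw [abs_mul, hui, one_mul]
      rw [← this, abs_of_pos h]; ring
  obtain ⟨ε, hε, h1⟩ := hs
  have hε1 : |ε| = 1 := by rcases hε with rfl | rfl <;> simp
  refine ⟨κ, hκ0, ε, hε, ?_⟩
  have e1 : |(m - (κ * ε) • u) i| = |m i| - κ := by
    have : (m - (κ * ε) • u) i = m i - κ * (ε * u i) := by simp; ring
    rw [this]
    exact abs_sub_sign hκ0 hκ1 h1 (by rw [abs_mul, hε1, hui, one_mul])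
  have e2 : (m - (κ * ε) • u) j = m j := by simp [huj]
  have e3 : |(m - (κ * ε) • u) k| = κ := by
    have : (m - (κ * ε) • u) k = -(κ * ε * u k) := by simp [hmk]
    rw [this, abs_neg, abs_mul, abs_mul, hε1, huk, abs_of_pos hκ0, mul_one, mul_one]
  have hl : l1 (m - (κ * ε) • u) = 1 := by
    rw [l1_perm hij hik hjk, e1, e2, e3]
    linarith
  refine ⟨hl.le, not_edges_of_ne hij hik hjk ?_ ?_ ?_⟩
  · intro h; rw [h, abs_zero] at e1; linarith
  · rw [e2]; exact hmj
  · intro h; rw [h, abs_zero] at e3; linarith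

lemma mid_ne_zero {s t : V} {i j k : Fin 3} (hij : i ≠ j) (hik : i ≠ k) (hjk : j ≠ k)
    (h : CommonEdge s t) (hst : s ≠ t) (hsk : s k = 0) (htk : t k = 0) :
    s i + t i ≠ 0 := by
  intro h0
  obtain ⟨h1, h2, h3, -⟩ := h
  have hi := h3 i
  have hj := h3 j
  have hti : t i = - s i := by linarith
  rw [hti] at hi
  have hsi : s i = 0 := by nlinarith [sq_nonneg (s i)]
  have hti0 : t i = 0 := by rw [hti, hsi, neg_zero]
  rw [l1_perm hij hik hjk, hsi, hsk, abs_zero] at h1
  rw [l1_perm hij hik hjk, hti0, htk, abs_zero] at h2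
  have h4 : |s j| = 1 := by linarith
  have h5 : |t j| = 1 := by linarith
  apply hst
  have h6 : s j = t j := by
    rcases abs_eq (zero_le_one) |>.mp h4 with h | h <;>
      rcases abs_eq (zero_le_one) |>.mp h5 with h' | h' <;> rw [h, h'] at hj ⊢ <;> norm_num at hj
  ext l
  fin_cases i <;> fin_cases j <;> fin_cases k <;>
    first
    | (exact absurd rfl hij)
    | (exact absurd rfl hik)
    | (exact absurd rfl hjk)
    | (simp only [Fin.zero_eta, Fin.mk_one, Fin.reduceFinMk] at hsi hti0 h6 hsk htk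
       fin_cases l <;> simp only [Fin.zero_eta, Fin.mk_one, Fin.reduceFinMk] <;> linarith)

/-- The coordinates of the difference of two points of an edge. -/
lemma commonEdge_diff {s t : V} {i j k : Fin 3} (hij : i ≠ j) (hik : i ≠ k) (hjk : j ≠ k)
    (h : CommonEdge s t) (hst : s ≠ t) (hsk : s k = 0) (htk : t k = 0) :
    ∃ σ τ : ℝ, |σ| = 1 ∧ |τ| = 1 ∧ 0 < σ * (s i + t i) ∧ 0 < τ * (s j + t j) ∧
      σ * (s i - t i) + τ * (s j - t j) = 0 := by
  have hi := mid_ne_zero hij hik hjk h hst hsk htk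
  have hj := mid_ne_zero hij.symm hjk hik h hst hsk htk
  obtain ⟨h1, h2, h3, -⟩ := h
  have key : ∀ x y : ℝ, 0 ≤ x * y → x + y ≠ 0 → ∃ σ : ℝ, |σ| = 1 ∧ 0 < σ * (x + y) ∧
      |x| = σ * x ∧ |y| = σ * y := by
    intro x y hxy hne
    rcases lt_or_gt_of_ne hne with h | h
    · have hx : x ≤ 0 := by
        by_contra hcon; push Not at hcon
        have : y < 0 := by linarith
        nlinarith
      have hy : y ≤ 0 := by
        by_contra hcon; push Not at hcon
        have : x < 0 := by linarith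
        nlinarith
      exact ⟨-1, by simp, by linarith, by rw [abs_of_nonpos hx]; ring,
        by rw [abs_of_nonpos hy]; ring⟩
    · have hx : 0 ≤ x := by
        by_contra hcon; push Not at hcon
        have : 0 < y := by linarith
        nlinarith
      have hy : 0 ≤ y := by
        by_contra hcon; push Not at hcon
        have : 0 < x := by linarith
        nlinarith
      exact ⟨1, by simp, by linarith, by rw [abs_of_nonneg hx]; ring,
        by rw [abs_of_nonneg hy]; ring⟩
  obtain ⟨σ, hσ, hσ0, hσ1, hσ2⟩ := key _ _ (h3 i) hi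
  obtain ⟨τ, hτ, hτ0, hτ1, hτ2⟩ := key _ _ (h3 j) hj
  refine ⟨σ, τ, hσ, hτ, hσ0, hτ0, ?_⟩
  rw [l1_perm hij hik hjk, hsk, abs_zero, hσ1, hτ1] at h1
  rw [l1_perm hij hik hjk, htk, abs_zero, hσ2, hτ2] at h2
  linarith

lemma pm_one {σ : ℝ} (h : |σ| = 1) : σ = 1 ∨ σ = -1 := by
  rcases abs_eq (zero_le_one) |>.mp h with h | h
  · exact Or.inl h
  · exact Or.inr h

lemma commonEdge_dir {s t : V} (h : CommonEdge s t) (hst : s ≠ t) :
    ∃ j : Fin 6, ∃ a : ℝ, s - t = a • dir j := by
  obtain ⟨k, hsk, htk⟩ := h.2.2.2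
  fin_cases k
  · simp only [Fin.zero_eta] at hsk htk
    obtain ⟨σ, τ, hσ, hτ, -, -, he⟩ := commonEdge_diff (i := 1) (j := 2) (k := 0)
      (by decide) (by decide) (by decide) h hst hsk htk
    rcases pm_one hσ with rfl | rfl <;> rcases pm_one hτ with rfl | rfl
    · refine ⟨4, s 1 - t 1, ?_⟩
      ext l
      fin_cases l <;> simp [dir, hsk, htk] <;> linarith
    · refine ⟨5, s 1 - t 1, ?_⟩
      ext l
      fin_cases l <;> simp [dir, hsk, htk] <;> linarith
    · refine ⟨5, s 1 - t 1, ?_⟩
      ext l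
      fin_cases l <;> simp [dir, hsk, htk] <;> linarith
    · refine ⟨4, s 1 - t 1, ?_⟩
      ext l
      fin_cases l <;> simp [dir, hsk, htk] <;> linarith
  · simp only [Fin.mk_one] at hsk htk
    obtain ⟨σ, τ, hσ, hτ, -, -, he⟩ := commonEdge_diff (i := 0) (j := 2) (k := 1)
      (by decide) (by decide) (by decide) h hst hsk htk
    rcases pm_one hσ with rfl | rfl <;> rcases pm_one hτ with rfl | rfl
    · refine ⟨2, s 0 - t 0, ?_⟩
      ext l
      fin_cases l <;> simp [dir, hsk, htk] <;> linarith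
    · refine ⟨3, s 0 - t 0, ?_⟩
      ext l
      fin_cases l <;> simp [dir, hsk, htk] <;> linarith
    · refine ⟨3, s 0 - t 0, ?_⟩
      ext l
      fin_cases l <;> simp [dir, hsk, htk] <;> linarith
    · refine ⟨2, s 0 - t 0, ?_⟩
      ext l
      fin_cases l <;> simp [dir, hsk, htk] <;> linarith
  · simp only [Fin.reduceFinMk] at hsk htk
    obtain ⟨σ, τ, hσ, hτ, -, -, he⟩ := commonEdge_diff (i := 0) (j := 1) (k := 2)
      (by decide) (by decide) (by decide) h hst hsk htk
    rcases pm_one hσ with rfl | rfl <;> rcases pm_one hτ with rfl | rfl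
    · refine ⟨0, s 0 - t 0, ?_⟩
      ext l
      fin_cases l <;> simp [dir, hsk, htk] <;> linarith
    · refine ⟨1, s 0 - t 0, ?_⟩
      ext l
      fin_cases l <;> simp [dir, hsk, htk] <;> linarith
    · refine ⟨1, s 0 - t 0, ?_⟩
      ext l
      fin_cases l <;> simp [dir, hsk, htk] <;> linarith
    · refine ⟨0, s 0 - t 0, ?_⟩
      ext l
      fin_cases l <;> simp [dir, hsk, htk] <;> linarith

lemma pos_of_not_neg {σ τ x y p q : ℝ} (hσ : |σ| = 1) (hτ : |τ| = 1) (hx : 0 < σ * x)
    (hy : 0 < τ * y) (hp : |p| = 1) (hq : |q| = 1) (h : σ * p + τ * q ≠ 0) :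
    0 < (p * (2⁻¹ * x)) * (q * (2⁻¹ * y)) := by
  have h1 : σ * τ * (p * q) = 1 := by
    rcases pm_one hσ with rfl | rfl <;> rcases pm_one hτ with rfl | rfl <;>
      rcases pm_one hp with rfl | rfl <;> rcases pm_one hq with rfl | rfl <;>
      first
      | (exfalso; apply h; norm_num; done)
      | (norm_num; done)
  have h2 : 0 < (σ * x) * (τ * y) := mul_pos hx hy
  have h3 : σ * σ = 1 := by rcases pm_one hσ with rfl | rfl <;> norm_num
  have h4 : τ * τ = 1 := by rcases pm_one hτ with rfl | rfl <;> norm_num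
  have h5 : p * q = σ * τ := by
    calc p * q = (σ * σ) * (τ * τ) * (p * q) := by rw [h3, h4]; ring
      _ = (σ * τ) * (σ * τ * (p * q)) := by ring
      _ = σ * τ := by rw [h1, mul_one]
  have h6 : (p * (2⁻¹ * x)) * (q * (2⁻¹ * y)) = 4⁻¹ * ((σ * x) * (τ * y)) := by
    calc (p * (2⁻¹ * x)) * (q * (2⁻¹ * y)) = 4⁻¹ * ((p * q) * (x * y)) := by ring
      _ = 4⁻¹ * ((σ * x) * (τ * y)) := by rw [h5]; ring
  rw [h6]
  positivity

/-- Push off the edge in all directions which are not parallel to the difference. -/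
lemma push {s t : V} (h : CommonEdge s t) (hst : s ≠ t) (j : Fin 6)
    (hj : ¬ ∃ a : ℝ, s - t = a • dir j) :
    ∃ κ : ℝ, 0 < κ ∧ ∃ ε : ℝ, (ε = 1 ∨ ε = -1) ∧
      ((1 / 2 : ℝ) • s + (1 / 2 : ℝ) • t) - (κ * ε) • dir j ∈ Oct \ Edges := by
  obtain ⟨k, hsk, htk⟩ := h.2.2.2
  -- general form
  have gen : ∀ (i l k : Fin 3), i ≠ l → i ≠ k → l ≠ k → s k = 0 → t k = 0 →
      ((|dir j k| = 1 ∧ |dir j i| = 1 ∧ dir j l = 0) ∨ (dir j k = 0 ∧ |dir j i| = 1 ∧
        |dir j l| = 1 ∧ ¬ ∃ a : ℝ, s - t = a • dir j)) →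
      ∃ κ : ℝ, 0 < κ ∧ ∃ ε : ℝ, (ε = 1 ∨ ε = -1) ∧
      ((1 / 2 : ℝ) • s + (1 / 2 : ℝ) • t) - (κ * ε) • dir j ∈ Oct \ Edges := by
    intro i l k hil hik hlk hsk htk hcase
    have hi := mid_ne_zero hil hik hlk h hst hsk htk
    have hl := mid_ne_zero hil.symm hlk hik h hst hsk htk
    obtain ⟨σ, τ, hσ, hτ, hσ0, hτ0, he⟩ := commonEdge_diff hil hik hlk h hst hsk htk
    have hmi : ((1 / 2 : ℝ) • s + (1 / 2 : ℝ) • t) i = 2⁻¹ * (s i + t i) := by
      simp; ring
    have hml : ((1 / 2 : ℝ) • s + (1 / 2 : ℝ) • t) l = 2⁻¹ * (s l + t l) := by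
      simp; ring
    have hmk : ((1 / 2 : ℝ) • s + (1 / 2 : ℝ) • t) k = 0 := by
      simp [hsk, htk]
    have hmi0 : ((1 / 2 : ℝ) • s + (1 / 2 : ℝ) • t) i ≠ 0 := by
      rw [hmi]; exact mul_ne_zero (by norm_num) hi
    have hml0 : ((1 / 2 : ℝ) • s + (1 / 2 : ℝ) • t) l ≠ 0 := by
      rw [hml]; exact mul_ne_zero (by norm_num) hl
    have hsum : |((1 / 2 : ℝ) • s + (1 / 2 : ℝ) • t) i| +
        |((1 / 2 : ℝ) • s + (1 / 2 : ℝ) • t) l| = 1 := by
      have h1 := h.1
      have h2 := h.2.1
      rw [l1_perm hil hik hlk, hsk, abs_zero] at h1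
      rw [l1_perm hil hik hlk, htk, abs_zero] at h2
      have h3 := h.2.2.1 i
      have h4 := h.2.2.1 l
      have habs : ∀ x y : ℝ, 0 ≤ x * y → |2⁻¹ * (x + y)| = 2⁻¹ * |x| + 2⁻¹ * |y| := by
        intro x y hxy
        have h7 : |x + y| = |x| + |y| := by
          rw [abs_add_eq_add_abs_iff]
          rcases le_total 0 x with hx | hx
          · rcases le_total 0 y with hy | hy
            · exact Or.inl ⟨hx, hy⟩
            · have : x * y ≤ 0 := mul_nonpos_of_nonneg_of_nonpos hx hy
              have h0 : x * y = 0 := le_antisymm this hxy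
              rcases mul_eq_zero.mp h0 with h0 | h0
              · right; exact ⟨h0.le, hy⟩
              · left; exact ⟨hx, h0.ge⟩
          · rcases le_total 0 y with hy | hy
            · have : x * y ≤ 0 := mul_nonpos_of_nonpos_of_nonneg hx hy
              have h0 : x * y = 0 := le_antisymm this hxy
              rcases mul_eq_zero.mp h0 with h0 | h0
              · left; exact ⟨h0.ge, hy⟩
              · right; exact ⟨hx, h0.le⟩
            · exact Or.inr ⟨hx, hy⟩
        rw [abs_mul, h7, abs_of_pos (by norm_num : (0 : ℝ) < 2⁻¹)]; ring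
      rw [hmi, hml, habs _ _ h3, habs _ _ h4]
      linarith
    rcases hcase with ⟨c1, c2, c3⟩ | ⟨c1, c2, c3, c4⟩
    · exact push_b hil hik hlk hmk hmi0 hml0 hsum c1 c2 c3
    · refine push_a hil hik hlk hmk hmi0 hml0 hsum c1 c2 c3 ?_
      rw [hmi, hml]
      refine pos_of_not_neg hσ hτ hσ0 hτ0 c2 c3 ?_
      intro h0
      apply c4
      refine ⟨(s i - t i) * dir j i, ?_⟩
      have hii : dir j i * dir j i = 1 := by
        rcases pm_one c2 with h | h <;> rw [h] <;> norm_num
      have hll : dir j l * dir j l = 1 := by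
        rcases pm_one c3 with h | h <;> rw [h] <;> norm_num
      have hσσ : σ * σ = 1 := by rcases pm_one hσ with rfl | rfl <;> norm_num
      have hττ : τ * τ = 1 := by rcases pm_one hτ with rfl | rfl <;> norm_num
      have hcomp : ∀ n : Fin 3, n = i ∨ n = l ∨ n = k := by
        intro n
        fin_cases i <;> fin_cases l <;> fin_cases k <;>
          first
          | (exact absurd rfl hil)
          | (exact absurd rfl hik)
          | (exact absurd rfl hlk)
          | (fin_cases n <;> simp)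
      have e1 : (s - t) i = ((s i - t i) * dir j i) * dir j i := by
        rw [mul_assoc, hii, mul_one]; rfl
      have e2 : (s - t) l = ((s i - t i) * dir j i) * dir j l := by
        have h1 : s l - t l = - (σ * τ) * (s i - t i) := by
          calc s l - t l = (τ * τ) * (s l - t l) := by rw [hττ, one_mul]
            _ = τ * (τ * (s l - t l)) := by ring
            _ = τ * (- (σ * (s i - t i))) := by congr 1; linarith
            _ = _ := by ring
        have h2 : dir j l = - (σ * τ) * dir j i := by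
          calc dir j l = (τ * τ) * dir j l := by rw [hττ, one_mul]
            _ = τ * (τ * dir j l) := by ring
            _ = τ * (- (σ * dir j i)) := by congr 1; linarith
            _ = _ := by ring
        have h3 : (s - t) l = s l - t l := rfl
        rw [h3, h1, h2]
        calc -(σ * τ) * (s i - t i) = -(σ * τ) * (s i - t i) * 1 := by ring
          _ = -(σ * τ) * (s i - t i) * (dir j i * dir j i) := by rw [hii]
          _ = _ := by ring
      have e3 : (s - t) k = ((s i - t i) * dir j i) * dir j k := by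
        rw [c1, mul_zero]; simp [hsk, htk]
      ext n
      rw [Pi.smul_apply, smul_eq_mul]
      rcases hcomp n with rfl | rfl | rfl
      · exact e1
      · exact e2
      · exact e3
  fin_cases k
  · simp only [Fin.zero_eta] at hsk htk
    fin_cases j
    · exact gen 1 2 0 (by decide) (by decide) (by decide) hsk htk (Or.inl (by simp [dir]))
    · exact gen 1 2 0 (by decide) (by decide) (by decide) hsk htk (Or.inl (by simp [dir]))
    · exact gen 2 1 0 (by decide) (by decide) (by decide) hsk htk (Or.inl (by simp [dir]))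
    · exact gen 2 1 0 (by decide) (by decide) (by decide) hsk htk (Or.inl (by simp [dir]))
    · exact gen 1 2 0 (by decide) (by decide) (by decide) hsk htk
        (Or.inr ⟨by simp [dir], by simp [dir], by simp [dir], hj⟩)
    · exact gen 1 2 0 (by decide) (by decide) (by decide) hsk htk
        (Or.inr ⟨by simp [dir], by simp [dir], by simp [dir], hj⟩)
  · simp only [Fin.mk_one] at hsk htk
    fin_cases j
    · exact gen 0 2 1 (by decide) (by decide) (by decide) hsk htk (Or.inl (by simp [dir]))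
    · exact gen 0 2 1 (by decide) (by decide) (by decide) hsk htk (Or.inl (by simp [dir]))
    · exact gen 0 2 1 (by decide) (by decide) (by decide) hsk htk
        (Or.inr ⟨by simp [dir], by simp [dir], by simp [dir], hj⟩)
    · exact gen 0 2 1 (by decide) (by decide) (by decide) hsk htk
        (Or.inr ⟨by simp [dir], by simp [dir], by simp [dir], hj⟩)
    · exact gen 2 0 1 (by decide) (by decide) (by decide) hsk htk (Or.inl (by simp [dir]))
    · exact gen 2 0 1 (by decide) (by decide) (by decide) hsk htk (Or.inl (by simp [dir]))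
  · simp only [Fin.reduceFinMk] at hsk htk
    fin_cases j
    · exact gen 0 1 2 (by decide) (by decide) (by decide) hsk htk
        (Or.inr ⟨by simp [dir], by simp [dir], by simp [dir], hj⟩)
    · exact gen 0 1 2 (by decide) (by decide) (by decide) hsk htk
        (Or.inr ⟨by simp [dir], by simp [dir], by simp [dir], hj⟩)
    · exact gen 0 1 2 (by decide) (by decide) (by decide) hsk htk (Or.inl (by simp [dir]))
    · exact gen 0 1 2 (by decide) (by decide) (by decide) hsk htk (Or.inl (by simp [dir]))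
    · exact gen 1 0 2 (by decide) (by decide) (by decide) hsk htk (Or.inl (by simp [dir]))
    · exact gen 1 0 2 (by decide) (by decide) (by decide) hsk htk (Or.inl (by simp [dir]))

lemma CommonEdge.mem_left {s t : V} (h : CommonEdge s t) : s ∈ Edges := by
  obtain ⟨h1, h2, h3, k, hk, hk'⟩ := h
  apply mem_edges_of_coord h1
  fin_cases k
  · exact Or.inl hk
  · exact Or.inr (Or.inl hk)
  · exact Or.inr (Or.inr hk)

lemma CommonEdge.mem_right {s t : V} (h : CommonEdge s t) : t ∈ Edges := by
  obtain ⟨h1, h2, h3, k, hk, hk'⟩ := h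
  apply mem_edges_of_coord h2
  fin_cases k
  · exact Or.inl hk'
  · exact Or.inr (Or.inl hk')
  · exact Or.inr (Or.inr hk')

end Pool.Agent.Helper96.Dim
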