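import Mathlib

/-!
# A minimax lemma in Hilbert space
-/

namespace Pool.Agent.Helper96.Dim

open Filter Topology Set
open scoped InnerProductSpace

section

variable {E : Type*} [NormedAddCommGroup E] [InnerProductSpace ℝ E]

lemma norm_add_smul_sq (a b : E) (θ : ℝ) :
    ‖a + θ • b‖ ^ 2 = ‖a‖ ^ 2 + 2 * θ * ⟪a, b⟫_ℝ + θ ^ 2 * ‖b‖ ^ 2 := by
  rw [norm_add_sq_real, inner_smul_right, norm_smul, mul_pow, Real.norm_eq_abs, sq_abs]
  ring

/-- Approximate saddle points: if `J` is bounded by `m` on the points `s` of the closed convex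
bounded set `C` with `s - g ⊥ W`, then for all `ε > 0` there is `q ∈ W` with
`J s + ⟪q, s - g⟫ ≤ m + ε` on `C`. -/
theorem hilb [CompleteSpace E] {C : Set E} (hC : Convex ℝ C) (hCc : IsClosed C) {D : ℝ} (hD : ∀ s ∈ C, ‖s‖ ≤ D)
    {J : E → ℝ} (hJ : ConcaveOn ℝ C J) (hJc : ContinuousOn J C) {M : ℝ}
    (hM : ∀ s ∈ C, |J s| ≤ M) (W : Submodule ℝ E) {g : E} (hg : g ∈ C) {m : ℝ}
    (hm : ∀ s ∈ C, (∀ w ∈ W, ⟪w, s - g⟫_ℝ = 0) → J s ≤ m) {ε : ℝ} (hε : 0 < ε) :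
    ∃ q ∈ W, ∀ s ∈ C, J s + ⟪q, s - g⟫_ℝ ≤ m + ε := by
  have hD0 : 0 ≤ D := (norm_nonneg g).trans (hD g hg)
  have hM0 : 0 ≤ M := (abs_nonneg _).trans (hM g hg)
  have hdist : ∀ s ∈ C, ∀ t ∈ C, ‖s - t‖ ≤ 2 * D := by
    intro s hs t ht
    calc ‖s - t‖ ≤ ‖s‖ + ‖t‖ := norm_sub_le _ _
      _ ≤ D + D := add_le_add (hD s hs) (hD t ht)
      _ = 2 * D := by ring
  set Wc : Submodule ℝ E := W.topologicalClosure with hWc
  have : CompleteSpace Wc := Submodule.topologicalClosure.completeSpace W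
  let P : E →L[ℝ] E := Wc.starProjection
  have hPnorm : ∀ v, ‖P v‖ ≤ ‖v‖ := fun v => Wc.norm_starProjection_apply_le v
  have hPsym : ∀ v w, ⟪P v, w⟫_ℝ = ⟪v, P w⟫_ℝ := fun v w =>
    Wc.inner_starProjection_left_eq_right v w
  have hPmem : ∀ v, P v ∈ Wc := fun v => Wc.starProjection_apply_mem v
  have hPid : ∀ v ∈ Wc, P v = v := fun v hv => Wc.starProjection_eq_self_iff.mpr hv
  have hPP : ∀ v w, ⟪P v, P w⟫_ℝ = ⟪P v, w⟫_ℝ := by
    intro v w
    rw [← hPsym, hPid _ (hPmem v)]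
  -- the regularization parameter
  set ρ : ℝ := ε / (24 * (D ^ 2 + 1)) with hρ
  have hρ0 : 0 < ρ := by rw [hρ]; positivity
  have hρ1 : 6 * ρ * D ^ 2 ≤ ε / 4 := by
    have h1 : 6 * ρ * D ^ 2 = (ε / 4) * (D ^ 2 / (D ^ 2 + 1)) := by
      rw [hρ]; field_simp; ring
    rw [h1]
    have h2 : D ^ 2 / (D ^ 2 + 1) ≤ 1 := by
      rw [div_le_one (by positivity)]; linarith
    calc (ε / 4) * (D ^ 2 / (D ^ 2 + 1)) ≤ (ε / 4) * 1 := by gcongr
      _ = ε / 4 := mul_one _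
  let Φ : ℕ → E → ℝ := fun K s => J s - (K / 2 : ℝ) * ‖P (s - g)‖ ^ 2 - (ρ / 2) * ‖s - g‖ ^ 2
  have hΦle : ∀ K, ∀ s ∈ C, Φ K s ≤ M := by
    intro K s hs
    have h1 : 0 ≤ (K / 2 : ℝ) * ‖P (s - g)‖ ^ 2 := by positivity
    have h2 : 0 ≤ (ρ / 2) * ‖s - g‖ ^ 2 := by positivity
    have h3 := (abs_le.mp (hM s hs)).2
    simp only [Φ]
    linarith
  have hΦg : ∀ K, Φ K g = J g := by
    intro K
    simp [Φ]
  have hbdd : ∀ K, BddAbove (Φ K '' C) := by
    intro K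
    refine ⟨M, ?_⟩
    rintro _ ⟨s, hs, rfl⟩
    exact hΦle K s hs
  let S : ℕ → ℝ := fun K => sSup (Φ K '' C)
  have hSle : ∀ K, ∀ s ∈ C, Φ K s ≤ S K := fun K s hs => le_csSup (hbdd K) ⟨s, hs, rfl⟩
  have hSg : ∀ K, J g ≤ S K := fun K => by rw [← hΦg K]; exact hSle K g hg
  have hanti : Antitone S := by
    intro K K' hKK
    refine csSup_le ⟨_, ⟨g, hg, rfl⟩⟩ ?_
    rintro _ ⟨s, hs, rfl⟩
    refine le_trans ?_ (hSle K s hs)
    have h1 : (K : ℝ) ≤ K' := by exact_mod_cast hKK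
    have h2 : (K / 2 : ℝ) * ‖P (s - g)‖ ^ 2 ≤ (K' / 2 : ℝ) * ‖P (s - g)‖ ^ 2 := by gcongr
    simp only [Φ]
    linarith
  have hSbdd : BddBelow (range S) := ⟨J g, by rintro _ ⟨K, rfl⟩; exact hSg K⟩
  set S' : ℝ := ⨅ K, S K with hS'
  have hSlim : Tendsto S atTop (𝓝 S') := tendsto_atTop_ciInf hanti hSbdd
  have hS'le : ∀ K, S' ≤ S K := fun K => ciInf_le hSbdd K
  let δ : ℕ → ℝ := fun K => 1 / ((K : ℝ) + 1) ^ 3
  have hδ0 : ∀ K, 0 < δ K := fun K => by simp only [δ]; positivity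
  have hδanti : Antitone δ := by
    intro K K' hKK
    simp only [δ]
    have h1 : (K : ℝ) ≤ K' := by exact_mod_cast hKK
    gcongr
  have hex : ∀ K, ∃ s ∈ C, S K - δ K < Φ K s := by
    intro K
    have h1 : S K - δ K < sSup (Φ K '' C) := by
      have := hδ0 K
      simp only [S]; linarith
    have hne : (Φ K '' C).Nonempty := ⟨Φ K g, mem_image_of_mem _ hg⟩
    obtain ⟨_, ⟨s, hs, rfl⟩, h2⟩ := exists_lt_of_lt_csSup hne h1
    exact ⟨s, hs, h2⟩
  choose s hsC hsS using hex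
  -- near-maximizers form a Cauchy sequence
  have hpar : ∀ K K', K ≤ K' → (ρ / 8) * ‖s K - s K'‖ ^ 2 ≤
      (1 / 2) * (S K - S K' + δ K + δ K') := by
    intro K K' hKK
    have hmid : (1 / 2 : ℝ) • s K + (1 / 2 : ℝ) • s K' ∈ C :=
      hC (hsC K) (hsC K') (by norm_num) (by norm_num) (by norm_num)
    have h1 := hSle K _ hmid
    have h2 := hJ.2 (hsC K) (hsC K') (show (0 : ℝ) ≤ 1 / 2 by norm_num)
      (show (0 : ℝ) ≤ 1 / 2 by norm_num) (by norm_num)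
    have hsub : (1 / 2 : ℝ) • s K + (1 / 2 : ℝ) • s K' - g =
        (1 / 2 : ℝ) • ((s K - g) + (s K' - g)) := by
      have : g = (1 / 2 : ℝ) • (g + g) := by
        rw [← two_smul ℝ g, smul_smul]; norm_num
      nth_rewrite 1 [this]
      rw [← smul_add, ← smul_sub]
      congr 1
      abel
    have hquad : ∀ a b : E, ‖(1 / 2 : ℝ) • (a + b)‖ ^ 2 =
        (1 / 2) * ‖a‖ ^ 2 + (1 / 2) * ‖b‖ ^ 2 - (1 / 4) * ‖a - b‖ ^ 2 := by
      intro a b
      rw [norm_smul, mul_pow, norm_add_sq_real, norm_sub_sq_real]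
      norm_num
      ring
    have h3 := hquad (s K - g) (s K' - g)
    have h4 := hquad (P (s K - g)) (P (s K' - g))
    rw [← map_add, ← map_smul] at h4
    have h5 : (s K - g) - (s K' - g) = s K - s K' := by abel
    rw [h5] at h3
    have h6 : (K / 2 : ℝ) * ‖P (s K' - g)‖ ^ 2 ≤ (K' / 2 : ℝ) * ‖P (s K' - g)‖ ^ 2 := by
      have h1 : (K : ℝ) ≤ K' := by exact_mod_cast hKK
      gcongr
    have h7 := hsS K
    have h8 := hsS K'
    simp only [Φ] at h1 h7 h8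
    rw [hsub, h3, h4] at h1
    simp only [smul_eq_mul] at h2
    have h9 : 0 ≤ (K : ℝ) * ‖P (s K - g) - P (s K' - g)‖ ^ 2 := by positivity
    nlinarith
  have hcauchy : CauchySeq s := by
    refine cauchySeq_of_le_tendsto_0
      (fun N => Real.sqrt ((4 / ρ) * (S N - S' + 2 * δ N))) ?_ ?_
    · -- WLOG
      have key : ∀ n k N : ℕ, N ≤ n → n ≤ k →
          dist (s n) (s k) ≤ Real.sqrt ((4 / ρ) * (S N - S' + 2 * δ N)) := by
        intro n k N hn hk
        rw [dist_eq_norm]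
        apply Real.le_sqrt_of_sq_le
        have h1 := hpar n k hk
        have h2 : S n ≤ S N := hanti hn
        have h3 : S' ≤ S k := hS'le k
        have h4 : δ n ≤ δ N := hδanti hn
        have h5 : δ k ≤ δ N := hδanti (hn.trans hk)
        have h6 : ρ * ‖s n - s k‖ ^ 2 ≤ 4 * (S N - S' + 2 * δ N) := by linarith
        calc ‖s n - s k‖ ^ 2 = (ρ * ‖s n - s k‖ ^ 2) / ρ := by field_simp
          _ ≤ (4 * (S N - S' + 2 * δ N)) / ρ := by gcongr
          _ = _ := by ring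
      intro n k N hn hk
      rcases le_total n k with h | h
      · exact key n k N hn h
      · rw [dist_comm]; exact key k n N hk h
    · have h1 : Tendsto δ atTop (𝓝 0) := by
        have h2 : Tendsto (fun K : ℕ => (1 : ℝ) / ((K : ℝ) + 1)) atTop (𝓝 0) :=
          tendsto_one_div_add_atTop_nhds_zero_nat
        refine squeeze_zero (fun K => (hδ0 K).le) ?_ h2
        intro K
        simp only [δ]
        have h3 : (1 : ℝ) ≤ (K : ℝ) + 1 := by
          have : (0 : ℝ) ≤ K := Nat.cast_nonneg K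
          linarith
        have h4 : (K : ℝ) + 1 ≤ ((K : ℝ) + 1) ^ 3 := by
          calc (K : ℝ) + 1 = ((K : ℝ) + 1) ^ 1 := (pow_one _).symm
            _ ≤ ((K : ℝ) + 1) ^ 3 := pow_le_pow_right₀ h3 (by norm_num)
        gcongr
      have h2 : Tendsto (fun N => (4 / ρ) * (S N - S' + 2 * δ N)) atTop
          (𝓝 ((4 / ρ) * (S' - S' + 2 * 0))) :=
        ((hSlim.sub_const S').add (h1.const_mul 2)).const_mul _
      have h3 := (Real.continuous_sqrt.tendsto _).comp h2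
      simpa [Function.comp_def] using h3
  obtain ⟨t, ht⟩ := cauchySeq_tendsto_of_complete hcauchy
  have htC : t ∈ C := hCc.mem_of_tendsto ht (Eventually.of_forall hsC)
  -- the limit is orthogonal
  have hPle : ∀ K : ℕ, (K : ℝ) * ‖P (s K - g)‖ ^ 2 ≤ 2 * (2 * M + 1) := by
    intro K
    have h1 := hsS K
    have h2 := hSg K
    have h3 := (abs_le.mp (hM g hg)).1
    have h4 := (abs_le.mp (hM _ (hsC K))).2
    have h5 : 0 ≤ (ρ / 2) * ‖s K - g‖ ^ 2 := by positivity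
    have h6 : δ K ≤ 1 := by
      simp only [δ]
      rw [div_le_one (by positivity)]
      have : (0 : ℝ) ≤ K := Nat.cast_nonneg K
      exact one_le_pow₀ (by linarith)
    simp only [Φ] at h1
    linarith
  have hPt : ‖P (t - g)‖ ^ 2 = 0 := by
    have h1 : Tendsto (fun K => ‖P (s K - g)‖ ^ 2) atTop (𝓝 (‖P (t - g)‖ ^ 2)) := by
      have hc : Continuous fun z => ‖P (z - g)‖ ^ 2 := by fun_prop
      exact (hc.tendsto t).comp ht
    have h2 : Tendsto (fun K : ℕ => (2 * (2 * M + 1)) / (K : ℝ)) atTop (𝓝 0) :=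
      tendsto_const_div_atTop_nhds_zero_nat _
    refine le_antisymm ?_ (by positivity)
    refine le_of_tendsto_of_tendsto h1 h2 ?_
    filter_upwards [eventually_gt_atTop 0] with K hK
    have hK' : (0 : ℝ) < K := by exact_mod_cast hK
    rw [le_div_iff₀ hK', mul_comm]
    exact hPle K
  have hPt0 : P (t - g) = 0 := by
    have := pow_eq_zero_iff (two_ne_zero) |>.mp hPt
    exact norm_eq_zero.mp this
  have hJt : J t ≤ m := by
    refine hm t htC ?_
    intro w hw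
    have hw' : P w = w := hPid w (W.le_topologicalClosure hw)
    rw [← hw', hPsym, hPt0, inner_zero_right]
  have hJlim : Tendsto (fun K => J (s K)) atTop (𝓝 (J t)) := by
    have h1 : Tendsto s atTop (𝓝[C] t) :=
      tendsto_nhdsWithin_of_tendsto_nhds_of_eventually_within _ ht (Eventually.of_forall hsC)
    exact (hJc t htC).tendsto.comp h1
  -- first order condition
  have hfirst : ∀ K : ℕ, ∀ z ∈ C, J z + ⟪(-(K : ℝ)) • P (s K - g), z - g⟫_ℝ ≤
      J (s K) + (1 + 2 * D ^ 2) / ((K : ℝ) + 1) + 6 * ρ * D ^ 2 := by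
    intro K z hz
    have hK0 : (0 : ℝ) ≤ K := Nat.cast_nonneg K
    set θ : ℝ := 1 / ((K : ℝ) + 1) ^ 2 with hθ
    have hθ0 : 0 < θ := by rw [hθ]; positivity
    have hθ1 : θ ≤ 1 := by
      rw [hθ, div_le_one (by positivity)]
      exact one_le_pow₀ (by linarith)
    have hzmem : (1 - θ) • s K + θ • z ∈ C :=
      hC (hsC K) hz (by linarith) hθ0.le (by ring)
    have h1 := hSle K _ hzmem
    have h2 := hsS K
    have h3 := hJ.2 (hsC K) hz (show (0 : ℝ) ≤ 1 - θ by linarith) hθ0.le (by ring)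
    have hsub : (1 - θ) • s K + θ • z - g = (s K - g) + θ • (z - s K) := by
      rw [sub_smul, one_smul, smul_sub]; abel
    simp only [Φ] at h1 h2
    simp only [smul_eq_mul] at h3
    rw [hsub, map_add, map_smul, norm_add_smul_sq, norm_add_smul_sq, hPP] at h1
    have hn1 : ‖z - s K‖ ^ 2 ≤ 4 * D ^ 2 := by
      calc ‖z - s K‖ ^ 2 ≤ (2 * D) ^ 2 := by
            have := hdist z hz _ (hsC K)
            gcongr
        _ = 4 * D ^ 2 := by ring
    have hn2 : ‖P (z - s K)‖ ^ 2 ≤ 4 * D ^ 2 := by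
      calc ‖P (z - s K)‖ ^ 2 ≤ ‖z - s K‖ ^ 2 := by
            have := hPnorm (z - s K)
            gcongr
        _ ≤ 4 * D ^ 2 := hn1
    have hn3 : ⟪s K - g, z - s K⟫_ℝ ≤ 4 * D ^ 2 := by
      calc ⟪s K - g, z - s K⟫_ℝ ≤ ‖s K - g‖ * ‖z - s K‖ := real_inner_le_norm _ _
        _ ≤ (2 * D) * (2 * D) :=
          mul_le_mul (hdist _ (hsC K) _ hg) (hdist z hz _ (hsC K)) (norm_nonneg _) (by linarith)
        _ = 4 * D ^ 2 := by ring
    -- divide by `θ`
    have h4 : θ * (J z - J (s K) - K * ⟪P (s K - g), z - s K⟫_ℝ) ≤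
        δ K + (K / 2) * θ ^ 2 * (4 * D ^ 2) + ρ * θ * (4 * D ^ 2) +
          (ρ / 2) * θ ^ 2 * (4 * D ^ 2) := by
      have e1 : (K / 2 : ℝ) * (θ ^ 2 * ‖P (z - s K)‖ ^ 2) ≤ (K / 2) * θ ^ 2 * (4 * D ^ 2) := by
        calc (K / 2 : ℝ) * (θ ^ 2 * ‖P (z - s K)‖ ^ 2) ≤ (K / 2) * (θ ^ 2 * (4 * D ^ 2)) := by
              gcongr
          _ = _ := by ring
      have e2 : (ρ / 2) * (θ ^ 2 * ‖z - s K‖ ^ 2) ≤ (ρ / 2) * θ ^ 2 * (4 * D ^ 2) := by
        calc (ρ / 2) * (θ ^ 2 * ‖z - s K‖ ^ 2) ≤ (ρ / 2) * (θ ^ 2 * (4 * D ^ 2)) := by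
              gcongr
          _ = _ := by ring
      have e3 : ρ * θ * ⟪s K - g, z - s K⟫_ℝ ≤ ρ * θ * (4 * D ^ 2) := by gcongr
      nlinarith
    have h5 : J z - J (s K) - K * ⟪P (s K - g), z - s K⟫_ℝ ≤
        δ K / θ + (K / 2) * θ * (4 * D ^ 2) + ρ * (4 * D ^ 2) + (ρ / 2) * θ * (4 * D ^ 2) := by
      have h6 : δ K + (K / 2) * θ ^ 2 * (4 * D ^ 2) + ρ * θ * (4 * D ^ 2) +
          (ρ / 2) * θ ^ 2 * (4 * D ^ 2) = θ * (δ K / θ + (K / 2) * θ * (4 * D ^ 2) +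
            ρ * (4 * D ^ 2) + (ρ / 2) * θ * (4 * D ^ 2)) := by
        field_simp
      rw [h6] at h4
      exact le_of_mul_le_mul_left h4 hθ0
    have h7 : δ K / θ = 1 / ((K : ℝ) + 1) := by
      simp only [δ, hθ]
      have : (K : ℝ) + 1 ≠ 0 := by positivity
      field_simp
    have h8 : (K / 2) * θ * (4 * D ^ 2) ≤ 2 * D ^ 2 / ((K : ℝ) + 1) := by
      have h9 : (K : ℝ) * θ ≤ 1 / ((K : ℝ) + 1) := by
        rw [hθ]
        rw [mul_one_div, div_le_div_iff₀ (by positivity) (by positivity)]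
        nlinarith
      calc (K / 2) * θ * (4 * D ^ 2) = (K * θ) * (2 * D ^ 2) := by ring
        _ ≤ (1 / ((K : ℝ) + 1)) * (2 * D ^ 2) := by gcongr
        _ = _ := by ring
    have h10 : (ρ / 2) * θ * (4 * D ^ 2) ≤ 2 * ρ * D ^ 2 := by
      calc (ρ / 2) * θ * (4 * D ^ 2) = θ * (2 * ρ * D ^ 2) := by ring
        _ ≤ 1 * (2 * ρ * D ^ 2) := by gcongr
        _ = _ := one_mul _
    have h11 : ⟪(-(K : ℝ)) • P (s K - g), z - g⟫_ℝ =
        - (K * ⟪P (s K - g), z - s K⟫_ℝ) - K * ‖P (s K - g)‖ ^ 2 := by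
      have h12 : z - g = (z - s K) + (s K - g) := by abel
      rw [inner_smul_left, h12, inner_add_right]
      have h13 : ⟪P (s K - g), s K - g⟫_ℝ = ‖P (s K - g)‖ ^ 2 := by
        rw [← hPP, real_inner_self_eq_norm_sq]
      rw [h13]
      simp
      ring
    rw [h11]
    have h14 : 0 ≤ (K : ℝ) * ‖P (s K - g)‖ ^ 2 := by positivity
    have h15 : (1 + 2 * D ^ 2) / ((K : ℝ) + 1) = 1 / ((K : ℝ) + 1) + 2 * D ^ 2 / ((K : ℝ) + 1) := by
      ring
    rw [h15]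
    rw [h7] at h5
    linarith
  -- choose `K`
  have hlim : Tendsto (fun K : ℕ => J (s K) + (1 + 2 * D ^ 2) / ((K : ℝ) + 1)) atTop
      (𝓝 (J t + 0)) := by
    refine hJlim.add ?_
    have := (tendsto_one_div_add_atTop_nhds_zero_nat (𝕜 := ℝ)).const_mul (1 + 2 * D ^ 2)
    simpa [div_eq_mul_inv] using this
  rw [add_zero] at hlim
  have hev : ∀ᶠ K : ℕ in atTop, J (s K) + (1 + 2 * D ^ 2) / ((K : ℝ) + 1) < J t + ε / 4 :=
    hlim.eventually_lt_const (by linarith)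
  obtain ⟨K, hK⟩ := hev.exists
  set q' : E := (-(K : ℝ)) • P (s K - g) with hq'
  have hq'mem : q' ∈ Wc := Wc.smul_mem _ (hPmem _)
  have hq'cl : q' ∈ closure (W : Set E) := by
    rw [← Submodule.topologicalClosure_coe]; exact hq'mem
  obtain ⟨q, hqW, hqd⟩ := Metric.mem_closure_iff.mp hq'cl (ε / (8 * (D + 1))) (by positivity)
  refine ⟨q, hqW, ?_⟩
  intro z hz
  have h1 := hfirst K z hz
  have h2 : ⟪q, z - g⟫_ℝ = ⟪q', z - g⟫_ℝ + ⟪q - q', z - g⟫_ℝ := by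
    rw [← inner_add_left]
    congr 1
    abel
  have h3 : ⟪q - q', z - g⟫_ℝ ≤ ε / 4 := by
    calc ⟪q - q', z - g⟫_ℝ ≤ ‖q - q'‖ * ‖z - g‖ := real_inner_le_norm _ _
      _ ≤ (ε / (8 * (D + 1))) * (2 * D) := by
        refine mul_le_mul ?_ (hdist z hz g hg) (norm_nonneg _) (by positivity)
        rw [← dist_eq_norm, dist_comm]
        exact hqd.le
      _ = (ε / 4) * (D / (D + 1)) := by field_simp; ring
      _ ≤ (ε / 4) * 1 := by
        gcongr
        rw [div_le_one (by positivity)]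
        linarith
      _ = ε / 4 := mul_one _
  rw [h2]
  linarith

end

end Pool.Agent.Helper96.Dim
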