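import Pool.Agent.Helper96.Dim.Basic
import Pool.Agent.Helper96.Dim.Hilb

/-!
# Approximate dual potentials
-/

namespace Pool.Agent.Helper96.Dim

open MeasureTheory Filter Topology Set
open scoped ContDiff InnerProductSpace

/-- Near-optimal fields for the Legendre transform along the gradient of a test function. -/
lemma near_opt {ent : V → ℝ} (h : EntHyp ent) {φ : V → ℝ} (hφ : Test φ) {ε : ℝ} (hε : 0 < ε) :
    ∃ s : V → V, Measurable s ∧ (∀ x, s x ∈ Oct) ∧
      ∀ x, Hf ent (fderiv ℝ φ x) ≤ ent (s x) + fderiv ℝ φ x (s x) + ε := by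
  have huc : UniformContinuous (fun x => fderiv ℝ φ x) :=
    (hφ.2.fderiv ℝ).uniformContinuous_of_continuous hφ.continuous_fderiv
  obtain ⟨δ, hδ, hd⟩ := Metric.uniformContinuous_iff.mp huc (ε / 2) (by positivity)
  set r : ℝ := δ / 2 with hr
  have hr0 : 0 < r := by rw [hr]; positivity
  choose σ hσ hσ' using fun n : Fin 3 → ℤ => exists_Hf h (fderiv ℝ φ (fun i => r * (n i : ℝ)))
  let fl : V → (Fin 3 → ℤ) := fun x i => ⌊x i / r⌋
  have hfl : Measurable fl := by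
    rw [measurable_pi_iff]
    intro i
    have h1 : Measurable (fun x : V => x i) := measurable_pi_apply i
    exact Int.measurable_floor.comp (h1.div_const r)
  refine ⟨fun x => σ (fl x), (Measurable.of_discrete).comp hfl, fun x => hσ _, ?_⟩
  intro x
  set c : V := fun i => r * ((fl x i : ℤ) : ℝ) with hc
  have hdist : dist x c < δ := by
    rw [dist_pi_lt_iff hδ]
    intro i
    rw [Real.dist_eq, hc]
    simp only [fl]
    have h1 : x i = r * (x i / r) := by field_simp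
    have h2 := Int.self_sub_floor (x i / r)
    have h3 := Int.fract_nonneg (x i / r)
    have h4 := Int.fract_lt_one (x i / r)
    have h5 : x i - r * (⌊x i / r⌋ : ℝ) = r * Int.fract (x i / r) := by
      rw [← h2]; nth_rewrite 1 [h1]; ring
    rw [h5, abs_of_nonneg (by positivity)]
    calc r * Int.fract (x i / r) ≤ r * 1 := by gcongr
      _ < δ := by rw [hr]; linarith
  have h1 := hd hdist
  rw [dist_eq_norm] at h1
  have h2 := Hf_le h (fderiv ℝ φ x) (fderiv ℝ φ c)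
  have h3 := hσ' (fl x)
  have h4 : fderiv ℝ φ c (σ (fl x)) - fderiv ℝ φ x (σ (fl x)) ≤ ε / 2 := by
    calc fderiv ℝ φ c (σ (fl x)) - fderiv ℝ φ x (σ (fl x))
        = -((fderiv ℝ φ x - fderiv ℝ φ c) (σ (fl x))) := by
          simp
      _ ≤ ‖(fderiv ℝ φ x - fderiv ℝ φ c) (σ (fl x))‖ := neg_le_abs _
      _ ≤ ‖fderiv ℝ φ x - fderiv ℝ φ c‖ * ‖σ (fl x)‖ := ContinuousLinearMap.le_opNorm _ _
      _ ≤ ‖fderiv ℝ φ x - fderiv ℝ φ c‖ * 1 := by
        have := norm_le_one (hσ (fl x))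
        gcongr
      _ ≤ ε / 2 := by rw [mul_one]; exact h1.le
  have h5 : Hf ent (fderiv ℝ φ c) = ent (σ (fl x)) + fderiv ℝ φ c (σ (fl x)) := h3
  linarith

/-- Euclidean space. -/
abbrev EV : Type := EuclideanSpace ℝ (Fin 3)

/-- The gradient. -/
noncomputable def gradE (φ : V → ℝ) (x : V) : EV :=
  WithLp.toLp 2 (fun i => fderiv ℝ φ x (Pi.single i 1))

lemma inner_gradE (φ : V → ℝ) (x : V) (v : EV) : ⟪gradE φ x, v⟫_ℝ = fderiv ℝ φ x v.ofLp := by
  have h1 : v.ofLp = ∑ i, v.ofLp i • (Pi.single i 1 : V) := by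
    ext k
    simp [Finset.sum_apply, Pi.single_apply]
  rw [PiLp.inner_apply]
  conv_rhs => rw [h1, map_sum]
  refine Finset.sum_congr rfl fun i _ => ?_
  rw [map_smul]
  simp [gradE]

lemma continuous_gradE {φ : V → ℝ} (h : ContDiff ℝ ∞ φ) : Continuous (gradE φ) := by
  unfold gradE
  refine (PiLp.continuous_toLp 2 _).comp ?_
  refine continuous_pi fun i => ?_
  exact (contDiff_continuous_fderiv h).clm_apply continuous_const

lemma gradE_bound {φ : V → ℝ} (h : Test φ) : ∃ K : ℝ, 0 ≤ K ∧ ∀ x, ‖gradE φ x‖ ≤ K := by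
  have hc : HasCompactSupport (gradE φ) := by
    have h1 : gradE φ = (fun L : V →L[ℝ] ℝ => (WithLp.toLp 2 (fun i => L (Pi.single i 1)) : EV)) ∘
      (fun x => fderiv ℝ φ x) := rfl
    rw [h1]
    refine HasCompactSupport.comp_left (h.2.fderiv ℝ) ?_
    ext i
    simp
  obtain ⟨K, hK⟩ := (continuous_gradE h.1).bounded_above_of_compact_support hc
  exact ⟨K, (norm_nonneg _).trans (hK 0), hK⟩

section L2

variable (μ : Measure V)

/-- The gradients of test functions in `L²`. -/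
noncomputable def gradSub : Submodule ℝ (Lp EV 2 μ) where
  carrier := {q | ∃ φ, Test φ ∧ ∀ᵐ x ∂μ, q x = gradE φ x}
  add_mem' := by
    rintro q q' ⟨φ, hφ, hq⟩ ⟨φ', hφ', hq'⟩
    refine ⟨fun x => φ x + φ' x, hφ.add hφ', ?_⟩
    filter_upwards [hq, hq', Lp.coeFn_add q q'] with x h1 h2 h3
    rw [h3, Pi.add_apply, h1, h2]
    unfold gradE
    have : fderiv ℝ (fun x => φ x + φ' x) x = fderiv ℝ φ x + fderiv ℝ φ' x :=
      fderiv_fun_add (hφ.differentiable x) (hφ'.differentiable x)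
    rw [this]
    ext i
    simp
  zero_mem' := by
    refine ⟨fun _ => 0, Test.zero, ?_⟩
    filter_upwards [Lp.coeFn_zero EV 2 μ] with x h1
    rw [h1]
    unfold gradE
    ext i
    simp
  smul_mem' := by
    rintro c q ⟨φ, hφ, hq⟩
    refine ⟨fun x => c * φ x, hφ.const_mul c, ?_⟩
    filter_upwards [hq, Lp.coeFn_smul c q] with x h1 h2
    rw [h2, Pi.smul_apply, h1]
    unfold gradE
    have : fderiv ℝ (fun x => c * φ x) x = c • fderiv ℝ φ x :=
      fderiv_const_mul (hφ.differentiable x) c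
    rw [this]
    ext i
    simp

/-- The fields with values in the octahedron. -/
def octSet : Set (Lp EV 2 μ) := {s | ∀ᵐ x ∂μ, (s x).ofLp ∈ Oct}

lemma convex_octSet : Convex ℝ (octSet μ) := by
  intro s hs t ht a b ha hb hab
  have hs' : ∀ᵐ x ∂μ, (s x).ofLp ∈ Oct := hs
  have ht' : ∀ᵐ x ∂μ, (t x).ofLp ∈ Oct := ht
  change ∀ᵐ x ∂μ, ((a • s + b • t : Lp EV 2 μ) x).ofLp ∈ Oct
  filter_upwards [hs', ht', Lp.coeFn_add (a • s) (b • t), Lp.coeFn_smul a s,
    Lp.coeFn_smul b t] with x h1 h2 h3 h4 h5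
  rw [h3, Pi.add_apply, h4, h5]
  exact convex_Oct h1 h2 ha hb hab

lemma exists_ae_subseq {s : ℕ → Lp EV 2 μ} {t : Lp EV 2 μ} (h : Tendsto s atTop (𝓝 t)) :
    ∃ ns : ℕ → ℕ, StrictMono ns ∧ ∀ᵐ x ∂μ,
      Tendsto (fun i => (s (ns i) x).ofLp) atTop (𝓝 (t x).ofLp) := by
  have h1 := tendstoInMeasure_of_tendsto_Lp h
  obtain ⟨ns, hns, hae⟩ := h1.exists_seq_tendsto_ae
  refine ⟨ns, hns, ?_⟩
  filter_upwards [hae] with x hx
  exact ((PiLp.continuous_ofLp 2 _).tendsto _).comp hx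

lemma isClosed_octSet : IsClosed (octSet μ) := by
  refine IsSeqClosed.isClosed ?_
  intro s t hs hst
  obtain ⟨ns, -, hae⟩ := exists_ae_subseq μ hst
  have hs' : ∀ᵐ x ∂μ, ∀ i, (s (ns i) x).ofLp ∈ Oct := by
    rw [ae_all_iff]; intro i; exact hs (ns i)
  change ∀ᵐ x ∂μ, (t x).ofLp ∈ Oct
  filter_upwards [hae, hs'] with x h1 h2
  exact isClosed_Oct.mem_of_tendsto h1 (Eventually.of_forall h2)

lemma exists_norm_toLp : ∃ B : ℝ, 0 ≤ B ∧ ∀ v ∈ Oct, ‖(WithLp.toLp 2 v : EV)‖ ≤ B := by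
  have hc : ContinuousOn (fun v : V => ‖(WithLp.toLp 2 v : EV)‖) Oct :=
    ((PiLp.continuous_toLp 2 _).norm).continuousOn
  obtain ⟨B, hB⟩ := (isCompact_Oct.image_of_continuousOn hc).bddAbove
  exact ⟨B, (norm_nonneg _).trans (hB ⟨0, zero_mem_Oct, rfl⟩), fun s hs => hB ⟨s, hs, rfl⟩⟩

lemma exists_norm_octSet [IsFiniteMeasure μ] : ∃ D : ℝ, ∀ s ∈ octSet μ, ‖s‖ ≤ D := by
  obtain ⟨B, hB0, hB⟩ := exists_norm_toLp
  refine ⟨_, fun s hs => Lp.norm_le_of_ae_bound hB0 ?_⟩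
  have hs' : ∀ᵐ x ∂μ, (s x).ofLp ∈ Oct := hs
  filter_upwards [hs'] with x hx
  exact hB _ hx

lemma meas_ofLp (s : Lp EV 2 μ) : Measurable (fun x => (s x).ofLp) :=
  (PiLp.continuous_ofLp 2 _).measurable.comp (Lp.stronglyMeasurable s).measurable

/-- The entropy, extended by zero. -/
noncomputable def ent0 (ent : V → ℝ) : V → ℝ := Oct.indicator ent

lemma ent0_eq {ent : V → ℝ} {s : V} (hs : s ∈ Oct) : ent0 ent s = ent s := indicator_of_mem hs _

lemma measurable_ent0 {ent : V → ℝ} (h : EntHyp ent) : Measurable (ent0 ent) := by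
  classical
  have h1 := ContinuousOn.measurable_piecewise h.cont
    (g := fun _ => (0 : ℝ)) (continuousOn_const (s := Octᶜ)) isClosed_Oct.measurableSet
  have h2 : ent0 ent = Oct.piecewise ent (fun _ => 0) := by
    unfold ent0
    exact (piecewise_eq_indicator (s := Oct) (f := ent)).symm
  rw [h2]
  exact h1

lemma ent0_bound {ent : V → ℝ} (h : EntHyp ent) : ∃ B : ℝ, 0 ≤ B ∧ ∀ s, |ent0 ent s| ≤ B := by
  obtain ⟨B, hB0, hB⟩ := h.bound
  refine ⟨B, hB0, fun s => ?_⟩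
  by_cases hs : s ∈ Oct
  · rw [ent0_eq hs]; exact hB s hs
  · unfold ent0
    rw [indicator_of_notMem hs, abs_zero]; exact hB0

/-- The entropy functional on `L²`. -/
noncomputable def Jf (ent : V → ℝ) (s : Lp EV 2 μ) : ℝ := ∫ x, ent0 ent (s x).ofLp ∂μ

lemma integrable_ent0 [IsFiniteMeasure μ] {ent : V → ℝ} (h : EntHyp ent) {s : V → V} (hs : Measurable s) :
    Integrable (fun x => ent0 ent (s x)) μ := by
  obtain ⟨B, hB0, hB⟩ := ent0_bound h
  exact Integrable.of_bound ((measurable_ent0 h).comp hs).aestronglyMeasurable B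
    (Eventually.of_forall fun x => hB _)

lemma Jf_bound [IsFiniteMeasure μ] {ent : V → ℝ} (h : EntHyp ent) : ∃ M : ℝ, ∀ s : Lp EV 2 μ, |Jf μ ent s| ≤ M := by
  obtain ⟨B, hB0, hB⟩ := ent0_bound h
  refine ⟨B * μ.real univ, fun s => ?_⟩
  rw [← Real.norm_eq_abs]
  exact norm_integral_le_of_norm_le_const (Eventually.of_forall fun x => hB _)

lemma concave_Jf [IsFiniteMeasure μ] {ent : V → ℝ} (h : EntHyp ent) : ConcaveOn ℝ (octSet μ) (Jf μ ent) := by
  refine ⟨convex_octSet μ, ?_⟩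
  intro s hs t ht a b ha hb hab
  have hs' : ∀ᵐ x ∂μ, (s x).ofLp ∈ Oct := hs
  have ht' : ∀ᵐ x ∂μ, (t x).ofLp ∈ Oct := ht
  unfold Jf
  rw [smul_eq_mul, smul_eq_mul, ← integral_const_mul, ← integral_const_mul, ← integral_add
    ((integrable_ent0 μ h (meas_ofLp μ s)).const_mul a)
    ((integrable_ent0 μ h (meas_ofLp μ t)).const_mul b)]
  refine integral_mono_ae (((integrable_ent0 μ h (meas_ofLp μ s)).const_mul a).add
    ((integrable_ent0 μ h (meas_ofLp μ t)).const_mul b)) (integrable_ent0 μ h (meas_ofLp μ _)) ?_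
  filter_upwards [hs', ht', Lp.coeFn_add (a • s) (b • t), Lp.coeFn_smul a s,
    Lp.coeFn_smul b t] with x h1 h2 h3 h4 h5
  have h6 : ((a • s + b • t : Lp EV 2 μ) x).ofLp = a • (s x).ofLp + b • (t x).ofLp := by
    rw [h3, Pi.add_apply, h4, h5]; rfl
  have h7 : a • (s x).ofLp + b • (t x).ofLp ∈ Oct := convex_Oct h1 h2 ha hb hab
  change a * ent0 ent (s x).ofLp + b * ent0 ent (t x).ofLp ≤ _
  rw [h6, ent0_eq h1, ent0_eq h2, ent0_eq h7]
  exact h.concave.2 h1 h2 ha hb hab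

lemma continuousOn_Jf [IsFiniteMeasure μ] {ent : V → ℝ} (h : EntHyp ent) : ContinuousOn (Jf μ ent) (octSet μ) := by
  intro t ht
  refine tendsto_of_seq_tendsto ?_
  intro s hs
  have hs1 : Tendsto s atTop (𝓝 t) := tendsto_nhds_of_tendsto_nhdsWithin hs
  have hs2 : ∀ᶠ n in atTop, s n ∈ octSet μ := hs.eventually self_mem_nhdsWithin
  refine tendsto_of_subseq_tendsto ?_
  intro ns hns
  obtain ⟨ms, hms, hae⟩ := exists_ae_subseq μ (hs1.comp hns)
  refine ⟨ms, ?_⟩
  obtain ⟨B, hB0, hB⟩ := ent0_bound h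
  have ht' : ∀ᵐ x ∂μ, (t x).ofLp ∈ Oct := ht
  have hns' : Tendsto (fun i => ns (ms i)) atTop atTop := hns.comp hms.tendsto_atTop
  have hs3 : ∀ᶠ i in atTop, ∀ᵐ x ∂μ, (s (ns (ms i)) x).ofLp ∈ Oct := hns'.eventually hs2
  obtain ⟨N, hN⟩ := eventually_atTop.mp hs3
  have hs4 : ∀ᵐ x ∂μ, ∀ i, N ≤ i → (s (ns (ms i)) x).ofLp ∈ Oct := by
    rw [ae_all_iff]
    intro i
    by_cases hi : N ≤ i
    · filter_upwards [hN i hi] with x hx _ using hx
    · exact Eventually.of_forall fun x hx => absurd hx hi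
  refine tendsto_integral_of_dominated_convergence (fun _ => B)
    (fun n => ((measurable_ent0 h).comp (meas_ofLp μ _)).aestronglyMeasurable)
    (integrable_const B) (fun n => Eventually.of_forall fun x => hB _) ?_
  filter_upwards [hae, hs4, ht'] with x h1 h2 h3
  have h4 : ∀ᶠ i in atTop, (s (ns (ms i)) x).ofLp ∈ Oct := by
    filter_upwards [eventually_ge_atTop N] with i hi using h2 i hi
  have h5 : Tendsto (fun i => (s (ns (ms i)) x).ofLp) atTop (𝓝[Oct] (t x).ofLp) :=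
    tendsto_nhdsWithin_of_tendsto_nhds_of_eventually_within _ h1 h4
  have h6 := (h.cont _ h3).tendsto.comp h5
  rw [← ent0_eq (ent := ent) h3] at h6
  refine h6.congr' ?_
  filter_upwards [h4] with i hi
  exact (ent0_eq hi).symm

end L2

end Pool.Agent.Helper96.Dim
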