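import Pool.Agent.Helper96.Dim.Dual

/-!
# Approximate dual potentials, II
-/

namespace Pool.Agent.Helper96.Dim

open MeasureTheory Filter Topology Set
open scoped ContDiff InnerProductSpace

lemma memLp_field (μ : Measure V) [IsFiniteMeasure μ] {s : V → V} (hs : Measurable s)
    (h : ∀ᵐ x ∂μ, s x ∈ Oct) : MemLp (fun x => (WithLp.toLp 2 (s x) : EV)) 2 μ := by
  obtain ⟨B, hB0, hB⟩ := exists_norm_toLp
  refine MemLp.of_bound ((PiLp.continuous_toLp 2 _).measurable.comp hs).aestronglyMeasurable B ?_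
  filter_upwards [h] with x hx
  exact hB _ hx

lemma memLp_gradE (μ : Measure V) [IsFiniteMeasure μ] {φ : V → ℝ} (hφ : Test φ) :
    MemLp (gradE φ) 2 μ := by
  obtain ⟨K, -, hK⟩ := gradE_bound hφ
  exact MemLp.of_bound (continuous_gradE hφ.1).aestronglyMeasurable K (Eventually.of_forall hK)

lemma integral_ent_le_of_maximizer {ent : V → ℝ} {R : Set V} {b : (V → ℝ) → ℝ} {g g' : V → V}
    (hR : IsCompact R) (hg : IsMaximizer ent R b g) (hg' : g' ∈ AFb R b) :
    ∫ x in R, ent (g' x) ≤ ∫ x in R, ent (g x) := by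
  by_cases h0 : volume R = 0
  · have : (volume.restrict R : Measure V) = 0 := Measure.restrict_eq_zero.mpr h0
    rw [this, integral_zero_measure, integral_zero_measure]
  · have h1 : 0 < (volume R).toReal := ENNReal.toReal_pos h0 hR.measure_lt_top.ne
    have h2 := hg.2 g' hg'
    unfold Ent at h2
    have h3 : 0 < (volume R).toReal⁻¹ := inv_pos.mpr h1
    exact le_of_mul_le_mul_left h2 h3

lemma bounded_of_AF {R : Set V} {g : V → V} (hg : g ∈ AF R) (x : V) : ‖g x‖ ≤ 1 := by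
  by_cases hx : x ∈ R
  · exact norm_le_one (hg.2.1 x hx)
  · rw [hg.2.2.1 x hx, norm_zero]; exact zero_le_one

/-- The pairing with the boundary value. -/
lemma pairing_eq {R : Set V} {b : (V → ℝ) → ℝ} {g : V → V} (hg : g ∈ AFb R b) {φ : V → ℝ}
    (hφ : Test φ) : ∫ x in R, fderiv ℝ φ x (g x) = - b φ := by
  have h1 := hg.2 φ hφ
  unfold divg at h1
  rw [← h1, neg_neg]
  refine setIntegral_eq_integral_of_forall_compl_eq_zero fun x hx => ?_
  rw [hg.1.2.2.1 x hx, map_zero]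

theorem dual {ent : V → ℝ} (h : EntHyp ent) {R : Set V} (hR : IsCompact R) {b : (V → ℝ) → ℝ}
    {g : V → V} (hg : IsMaximizer ent R b g) {ε : ℝ} (hε : 0 < ε) :
    ∃ φ, Test φ ∧ ∫ x in R, Hf ent (fderiv ℝ φ x) ≤ (∫ x in R, ent (g x)) - b φ + ε := by
  classical
  set μ : Measure V := volume.restrict R with hμ
  have hRm : MeasurableSet R := hR.isClosed.measurableSet
  have hfin : IsFiniteMeasure μ := by
    rw [hμ]
    exact ⟨by rw [Measure.restrict_apply_univ]; exact hR.measure_lt_top⟩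
  obtain ⟨hgm, hgO, hg0, -⟩ := hg.1.1
  have hgO' : ∀ᵐ x ∂μ, g x ∈ Oct := by
    rw [hμ]; exact ae_restrict_of_forall_mem hRm hgO
  set gE : Lp EV 2 μ := (memLp_field μ hgm hgO').toLp _ with hgE
  have hgEae : ∀ᵐ x ∂μ, (gE x).ofLp = g x := by
    filter_upwards [(memLp_field μ hgm hgO').coeFn_toLp] with x hx
    rw [hgE, hx]
  have hgEmem : gE ∈ octSet μ := by
    change ∀ᵐ x ∂μ, (gE x).ofLp ∈ Oct
    filter_upwards [hgEae, hgO'] with x h1 h2
    rw [h1]; exact h2
  -- the pairing of gradients with differences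
  have hinner : ∀ (w : Lp EV 2 μ) (φ : V → ℝ), Test φ → (∀ᵐ x ∂μ, w x = gradE φ x) →
      ∀ s ∈ octSet μ, ⟪w, s - gE⟫_ℝ = (∫ x, fderiv ℝ φ x (s x).ofLp ∂μ) -
        ∫ x, fderiv ℝ φ x (g x) ∂μ := by
    intro w φ hφ hw s hs
    rw [L2.inner_def]
    have hint : ∀ t : V → V, Measurable t → (∀ᵐ x ∂μ, t x ∈ Oct) →
        Integrable (fun x => fderiv ℝ φ x (t x)) μ := by
      intro t ht htO
      obtain ⟨K, hK0, hK⟩ := hφ.bound
      refine Integrable.of_bound (measurable_apply hφ.continuous_fderiv ht).aestronglyMeasurable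
        K ?_
      filter_upwards [htO] with x hx
      calc ‖fderiv ℝ φ x (t x)‖ ≤ ‖fderiv ℝ φ x‖ * ‖t x‖ := (fderiv ℝ φ x).le_opNorm _
        _ ≤ K * 1 := mul_le_mul (hK x) (norm_le_one hx) (norm_nonneg _) hK0
        _ = K := mul_one _
    rw [← integral_sub (hint _ (meas_ofLp μ s) hs) (hint _ hgm hgO')]
    refine integral_congr_ae ?_
    filter_upwards [hw, Lp.coeFn_sub s gE, hgEae] with x h1 h2 h3
    rw [h1, h2, inner_gradE, ← map_sub, ← h3]
    rfl
  obtain ⟨D, hD⟩ := exists_norm_octSet μ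
  obtain ⟨M, hM⟩ := Jf_bound μ h
  set m : ℝ := ∫ x in R, ent (g x) with hm
  have key : ∀ s ∈ octSet μ, (∀ w ∈ gradSub μ, ⟪w, s - gE⟫_ℝ = 0) → Jf μ ent s ≤ m := by
    intro s hs hperp
    set T : Set V := R ∩ {x | (s x).ofLp ∈ Oct} with hT
    have hTm : MeasurableSet T :=
      hRm.inter ((meas_ofLp μ s) isClosed_Oct.measurableSet)
    set g' : V → V := T.indicator (fun x => (s x).ofLp) with hg'
    have hg'm : Measurable g' := (meas_ofLp μ s).indicator hTm
    have hs' : ∀ᵐ x ∂μ, (s x).ofLp ∈ Oct := hs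
    have hg'ae : ∀ᵐ x ∂μ, g' x = (s x).ofLp := by
      have h1 : ∀ᵐ x ∂μ, x ∈ R := by rw [hμ]; exact ae_restrict_mem hRm
      filter_upwards [h1, hs'] with x h2 h3
      rw [hg', indicator_of_mem]
      exact ⟨h2, h3⟩
    have hg'O : ∀ x ∈ R, g' x ∈ Oct := by
      intro x hx
      by_cases h1 : x ∈ T
      · rw [hg', indicator_of_mem h1]; exact h1.2
      · rw [hg', indicator_of_notMem h1]; exact zero_mem_Oct
    have hg'0 : ∀ x, x ∉ R → g' x = 0 := by
      intro x hx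
      rw [hg', indicator_of_notMem]
      exact fun h1 => hx h1.1
    have hdiv : ∀ ψ, Test ψ → divg g' ψ = b ψ := by
      intro ψ hψ
      set w : Lp EV 2 μ := (memLp_gradE μ hψ).toLp _ with hw
      have hwae : ∀ᵐ x ∂μ, w x = gradE ψ x := (memLp_gradE μ hψ).coeFn_toLp
      have h1 := hperp w ⟨ψ, hψ, hwae⟩
      rw [hinner w ψ hψ hwae s hs] at h1
      have h2 := pairing_eq hg.1 hψ
      have h3 : ∫ x, fderiv ℝ ψ x (g' x) = ∫ x in R, fderiv ℝ ψ x (g' x) := by
        symm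
        refine setIntegral_eq_integral_of_forall_compl_eq_zero fun x hx => ?_
        rw [hg'0 x hx, map_zero]
      have h4 : ∫ x in R, fderiv ℝ ψ x (g' x) = ∫ x, fderiv ℝ ψ x (s x).ofLp ∂μ := by
        refine integral_congr_ae ?_
        filter_upwards [hg'ae] with x hx
        rw [hx]
      unfold divg
      rw [h3, h4]
      linarith
    have hAFb : g' ∈ AFb R b := by
      refine ⟨⟨hg'm, hg'O, hg'0, ?_⟩, hdiv⟩
      intro ψ hψ hsupp
      rw [hdiv ψ hψ, ← hg.1.2 ψ hψ]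
      exact hg.1.1.2.2.2 ψ hψ hsupp
    have h1 := integral_ent_le_of_maximizer hR hg hAFb
    have h2 : Jf μ ent s = ∫ x in R, ent (g' x) := by
      unfold Jf
      refine integral_congr_ae ?_
      filter_upwards [hg'ae, hs'] with x h1 h2
      rw [h1, ent0_eq h2]
    rw [h2]
    exact h1
  obtain ⟨q, ⟨φ, hφ, hq⟩, hqle⟩ := hilb (convex_octSet μ) (isClosed_octSet μ) hD
    (concave_Jf μ h) (continuousOn_Jf μ h) (fun s _ => hM s) (gradSub μ) hgEmem key
    (show 0 < ε / 2 by positivity)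
  refine ⟨φ, hφ, ?_⟩
  set v : ℝ := (μ.real univ) + 1 with hv
  have hv0 : 0 < v := by
    have : 0 ≤ μ.real univ := measureReal_nonneg
    rw [hv]; linarith
  obtain ⟨s, hsm, hsO, hsle⟩ := near_opt h hφ (show 0 < ε / (2 * v) by positivity)
  set sE : Lp EV 2 μ := (memLp_field μ hsm (Eventually.of_forall hsO)).toLp _ with hsE
  have hsEae : ∀ᵐ x ∂μ, (sE x).ofLp = s x := by
    filter_upwards [(memLp_field μ hsm (Eventually.of_forall hsO)).coeFn_toLp] with x hx
    rw [hsE, hx]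
  have hsEmem : sE ∈ octSet μ := by
    change ∀ᵐ x ∂μ, (sE x).ofLp ∈ Oct
    filter_upwards [hsEae] with x h1
    rw [h1]; exact hsO x
  have h1 := hqle sE hsEmem
  rw [hinner q φ hφ hq sE hsEmem, pairing_eq hg.1 hφ] at h1
  have h2 : Jf μ ent sE = ∫ x, ent (s x) ∂μ := by
    unfold Jf
    refine integral_congr_ae ?_
    filter_upwards [hsEae] with x h1
    rw [h1, ent0_eq (hsO x)]
  have h3 : ∫ x, fderiv ℝ φ x (sE x).ofLp ∂μ = ∫ x, fderiv ℝ φ x (s x) ∂μ := by
    refine integral_congr_ae ?_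
    filter_upwards [hsEae] with x h1
    rw [h1]
  rw [h2, h3] at h1
  obtain ⟨B, hB0, hB⟩ := h.bound
  obtain ⟨K, hK0, hK⟩ := hφ.bound
  have hi1 : Integrable (fun x => ent (s x)) μ := by
    have : (fun x => ent (s x)) = fun x => ent0 ent (s x) := by
      funext x; rw [ent0_eq (hsO x)]
    rw [this]
    exact integrable_ent0 μ h hsm
  have hi2 : Integrable (fun x => fderiv ℝ φ x (s x)) μ := by
    refine Integrable.of_bound (measurable_apply hφ.continuous_fderiv hsm).aestronglyMeasurable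
      K (Eventually.of_forall fun x => ?_)
    calc ‖fderiv ℝ φ x (s x)‖ ≤ ‖fderiv ℝ φ x‖ * ‖s x‖ := (fderiv ℝ φ x).le_opNorm _
      _ ≤ K * 1 := mul_le_mul (hK x) (norm_le_one (hsO x)) (norm_nonneg _) hK0
      _ = K := mul_one _
  have hi3 : Integrable (fun x => Hf ent (fderiv ℝ φ x)) μ := by
    refine Integrable.of_bound
      ((continuous_Hf h).comp hφ.continuous_fderiv).aestronglyMeasurable (|Hf ent 0| + K)
      (Eventually.of_forall fun x => ?_)
    have h4 := Hf_lip h (fderiv ℝ φ x) 0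
    rw [sub_zero] at h4
    have h5 := hK x
    rw [Real.norm_eq_abs]
    calc |Hf ent (fderiv ℝ φ x)| = |(Hf ent (fderiv ℝ φ x) - Hf ent 0) + Hf ent 0| := by
          rw [sub_add_cancel]
      _ ≤ |Hf ent (fderiv ℝ φ x) - Hf ent 0| + |Hf ent 0| := abs_add_le _ _
      _ ≤ |Hf ent 0| + K := by linarith
  have h4 : ∫ x, Hf ent (fderiv ℝ φ x) ∂μ ≤
      ∫ x, (ent (s x) + fderiv ℝ φ x (s x) + ε / (2 * v)) ∂μ :=
    integral_mono hi3 ((hi1.add hi2).add (integrable_const _)) hsle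
  have h5 : ∫ x, (ent (s x) + fderiv ℝ φ x (s x) + ε / (2 * v)) ∂μ =
      (∫ x, ent (s x) ∂μ) + (∫ x, fderiv ℝ φ x (s x) ∂μ) + (μ.real univ) * (ε / (2 * v)) := by
    have hi12 : Integrable (fun x => ent (s x) + fderiv ℝ φ x (s x)) μ := hi1.add hi2
    rw [integral_add hi12 (integrable_const _), integral_add hi1 hi2, integral_const,
      smul_eq_mul]
  have h6 : (μ.real univ) * (ε / (2 * v)) ≤ ε / 2 := by
    have h7 : μ.real univ ≤ v := by rw [hv]; linarith
    calc (μ.real univ) * (ε / (2 * v)) ≤ v * (ε / (2 * v)) := by gcongr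
      _ = ε / 2 := by field_simp
  linarith

end Pool.Agent.Helper96.Dim
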