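import Pool.Agent.Helper96.Dim.Bdry3

/-!
# The global conclusion
-/

namespace Pool.Agent.Helper96.Dim

open MeasureTheory Filter Topology Set
open scoped ContDiff ENNReal

variable {R : Set V} {a : Fin 6 → V → ℝ} {B : ℝ}

/-- Local divergence-freeness away from the exceptional set. -/
lemma local_div (hA : Fam R a B) (j : Fin 6) {E : Set V}
    (hE : ∀ z ∈ frontier R, z ∉ E → ∃ F : V → ℝ, ContDiff ℝ ∞ F ∧ fderiv ℝ F z ≠ 0 ∧
      ∀ᶠ x in 𝓝 z, (x ∈ R ↔ 0 ≤ F x)) {z : V} (hz : z ∉ E) :
    ∃ ρ : ℝ, 0 < ρ ∧ ∀ ψ, Test ψ → tsupport ψ ⊆ Metric.ball z ρ →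
      ∫ x, a j x * fderiv ℝ ψ x (dir j) = 0 := by
  have hRc : IsClosed R := hA.hR.isClosed
  by_cases hzi : z ∈ interior R
  · obtain ⟨ρ, hρ, hb⟩ := Metric.isOpen_iff.mp isOpen_interior z hzi
    exact ⟨ρ, hρ, fun ψ hψ hs => hA.inner j ψ hψ (hs.trans hb)⟩
  by_cases hzR : z ∈ R
  swap
  · obtain ⟨ρ, hρ, hb⟩ := Metric.isOpen_iff.mp hRc.isOpen_compl z hzR
    refine ⟨ρ, hρ, fun ψ hψ hs => ?_⟩
    have : ∀ x, a j x * fderiv ℝ ψ x (dir j) = 0 := by
      intro x
      by_cases hx : x ∈ tsupport ψ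
      · rw [hA.off j x (hb (hs hx)), zero_mul]
      · have h3 : x ∉ tsupport (fderiv ℝ ψ) := fun h => hx (tsupport_fderiv_subset ℝ h)
        rw [image_eq_zero_of_notMem_tsupport h3]
        simp
    rw [integral_congr_ae (Eventually.of_forall this), integral_zero]
  have hzf : z ∈ frontier R := by
    rw [hRc.frontier_eq]; exact ⟨hzR, hzi⟩
  obtain ⟨F, hF, hFz, hev⟩ := hE z hzf hz
  obtain ⟨v0, hv0⟩ : ∃ v0, fderiv ℝ F z v0 ≠ 0 := by
    by_contra hcon
    push Not at hcon
    exact hFz (ContinuousLinearMap.ext fun v => by rw [hcon v]; rfl)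
  set v : V := (2 / fderiv ℝ F z v0) • v0 with hv
  have hv2 : fderiv ℝ F z v = 2 := by
    rw [hv, map_smul, smul_eq_mul]; field_simp
  have hcont := contDiff_continuous_fderiv hF
  have e1 : ∀ᶠ x in 𝓝 z, 1 < fderiv ℝ F x v := by
    have : Continuous fun x => fderiv ℝ F x v := hcont.clm_apply continuous_const
    refine this.continuousAt.eventually_const_lt ?_
    simp only [hv2]; norm_num
  have e2 : ∀ᶠ x in 𝓝 z, ‖fderiv ℝ F x‖ < ‖fderiv ℝ F z‖ + 1 :=
    hcont.norm.continuousAt.eventually_lt_const (by linarith)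
  obtain ⟨r, hr, hb⟩ := Metric.eventually_nhds_iff_ball.mp (hev.and (e1.and e2))
  have hL : Loc R F z r v (‖fderiv ℝ F z‖ + 1) :=
    ⟨hr, hF, fun x hx => (hb x hx).1, fun x hx => (hb x hx).2.1.le,
      fun x hx => (hb x hx).2.2.le⟩
  exact ⟨r / 2, by positivity, fun ψ hψ hs => local_zero hL hA j hψ hs⟩

/-- The translates of the exceptional set along a segment form a null set. -/
lemma null_sweep {E : Set V} (hEc : IsCompact E)
    (hE : Tendsto (fun r : ℝ => (volume (Metric.thickening r E)).toReal / r) (𝓝[>] 0) (𝓝 0))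
    {u : V} (hu : ‖u‖ ≤ 1) {L : ℝ} (hL : 0 < L) :
    volume {x : V | ∃ s ∈ Icc (0 : ℝ) L, x + s • u ∈ E} = 0 := by
  set N : Set V := {x : V | ∃ s ∈ Icc (0 : ℝ) L, x + s • u ∈ E} with hN
  have key : ∀ e : ℝ, 0 < e → volume N ≤ ENNReal.ofReal e := by
    intro e he
    set c : ℝ := e / (2 * L + 1) with hc
    have hc0 : 0 < c := by rw [hc]; positivity
    have h1 : ∀ᶠ r : ℝ in 𝓝[>] 0, (volume (Metric.thickening r E)).toReal / r < c :=
      hE.eventually_lt_const hc0
    have h2 : ∀ᶠ r : ℝ in 𝓝[>] 0, r < 1 := by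
      have : ∀ᶠ r : ℝ in 𝓝 0, r < 1 := Iio_mem_nhds one_pos
      exact this.filter_mono nhdsWithin_le_nhds
    have h3 : ∀ᶠ r : ℝ in 𝓝[>] (0 : ℝ), 0 < r := self_mem_nhdsWithin
    obtain ⟨r', hr1, hr2, hr3⟩ := (h1.and (h2.and h3)).exists
    set r : ℝ := r' / 2 with hr
    have hr0 : 0 < r := by rw [hr]; positivity
    set n : ℕ := ⌊L / r⌋₊ with hn
    have hcover : N ⊆ ⋃ k ∈ Finset.range (n + 1),
        (fun x : V => x + ((k : ℝ) * r) • u) ⁻¹' (Metric.thickening r' E) := by
      rintro x ⟨s, hs, hsE⟩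
      have hsr : 0 ≤ s / r := div_nonneg hs.1 hr0.le
      set k : ℕ := ⌊s / r⌋₊ with hk
      have hk1 : (k : ℝ) ≤ s / r := Nat.floor_le hsr
      have hk2 : s / r < (k : ℝ) + 1 := Nat.lt_floor_add_one _
      rw [le_div_iff₀ hr0] at hk1
      rw [div_lt_iff₀ hr0] at hk2
      have hkn : k ≤ n := by
        rw [hk, hn]
        apply Nat.floor_le_floor
        have := hs.2
        gcongr
      simp only [mem_iUnion]
      refine ⟨k, Finset.mem_range.mpr (by omega), ?_⟩
      rw [mem_preimage, Metric.mem_thickening_iff]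
      refine ⟨_, hsE, ?_⟩
      rw [dist_eq_norm]
      have : x + ((k : ℝ) * r) • u - (x + s • u) = ((k : ℝ) * r - s) • u := by
        rw [sub_smul]; abel
      rw [this, norm_smul, Real.norm_eq_abs]
      have h4 : |(k : ℝ) * r - s| ≤ r := by
        rw [abs_le]; constructor <;> linarith
      calc |(k : ℝ) * r - s| * ‖u‖ ≤ r * 1 :=
            mul_le_mul h4 hu (norm_nonneg _) hr0.le
        _ < r' := by rw [hr]; linarith
    have hfin : volume (Metric.thickening r' E) ≠ ⊤ := by
      refine ne_top_of_le_ne_top ?_ (measure_mono (Metric.thickening_subset_cthickening r' E))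
      exact hEc.cthickening.measure_lt_top.ne
    set g : ℝ := (volume (Metric.thickening r' E)).toReal with hg
    have hgr : g ≤ c * r' := by
      have h5 := hr1.le
      rw [div_le_iff₀ hr3] at h5
      exact h5
    calc volume N ≤ volume (⋃ k ∈ Finset.range (n + 1),
          (fun x : V => x + ((k : ℝ) * r) • u) ⁻¹' (Metric.thickening r' E)) :=
            measure_mono hcover
      _ ≤ ∑ k ∈ Finset.range (n + 1),
          volume ((fun x : V => x + ((k : ℝ) * r) • u) ⁻¹' (Metric.thickening r' E)) :=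
            measure_biUnion_finset_le _ _
      _ = ∑ k ∈ Finset.range (n + 1), volume (Metric.thickening r' E) := by
          refine Finset.sum_congr rfl fun k _ => ?_
          exact measure_preimage_add_right _ _ _
      _ = ENNReal.ofReal (((n : ℝ) + 1) * g) := by
          rw [Finset.sum_const, Finset.card_range, nsmul_eq_mul,
            ENNReal.ofReal_mul (by positivity), hg, ENNReal.ofReal_toReal hfin]
          congr 1
          rw [← ENNReal.ofReal_natCast]
          congr 1
          push_cast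
          ring
      _ ≤ ENNReal.ofReal e := by
          apply ENNReal.ofReal_le_ofReal
          have hn1 : (n : ℝ) ≤ L / r := Nat.floor_le (by positivity)
          have hg0 : 0 ≤ g := ENNReal.toReal_nonneg
          calc ((n : ℝ) + 1) * g ≤ (L / r + 1) * (c * r') := by gcongr
            _ = c * (2 * L + r') := by rw [hr]; field_simp
            _ ≤ c * (2 * L + 1) := by gcongr
            _ = e := by rw [hc]; field_simp
  refine le_antisymm ?_ bot_le
  refine ENNReal.le_of_forall_pos_le_add fun e he _ => ?_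
  have h1 := key e (by exact_mod_cast he)
  rw [zero_add]
  simpa using h1

theorem fam_zero (hA : Fam R a B) (hb : PiecewiseSmoothBoundary R) (j : Fin 6) :
    ∀ᵐ x, a j x = 0 := by
  obtain ⟨E, hEc, hEv, hE⟩ := hb
  -- a length which leads out of `R`
  obtain ⟨L, hL0, hLR⟩ : ∃ L : ℝ, 0 < L ∧ ∀ x ∈ R, x + L • dir j ∉ R := by
    obtain ⟨M, hM⟩ := hA.hR.isBounded.exists_norm_le
    have hd : 0 < ‖dir j‖ := norm_pos_iff.mpr (dir_ne_zero j)
    have hM0 : 0 ≤ |M| := abs_nonneg _
    refine ⟨(2 * |M| + 1) / ‖dir j‖, by positivity, ?_⟩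
    intro x hx hcon
    have h1 := hM x hx
    have h2 := hM _ hcon
    have h3 : ‖((2 * |M| + 1) / ‖dir j‖) • dir j‖ = 2 * |M| + 1 := by
      rw [norm_smul, Real.norm_eq_abs, abs_of_pos (by positivity)]
      field_simp
    have h4 : ((2 * |M| + 1) / ‖dir j‖) • dir j = (x + ((2 * |M| + 1) / ‖dir j‖) • dir j) - x := by
      abel
    rw [h4] at h3
    have h5 := norm_sub_le (x + ((2 * |M| + 1) / ‖dir j‖) • dir j) x
    rw [h3] at h5
    have h6 := le_abs_self M
    linarith
  set N : Set V := {x : V | ∃ s ∈ Icc (0 : ℝ) L, x + s • dir j ∈ E} with hN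
  have hN0 : volume N = 0 := null_sweep hEc hEv (norm_dir_le j) hL0
  set Z : Set V := {x | a j x ≠ 0 ∧ x ∉ N} with hZ
  have hZ0 : volume Z = 0 := by
    refine measure_null_of_locally_null Z ?_
    intro x hx
    -- the segment from `x`
    set S : Set V := (fun s : ℝ => x + s • dir j) '' Icc (0 : ℝ) L with hS
    have hSc : IsCompact S := isCompact_Icc.image (by fun_prop)
    have hSE : ∀ z ∈ S, z ∉ E := by
      rintro _ ⟨s, hs, rfl⟩ hcon
      exact hx.2 ⟨s, hs, hcon⟩
    choose ρ hρ0 hρ using fun z : S => local_div hA j hE (hSE z z.2)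
    obtain ⟨δ, hδ, hleb⟩ := lebesgue_number_lemma_of_metric hSc
      (c := fun z : S => Metric.ball (z : V) (ρ z)) (fun z => Metric.isOpen_ball)
      (fun z hz => mem_iUnion.mpr ⟨⟨z, hz⟩, Metric.mem_ball_self (hρ0 _)⟩)
    have hsh := shift_ae' (hA.meas j) (hA.bdd j) (u := dir j) (O := Metric.ball x δ)
      Metric.isOpen_ball (s := L) ?_
    · refine ⟨Z ∩ Metric.ball x δ, inter_mem_nhdsWithin Z (Metric.ball_mem_nhds x hδ), ?_⟩
      refine measure_mono_null ?_ (ae_iff.mp hsh)
      intro y hy hcon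
      have h1 := hcon hy.2
      have hy0 : a j y = 0 := by
        by_cases hyR : y ∈ R
        · rw [← h1]
          exact hA.off j _ (hLR y hyR)
        · exact hA.off j y hyR
      exact hy.1.1 hy0
    · intro q hq ψ hψ hψs
      have hmem : x + (q * L) • dir j ∈ S := by
        refine ⟨q * L, ⟨mul_nonneg hq.1 hL0.le, ?_⟩, rfl⟩
        calc q * L ≤ 1 * L := by
              have := hq.2
              gcongr
          _ = L := one_mul _
      obtain ⟨z', hz'⟩ := hleb _ hmem
      refine hρ z' ψ hψ ?_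
      intro y hy
      apply hz'
      have h1 := hψs y hy
      rw [Metric.mem_ball, dist_eq_norm] at h1 ⊢
      have h2 : y + (-(q * L)) • dir j - x = y - (x + (q * L) • dir j) := by
        rw [neg_smul]; abel
      rw [h2] at h1
      exact h1
  have h1 : {x | ¬ (a j x = 0)} ⊆ Z ∪ N := by
    intro x hx
    by_cases hxN : x ∈ N
    · exact Or.inr hxN
    · exact Or.inl ⟨hx, hxN⟩
  exact measure_mono_null h1 (measure_union_null hZ0 hN0)

end Pool.Agent.Helper96.Dim
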