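import Pool.Agent.Helper96.Dim.Inner

/-!
# The components of the difference of two maximizers are divergence free in the interior, II
-/

namespace Pool.Agent.Helper96.Dim

open MeasureTheory Filter Topology Set
open scoped ContDiff

variable {ent : V → ℝ} {R : Set V} {g1 g2 : V → V}

lemma contDiff_wt {φ : V → ℝ} (hφ : ContDiff ℝ ∞ φ) (lam : ℝ) (v : V) :
    ContDiff ℝ ∞ (wt φ lam v) := by
  unfold wt
  have h1 := contDiff_diff hφ lam v
  refine contDiff_const.div (contDiff_const.add (h1.pow 2)) ?_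
  intro x
  positivity

lemma hasFDerivAt_wt {φ : V → ℝ} (hφ : ContDiff ℝ ∞ φ) (lam : ℝ) (v x : V) :
    HasFDerivAt (wt φ lam v)
      ((-(2 * ((φ (x + v) - φ x) / lam)) / (1 + ((φ (x + v) - φ x) / lam) ^ 2) ^ 2) •
        (lam⁻¹ • (fderiv ℝ φ (x + v) - fderiv ℝ φ x))) x := by
  have h1 := hasFDerivAt_diff hφ lam v x
  set F : V → ℝ := fun x => (φ (x + v) - φ x) / lam with hF
  have h2 : HasDerivAt (fun s : ℝ => 1 / (1 + s ^ 2)) (-(2 * F x) / (1 + F x ^ 2) ^ 2) (F x) := by
    have h3 : HasDerivAt (fun s : ℝ => 1 + s ^ 2) (2 * F x) (F x) := by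
      have := (hasDerivAt_pow 2 (F x)).const_add 1
      simpa using this
    have h4 := h3.fun_inv (by positivity)
    simpa [one_div] using h4
  exact h2.comp_hasFDerivAt x h1

/-- The bound for the derivative of the weight along the difference of the flows. -/
lemma fderiv_wt_bound (h : EntHyp ent) {φ : V → ℝ} (hφ : Test φ) {lam : ℝ} (hlam : 0 < lam)
    (v x : V) {s s' : V} (hs : s ∈ Oct) (hs' : s' ∈ Oct)
    (hc : s = s' ∨ (s ≠ s' ∧ CommonEdge s s')) :
    |fderiv ℝ (wt φ lam v) x (s - s')| ≤ (1 / lam) * (wt φ lam v x *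
      ((Gap ent (fderiv ℝ φ (x + v)) s + Gap ent (fderiv ℝ φ (x + v)) s') +
        (Gap ent (fderiv ℝ φ x) s + Gap ent (fderiv ℝ φ x) s'))) := by
  have hw := wt_pos φ lam v x
  have hG1 := Gap_nonneg h (fderiv ℝ φ (x + v)) hs
  have hG2 := Gap_nonneg h (fderiv ℝ φ (x + v)) hs'
  have hG3 := Gap_nonneg h (fderiv ℝ φ x) hs
  have hG4 := Gap_nonneg h (fderiv ℝ φ x) hs'
  have hL : ∀ L : V →L[ℝ] ℝ, |L (s - s')| ≤ Gap ent L s + Gap ent L s' := by
    intro L
    rcases hc with hc | ⟨-, hc⟩
    · rw [hc, sub_self, map_zero, abs_zero]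
      exact add_nonneg (Gap_nonneg h _ hs') (Gap_nonneg h _ hs')
    · exact gap_parallel h hc L
  rw [(hasFDerivAt_wt hφ.1 lam v x).fderiv]
  set F : ℝ := (φ (x + v) - φ x) / lam with hF
  simp only [smul_apply, sub_apply, smul_eq_mul]
  rw [abs_mul, abs_mul, abs_of_pos (inv_pos.mpr hlam)]
  have h1 : |-(2 * F) / (1 + F ^ 2) ^ 2| ≤ wt φ lam v x := by
    unfold wt
    rw [← hF, abs_div, abs_neg, abs_of_pos (show 0 < (1 + F ^ 2) ^ 2 by positivity),
      div_le_div_iff₀ (by positivity) (by positivity), one_mul]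
    have h2 : |2 * F| ≤ 1 + F ^ 2 := by
      rw [abs_le]
      constructor
      · nlinarith [sq_nonneg (1 + F)]
      · nlinarith [sq_nonneg (1 - F)]
    have h3 : 0 ≤ 1 + F ^ 2 := by positivity
    calc |2 * F| * (1 + F ^ 2) ≤ (1 + F ^ 2) * (1 + F ^ 2) := by gcongr
      _ = (1 + F ^ 2) ^ 2 := by ring
  have h2 : |fderiv ℝ φ (x + v) (s - s') - fderiv ℝ φ x (s - s')| ≤
      (Gap ent (fderiv ℝ φ (x + v)) s + Gap ent (fderiv ℝ φ (x + v)) s') +
        (Gap ent (fderiv ℝ φ x) s + Gap ent (fderiv ℝ φ x) s') :=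
    (abs_sub _ _).trans (add_le_add (hL _) (hL _))
  calc |-(2 * F) / (1 + F ^ 2) ^ 2| *
        (lam⁻¹ * |fderiv ℝ φ (x + v) (s - s') - fderiv ℝ φ x (s - s')|) ≤
        wt φ lam v x * (lam⁻¹ * ((Gap ent (fderiv ℝ φ (x + v)) s +
          Gap ent (fderiv ℝ φ (x + v)) s') +
          (Gap ent (fderiv ℝ φ x) s + Gap ent (fderiv ℝ φ x) s'))) := by
        have : 0 ≤ lam⁻¹ := (inv_pos.mpr hlam).le
        gcongr
    _ = _ := by rw [one_div]; ring

theorem inner_main (h : EntHyp ent) (hp : Pair ent R g1 g2) (j : Fin 6) {ψ : V → ℝ}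
    (hψ : Test ψ) (hψs : tsupport ψ ⊆ interior R) :
    ∫ x, fderiv ℝ ψ x ((Dj (fun x => g1 x - g2 x) j).indicator (fun x => g1 x - g2 x) x) = 0 := by
  classical
  set f : V → V := fun x => g1 x - g2 x with hf
  have hfm : Measurable f := hp.m1.sub hp.m2
  have hfb : ∀ x, ‖f x‖ ≤ 2 := by
    intro x
    calc ‖g1 x - g2 x‖ ≤ ‖g1 x‖ + ‖g2 x‖ := norm_sub_le _ _
      _ ≤ 1 + 1 := add_le_add (norm_le_one (hp.O1 x)) (norm_le_one (hp.O2 x))
      _ = 2 := by norm_num
  obtain ⟨χ, hχ, hχ0, hχ1, hχK, hχs⟩ := exists_cutoff hψ.2.isCompact isOpen_interior hψs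
  obtain ⟨C, hC0, hdata⟩ := inner_data h hp j hχ hχ0 hχ1 hχs
  set κ : ℕ → ℝ := fun k => 1 / ((k : ℝ) + 1) with hκ
  have hκ0 : ∀ k, 0 < κ k := fun k => by rw [hκ]; positivity
  have hκlim : Tendsto κ atTop (𝓝 0) := tendsto_one_div_add_atTop_nhds_zero_nat
  choose t φ ht0 htκ hφ hI hD using fun k => hdata (κ k) (hκ0 k)
  -- the averaged gaps tend to zero
  set Hk : ℕ → V → ℝ := fun k x =>
    χ x * Jx ent (φ k) (κ k) (t k) (dir j) (g1 x) (g2 x) x with hHk
  have hHk' : ∀ k x, Hk k x = (1 / κ k) * ∫ τ in (0 : ℝ)..1, χ x * (wt (φ k) (κ k * t k)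
      ((τ * t k) • dir j) x * G2 ent g1 g2 (fderiv ℝ (φ k) (x + (τ * t k) • dir j)) x) := by
    intro k x
    simp only [hHk, Jx, G2]
    rw [intervalIntegral.integral_const_mul, ← mul_assoc, mul_comm (χ x), mul_assoc]
    congr 2
    refine intervalIntegral.integral_congr fun τ _ => ?_
    exact mul_comm _ _
  have hHk0 : ∀ k x, 0 ≤ Hk k x := by
    intro k x
    rw [hHk']
    have : 0 < 1 / κ k := by have := hκ0 k; positivity
    refine mul_nonneg this.le (intervalIntegral.integral_nonneg zero_le_one fun τ _ => ?_)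
    exact mul_nonneg (hχ0 x) (mul_nonneg (wt_pos _ _ _ _).le (G2_nonneg h hp _ _))
  have hunc := fun k => integrable_uncurry h hp j hχ (hφ k) (κ k * t k) (t k)
  have hHki : ∀ k, Integrable (Hk k) := by
    intro k
    have h1 := (hunc k).integral_prod_left
    have h2 : Hk k = fun x => (1 / κ k) * ∫ τ in Ioc (0 : ℝ) 1, χ x * (wt (φ k) (κ k * t k)
      ((τ * t k) • dir j) x * G2 ent g1 g2 (fderiv ℝ (φ k) (x + (τ * t k) • dir j)) x) := by
      funext x
      rw [hHk', intervalIntegral.integral_of_le zero_le_one]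
    rw [h2]
    exact h1.const_mul _
  have hHkint : ∀ k, ∫ x, Hk k x ≤ κ k * C := by
    intro k
    have h2 : ∀ x, Hk k x = (1 / κ k) * ∫ τ in Ioc (0 : ℝ) 1, χ x * (wt (φ k) (κ k * t k)
      ((τ * t k) • dir j) x * G2 ent g1 g2 (fderiv ℝ (φ k) (x + (τ * t k) • dir j)) x) := by
      intro x
      rw [hHk', intervalIntegral.integral_of_le zero_le_one]
    rw [integral_congr_ae (Eventually.of_forall h2), integral_const_mul,
      integral_integral_swap (hunc k)]
    have h3 : ∫ τ in Ioc (0 : ℝ) 1, ∫ x, χ x * (wt (φ k) (κ k * t k)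
      ((τ * t k) • dir j) x * G2 ent g1 g2 (fderiv ℝ (φ k) (x + (τ * t k) • dir j)) x) ≤
        ∫ τ in Ioc (0 : ℝ) 1, (κ k * (κ k * t k)) * C := by
      refine setIntegral_mono_on (hunc k).integral_prod_right
        (integrable_const _) measurableSet_Ioc ?_
      intro τ hτ
      exact hI k τ ⟨hτ.1.le, hτ.2⟩
    have h4 : ∫ τ in Ioc (0 : ℝ) 1, (κ k * (κ k * t k)) * C = (κ k * (κ k * t k)) * C := by
      rw [setIntegral_const]
      simp
    rw [h4] at h3
    have hk0 := hκ0 k
    have hkt := ht0 k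
    have htk1 : t k ≤ 1 := (htκ k).trans (by
      rw [hκ]
      simp only
      rw [div_le_one (by positivity)]
      have : (0 : ℝ) ≤ k := Nat.cast_nonneg k
      linarith)
    calc (1 / κ k) * _ ≤ (1 / κ k) * ((κ k * (κ k * t k)) * C) := by
          gcongr
      _ = (κ k * C) * t k := by field_simp
      _ ≤ (κ k * C) * 1 := by gcongr
      _ = κ k * C := mul_one _
  have hL1 : Tendsto (fun k => eLpNorm (Hk k - (0 : V → ℝ)) 1 volume) atTop (𝓝 0) := by
    have h1 : ∀ k, eLpNorm (Hk k - (0 : V → ℝ)) 1 volume = ENNReal.ofReal (∫ x, Hk k x) := by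
      intro k
      rw [sub_zero, eLpNorm_one_eq_lintegral_enorm,
        ofReal_integral_eq_lintegral_ofReal (hHki k) (Eventually.of_forall (hHk0 k))]
      refine lintegral_congr fun x => ?_
      rw [← ofReal_norm, Real.norm_eq_abs, abs_of_nonneg (hHk0 k x)]
    have h2 : Tendsto (fun k => ∫ x, Hk k x) atTop (𝓝 0) := by
      have h3 : Tendsto (fun k => κ k * C) atTop (𝓝 0) := by
        have := hκlim.mul_const C
        simpa using this
      exact squeeze_zero (fun k => integral_nonneg (hHk0 k)) hHkint h3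
    have h3 := ENNReal.tendsto_ofReal h2
    rw [ENNReal.ofReal_zero] at h3
    exact h3.congr fun k => (h1 k).symm
  obtain ⟨ns, hns, hae⟩ := (tendstoInMeasure_of_tendsto_eLpNorm one_ne_zero
    (fun k => (hHki k).aestronglyMeasurable) aestronglyMeasurable_zero hL1).exists_seq_tendsto_ae
  -- pointwise limit of the weights
  have hκns : Tendsto (fun i => κ (ns i)) atTop (𝓝 0) := hκlim.comp hns.tendsto_atTop
  have hlim : ∀ᵐ x, χ x ≠ 0 → f x ≠ 0 →
      Tendsto (fun i => wt (φ (ns i)) (κ (ns i) * t (ns i)) (t (ns i) • dir j) x) atTop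
        (𝓝 ((Dj f j).indicator (fun _ => (1 : ℝ)) x)) := by
    filter_upwards [hae, hp.ce] with x hx hce hχx hfx
    have hne : g1 x ≠ g2 x := fun he => hfx (by simp [hf, he])
    have hce' : CommonEdge (g1 x) (g2 x) := by
      rcases hce with hce | hce
      · exact absurd hce hne
      · exact hce.2
    have hJ : Tendsto (fun i => Jx ent (φ (ns i)) (κ (ns i)) (t (ns i)) (dir j) (g1 x) (g2 x) x)
        atTop (𝓝 0) := by
      have h1 := hx.const_mul (χ x)⁻¹
      simp only [Pi.zero_apply, mul_zero] at h1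
      refine h1.congr fun i => ?_
      simp only [hHk]
      rw [← mul_assoc, inv_mul_cancel₀ hχx, one_mul]
    obtain ⟨l1, l2⟩ := wt_lim h hce' hne j x (fun i => hφ (ns i)) (fun i => hκ0 (ns i))
      (fun i => ht0 (ns i)) hκns hJ
    by_cases hD : x ∈ Dj f j
    · rw [indicator_of_mem hD]
      exact l1 (mem_Dj.mp hD)
    · rw [indicator_of_notMem hD]
      exact l2 fun hcon => hD (mem_Dj.mpr hcon)
  -- first limit
  set ζ : ℕ → V → ℝ := fun i => wt (φ (ns i)) (κ (ns i) * t (ns i)) (t (ns i) • dir j) with hζ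
  have hζc : ∀ i, ContDiff ℝ ∞ (ζ i) := fun i => contDiff_wt (hφ (ns i)).1 _ _
  have hψi : Integrable (fun x => ‖fderiv ℝ ψ x‖ * 2) :=
    (hψ.continuous_fderiv.integrable_of_hasCompactSupport (hψ.2.fderiv ℝ)).norm.mul_const 2
  have hA : Tendsto (fun i => ∫ x, ζ i x * fderiv ℝ ψ x (f x)) atTop
      (𝓝 (∫ x, fderiv ℝ ψ x ((Dj f j).indicator f x))) := by
    refine tendsto_integral_of_dominated_convergence (fun x => ‖fderiv ℝ ψ x‖ * 2) ?_ hψi ?_ ?_
    · intro i
      exact ((hζc i).continuous.measurable.mul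
        (measurable_apply hψ.continuous_fderiv hfm)).aestronglyMeasurable
    · intro i
      filter_upwards with x
      rw [norm_mul, Real.norm_eq_abs, abs_of_pos (wt_pos _ _ _ _)]
      calc ζ i x * ‖fderiv ℝ ψ x (f x)‖ ≤ 1 * (‖fderiv ℝ ψ x‖ * ‖f x‖) :=
            mul_le_mul (wt_le_one _ _ _ _) ((fderiv ℝ ψ x).le_opNorm _) (norm_nonneg _)
              zero_le_one
        _ ≤ ‖fderiv ℝ ψ x‖ * 2 := by
            rw [one_mul]
            have := hfb x
            gcongr
    · filter_upwards [hlim] with x hx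
      by_cases hfx : f x = 0
      · have h1 : (Dj f j).indicator f x = 0 := by
          by_cases hD : x ∈ Dj f j
          · rw [indicator_of_mem hD, hfx]
          · rw [indicator_of_notMem hD]
        rw [h1, hfx, map_zero]
        simp
      · by_cases hχx : χ x = 0
        · have h1 : fderiv ℝ ψ x = 0 := by
            have h2 : x ∉ tsupport ψ := fun hx' => by
              have := hχK x hx'
              rw [hχx] at this
              exact zero_ne_one this
            have h3 : x ∉ tsupport (fderiv ℝ ψ) := fun hx' => h2 (tsupport_fderiv_subset ℝ hx')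
            exact image_eq_zero_of_notMem_tsupport h3
          rw [h1]
          simp
        · have h1 := (hx hχx hfx).mul_const (fderiv ℝ ψ x (f x))
          have h2 : (Dj f j).indicator (fun _ => (1 : ℝ)) x * fderiv ℝ ψ x (f x) =
              fderiv ℝ ψ x ((Dj f j).indicator f x) := by
            by_cases hD : x ∈ Dj f j
            · rw [indicator_of_mem hD, indicator_of_mem hD, one_mul]
            · rw [indicator_of_notMem hD, indicator_of_notMem hD, zero_mul, map_zero]
          rw [h2] at h1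
          exact h1
  -- second limit
  obtain ⟨Kψ, hKψ0, hKψ⟩ := hψ.bound'
  have hψχ : ∀ x, |ψ x| ≤ Kψ * χ x := by
    intro x
    by_cases hx : x ∈ tsupport ψ
    · rw [hχK x hx, mul_one]; exact hKψ x
    · rw [image_eq_zero_of_notMem_tsupport hx, abs_zero]
      exact mul_nonneg hKψ0 (hχ0 x)
  have hB : Tendsto (fun i => ∫ x, ζ i x * fderiv ℝ ψ x (f x)) atTop (𝓝 0) := by
    have hbound : ∀ i, |∫ x, ζ i x * fderiv ℝ ψ x (f x)| ≤ Kψ * (κ (ns i) * (C + 2)) := by
      intro i
      set φi := φ (ns i) with hφi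
      set lam : ℝ := κ (ns i) * t (ns i) with hlam
      have hlam0 : 0 < lam := mul_pos (hκ0 _) (ht0 _)
      set v : V := t (ns i) • dir j with hv
      have hTest : Test (fun x => ψ x * ζ i x) := hψ.mul_right (hζc i)
      have hsupp : tsupport (fun x => ψ x * ζ i x) ⊆ interior R :=
        (tsupport_mul_subset_left (f := ψ) (g := ζ i)).trans hψs
      have hder : ∀ x, fderiv ℝ (fun x => ψ x * ζ i x) x =
          ψ x • fderiv ℝ (ζ i) x + ζ i x • fderiv ℝ ψ x := by
        intro x
        exact fderiv_fun_mul (hψ.differentiable x) (contDiff_differentiable (hζc i) x)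
      have hzero : ∫ x, fderiv ℝ (fun x => ψ x * ζ i x) x (f x) = 0 := by
        have h1 := hp.d1 _ hTest hsupp
        have h2 := hp.d2 _ hTest hsupp
        have h3 : ∫ x, fderiv ℝ (fun x => ψ x * ζ i x) x (f x) =
            (∫ x, fderiv ℝ (fun x => ψ x * ζ i x) x (g1 x)) -
            ∫ x, fderiv ℝ (fun x => ψ x * ζ i x) x (g2 x) := by
          rw [← integral_sub (hTest.integrable_apply hp.m1 fun x => norm_le_one (hp.O1 x))
            (hTest.integrable_apply hp.m2 fun x => norm_le_one (hp.O2 x))]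
          refine integral_congr_ae (Eventually.of_forall fun x => ?_)
          simp only [hf, map_sub]
        rw [h3, h1, h2, sub_zero]
      have hi1 : Integrable (fun x => ζ i x * fderiv ℝ ψ x (f x)) := by
        refine hψi.mono' ((hζc i).continuous.measurable.mul
          (measurable_apply hψ.continuous_fderiv hfm)).aestronglyMeasurable ?_
        filter_upwards with x
        rw [norm_mul, Real.norm_eq_abs, abs_of_pos (wt_pos _ _ _ _)]
        calc ζ i x * ‖fderiv ℝ ψ x (f x)‖ ≤ 1 * (‖fderiv ℝ ψ x‖ * ‖f x‖) :=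
              mul_le_mul (wt_le_one _ _ _ _) ((fderiv ℝ ψ x).le_opNorm _) (norm_nonneg _)
                zero_le_one
          _ ≤ ‖fderiv ℝ ψ x‖ * 2 := by
              rw [one_mul]
              have := hfb x
              gcongr
      have hi0 : Integrable (fun x => fderiv ℝ (fun x => ψ x * ζ i x) x (f x)) :=
        hTest.integrable_apply hfm hfb
      have hi2 : Integrable (fun x => ψ x * fderiv ℝ (ζ i) x (f x)) := by
        have h1 := hi0.sub hi1
        refine h1.congr (Eventually.of_forall fun x => ?_)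
        simp only [Pi.sub_apply]
        rw [hder x]
        simp only [add_apply, smul_apply, smul_eq_mul]
        ring
      have heq : ∫ x, ζ i x * fderiv ℝ ψ x (f x) = -∫ x, ψ x * fderiv ℝ (ζ i) x (f x) := by
        have h1 : ∫ x, fderiv ℝ (fun x => ψ x * ζ i x) x (f x) =
            (∫ x, ψ x * fderiv ℝ (ζ i) x (f x)) + ∫ x, ζ i x * fderiv ℝ ψ x (f x) := by
          rw [← integral_add hi2 hi1]
          refine integral_congr_ae (Eventually.of_forall fun x => ?_)
          simp only
          rw [hder x]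
          simp only [add_apply, smul_apply, smul_eq_mul]
        linarith
      rw [heq, abs_neg]
      -- the bound
      have hj1 := integrable_weighted h hp.m1 hp.O1 (hφ (ns i)) hχ lam v v
      have hj2 := integrable_weighted h hp.m2 hp.O2 (hφ (ns i)) hχ lam v v
      have hj3 := integrable_weighted h hp.m1 hp.O1 (hφ (ns i)) hχ lam v 0
      have hj4 := integrable_weighted h hp.m2 hp.O2 (hφ (ns i)) hχ lam v 0
      simp only [add_zero] at hj3 hj4
      have hj12 : Integrable (fun x => χ x * (wt φi lam v x *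
          G2 ent g1 g2 (fderiv ℝ φi (x + v)) x)) := by
        refine (hj1.add hj2).congr (Eventually.of_forall fun x => ?_)
        simp only [Pi.add_apply, G2]
        ring
      have hj34 : Integrable (fun x => χ x * (wt φi lam v x *
          G2 ent g1 g2 (fderiv ℝ φi x) x)) := by
        refine (hj3.add hj4).congr (Eventually.of_forall fun x => ?_)
        simp only [Pi.add_apply, G2]
        ring
      have hb1 : |∫ x, ψ x * fderiv ℝ (ζ i) x (f x)| ≤
          ∫ x, Kψ * (1 / lam) * (χ x * (wt φi lam v x * G2 ent g1 g2 (fderiv ℝ φi (x + v)) x) +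
            χ x * (wt φi lam v x * G2 ent g1 g2 (fderiv ℝ φi x) x)) := by
        rw [← Real.norm_eq_abs]
        refine norm_integral_le_of_norm_le ((hj12.add hj34).const_mul (Kψ * (1 / lam))) ?_
        filter_upwards [hp.ce] with x hx
        rw [norm_mul, Real.norm_eq_abs, Real.norm_eq_abs]
        have h1 := fderiv_wt_bound h (hφ (ns i)) hlam0 v x (hp.O1 x) (hp.O2 x) hx
        calc |ψ x| * |fderiv ℝ (ζ i) x (f x)| ≤ (Kψ * χ x) * ((1 / lam) * (wt φi lam v x *
              ((Gap ent (fderiv ℝ φi (x + v)) (g1 x) + Gap ent (fderiv ℝ φi (x + v)) (g2 x)) +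
              (Gap ent (fderiv ℝ φi x) (g1 x) + Gap ent (fderiv ℝ φi x) (g2 x))))) :=
              mul_le_mul (hψχ x) h1 (abs_nonneg _) (mul_nonneg hKψ0 (hχ0 x))
          _ = _ := by
              simp only [G2]
              ring
      refine hb1.trans ?_
      rw [integral_const_mul, integral_add hj12 hj34]
      have hb2 : ∫ x, χ x * (wt φi lam v x * G2 ent g1 g2 (fderiv ℝ φi (x + v)) x) ≤
          (κ (ns i) * lam) * C := by
        have := hI (ns i) 1 ⟨zero_le_one, le_refl _⟩
        rw [one_mul] at this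
        exact this
      have hb3 : ∫ x, χ x * (wt φi lam v x * G2 ent g1 g2 (fderiv ℝ φi x) x) ≤
          (κ (ns i) * lam) * 2 := by
        refine le_trans ?_ (hD (ns i))
        have hRm : MeasurableSet R := hp.hR.isClosed.measurableSet
        rw [← integral_indicator hRm]
        have hGm : Measurable (fun x => G2 ent g1 g2 (fderiv ℝ φi x) x) := by
          unfold G2
          exact (measurable_Gap h (hφ (ns i)).continuous_fderiv.measurable hp.m1 hp.O1).add
            (measurable_Gap h (hφ (ns i)).continuous_fderiv.measurable hp.m2 hp.O2)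
        have hGi : IntegrableOn (fun x => G2 ent g1 g2 (fderiv ℝ φi x) x) R := by
          have : IsFiniteMeasure (volume.restrict R : Measure V) :=
            ⟨by rw [Measure.restrict_apply_univ]; exact hp.hR.measure_lt_top⟩
          obtain ⟨B, hB0, hB⟩ := Gap_bound h (hφ (ns i))
          refine Integrable.of_bound hGm.aestronglyMeasurable (B + B)
            (Eventually.of_forall fun x => ?_)
          exact (norm_add_le _ _).trans (add_le_add (hB _ _ (hp.O1 x)) (hB _ _ (hp.O2 x)))
        refine integral_mono hj34 (hGi.integrable_indicator hRm) ?_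
        intro x
        by_cases hx : x ∈ R
        · rw [indicator_of_mem hx]
          have h0 := G2_nonneg h hp (fderiv ℝ φi x) x
          calc χ x * (wt φi lam v x * G2 ent g1 g2 (fderiv ℝ φi x) x)
              ≤ 1 * (1 * G2 ent g1 g2 (fderiv ℝ φi x) x) := by
                refine mul_le_mul (hχ1 x) ?_ (mul_nonneg (wt_pos _ _ _ _).le h0) zero_le_one
                exact mul_le_mul_of_nonneg_right (wt_le_one _ _ _ _) h0
            _ = _ := by rw [one_mul, one_mul]
        · rw [indicator_of_notMem hx]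
          have : χ x = 0 := by
            by_contra hne
            exact hx (interior_subset (hχs (subset_tsupport _ hne)))
          simp only
          rw [this, zero_mul]
      have hk0 := hκ0 (ns i)
      calc Kψ * (1 / lam) * _ ≤ Kψ * (1 / lam) * ((κ (ns i) * lam) * C + (κ (ns i) * lam) * 2) := by
            gcongr
        _ = Kψ * (κ (ns i) * (C + 2)) := by field_simp
    have hz : Tendsto (fun i => Kψ * (κ (ns i) * (C + 2))) atTop (𝓝 0) := by
      have := (hκns.mul_const (C + 2)).const_mul Kψ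
      simpa using this
    exact squeeze_zero_norm (fun i => by rw [Real.norm_eq_abs]; exact hbound i) hz
  exact tendsto_nhds_unique hA hB

end Pool.Agent.Helper96.Dim
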