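import Pool.Agent.Helper96.Dim.Transl

/-!
# Boundary layers
-/

namespace Pool.Agent.Helper96.Dim

open MeasureTheory Filter Topology Set
open scoped ContDiff ENNReal

/-- The derivative of the smooth transition function. -/
noncomputable def st' (s : ℝ) : ℝ := deriv Real.smoothTransition s

lemma st'_nonneg (s : ℝ) : 0 ≤ st' s := Real.smoothTransition.monotone.deriv_nonneg

lemma continuous_st' : Continuous st' := by
  have h : ContDiff ℝ (⊤ : ℕ∞) Real.smoothTransition := Real.smoothTransition.contDiff
  exact h.continuous_deriv (by simp)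

lemma hasDerivAt_st (s : ℝ) : HasDerivAt Real.smoothTransition (st' s) s := by
  have h : ContDiff ℝ (⊤ : ℕ∞) Real.smoothTransition := Real.smoothTransition.contDiff
  exact ((h.differentiable (by simp)) s).hasDerivAt

lemma st'_zero_of_neg {s : ℝ} (hs : s < 0) : st' s = 0 := by
  have h1 : Real.smoothTransition =ᶠ[𝓝 s] fun _ => (0 : ℝ) := by
    filter_upwards [Iio_mem_nhds hs] with y hy
    exact Real.smoothTransition.zero_of_nonpos (le_of_lt hy)
  unfold st'
  rw [h1.deriv_eq, deriv_const]

lemma st'_zero_of_one_lt {s : ℝ} (hs : 1 < s) : st' s = 0 := by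
  have h1 : Real.smoothTransition =ᶠ[𝓝 s] fun _ => (1 : ℝ) := by
    filter_upwards [Ioi_mem_nhds hs] with y hy
    exact Real.smoothTransition.one_of_one_le (le_of_lt hy)
  unfold st'
  rw [h1.deriv_eq, deriv_const]

lemma st'_bound : ∃ C : ℝ, 0 ≤ C ∧ ∀ s, st' s ≤ C := by
  obtain ⟨C, hC⟩ := (isCompact_Icc.image (continuous_st') :
    IsCompact (st' '' Icc (0 : ℝ) 1)).bddAbove
  refine ⟨max C 0, le_max_right _ _, ?_⟩
  intro s
  by_cases h0 : s < 0
  · rw [st'_zero_of_neg h0]; exact le_max_right _ _
  · by_cases h1 : 1 < s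
    · rw [st'_zero_of_one_lt h1]; exact le_max_right _ _
    · exact (hC ⟨s, ⟨not_lt.mp h0, not_lt.mp h1⟩, rfl⟩).trans (le_max_left _ _)

/-- The layer lemma: averages over translated thin layers. -/
lemma layer {S : Set V} (hS : MeasurableSet S) (w : V) {p q ρ : ℝ}
    (hsep : ∀ y : V, ∀ s ∈ Icc p q, ∀ s' ∈ Icc p q, y - s • w ∈ S → y - s' • w ∈ S →
      |s - s'| ≤ ρ) {h : V → ℝ≥0∞} (hh : Measurable h) :
    ∫⁻ s in Icc p q, ∫⁻ x in S, h (x + s • w) ≤ ENNReal.ofReal ρ * ∫⁻ y, h y := by
  have h1 : ∀ s : ℝ, ∫⁻ x in S, h (x + s • w) =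
      ∫⁻ y, S.indicator (fun _ => (1 : ℝ≥0∞)) (y - s • w) * h y := by
    intro s
    rw [← lintegral_indicator hS]
    rw [← lintegral_add_right_eq_self
      (fun y => S.indicator (fun _ => (1 : ℝ≥0∞)) (y - s • w) * h y) (s • w)]
    refine lintegral_congr fun x => ?_
    rw [add_sub_cancel_right]
    by_cases hx : x ∈ S
    · rw [indicator_of_mem hx, indicator_of_mem hx, one_mul]
    · rw [indicator_of_notMem hx, indicator_of_notMem hx, zero_mul]
  have hmeas : Measurable (Function.uncurry fun (s : ℝ) (y : V) =>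
      S.indicator (fun _ => (1 : ℝ≥0∞)) (y - s • w) * h y) := by
    have h2 : Measurable (fun z : ℝ × V => z.2 - z.1 • w) := by
      have : Continuous (fun z : ℝ × V => z.2 - z.1 • w) := by fun_prop
      exact this.measurable
    have h3 : Measurable (S.indicator (fun _ => (1 : ℝ≥0∞))) := measurable_const.indicator hS
    exact (h3.comp h2).mul (hh.comp measurable_snd)
  calc ∫⁻ s in Icc p q, ∫⁻ x in S, h (x + s • w)
      = ∫⁻ s in Icc p q, ∫⁻ y, S.indicator (fun _ => (1 : ℝ≥0∞)) (y - s • w) * h y := by
        refine lintegral_congr fun s => ?_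
        exact h1 s
    _ = ∫⁻ y, ∫⁻ s in Icc p q, S.indicator (fun _ => (1 : ℝ≥0∞)) (y - s • w) * h y :=
        lintegral_lintegral_swap hmeas.aemeasurable
    _ ≤ ∫⁻ y, ENNReal.ofReal ρ * h y := by
        refine lintegral_mono fun y => ?_
        have h4 : Measurable fun s : ℝ => S.indicator (fun _ => (1 : ℝ≥0∞)) (y - s • w) := by
          have h2 : Measurable (fun s : ℝ => y - s • w) := by
            have : Continuous (fun s : ℝ => y - s • w) := by fun_prop
            exact this.measurable
          exact (measurable_const.indicator hS).comp h2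
        rw [lintegral_mul_const _ h4]
        gcongr
        -- the measure of the set of parameters
        set T : Set ℝ := (fun s : ℝ => y - s • w) ⁻¹' S with hT
        have h5 : (fun s : ℝ => S.indicator (fun _ => (1 : ℝ≥0∞)) (y - s • w)) =
            T.indicator (fun _ => (1 : ℝ≥0∞)) := by
          funext s
          by_cases hs : y - s • w ∈ S
          · rw [indicator_of_mem hs, indicator_of_mem (show s ∈ T from hs)]
          · rw [indicator_of_notMem hs, indicator_of_notMem (show s ∉ T from hs)]
        have hTm : MeasurableSet T := by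
          have : Continuous (fun s : ℝ => y - s • w) := by fun_prop
          exact this.measurable hS
        have h6 : ∫⁻ s in Icc p q, S.indicator (fun _ => (1 : ℝ≥0∞)) (y - s • w) =
            volume (T ∩ Icc p q) := by
          calc ∫⁻ s in Icc p q, S.indicator (fun _ => (1 : ℝ≥0∞)) (y - s • w)
              = ∫⁻ s in Icc p q, T.indicator (fun _ => (1 : ℝ≥0∞)) s := by
                refine lintegral_congr fun s => ?_
                exact congrFun h5 s
            _ = volume (T ∩ Icc p q) := by
                rw [lintegral_indicator_const hTm, one_mul, Measure.restrict_apply hTm]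
        rw [h6]
        refine (Real.volume_le_diam _).trans ?_
        refine Metric.ediam_le ?_
        intro s hs s' hs'
        rw [edist_dist, Real.dist_eq]
        exact ENNReal.ofReal_le_ofReal (hsep y s hs.2 s' hs'.2 hs.1 hs'.1)
    _ = ENNReal.ofReal ρ * ∫⁻ y, h y := lintegral_const_mul _ hh

/-- Invariance along a direction. -/
lemma shift_ae' {a : V → ℝ} (ha : Measurable a) {B : ℝ} (hB : ∀ x, |a x| ≤ B) {u : V}
    {O : Set V} (hO : IsOpen O) {s : ℝ}
    (hdiv : ∀ r ∈ Icc (0 : ℝ) 1, ∀ ψ, Test ψ → (∀ y ∈ tsupport ψ, y + (-(r * s)) • u ∈ O) →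
      ∫ x, a x * fderiv ℝ ψ x u = 0) :
    ∀ᵐ x, x ∈ O → a (x + s • u) = a x := by
  have hB0 : 0 ≤ B := (abs_nonneg _).trans (hB 0)
  have hav : Measurable (fun x => a (x + s • u)) := ha.comp (measurable_id.add_const _)
  have key : ∀ ψ : V → ℝ, ContDiff ℝ ∞ ψ → HasCompactSupport ψ → tsupport ψ ⊆ O →
      ∫ x, ψ x • (a (x + s • u) - a x) = 0 := by
    intro ψ hψc hψs hψO
    have hψ : Test ψ := ⟨hψc, hψs⟩
    obtain ⟨Kψ, hKψ0, hKψ⟩ := hψ.bound
    obtain ⟨Kψ', hKψ'0, hKψ'⟩ := hψ.bound'
    set Φ : ℝ → ℝ := fun r => ∫ x, a x * ψ (x + (-(r * s)) • u) with hΦ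
    set K' : Set V := Metric.cthickening (2 * (|s| * ‖u‖)) (tsupport ψ) with hK'
    have hK'c : IsCompact K' := hψs.isCompact.cthickening
    have hmem : ∀ r : ℝ, |r| ≤ 2 → ∀ x, x + (-(r * s)) • u ∈ tsupport ψ → x ∈ K' := by
      intro r hr x hx
      refine Metric.mem_cthickening_of_dist_le x _ _ _ hx ?_
      rw [dist_eq_norm]
      have : x - (x + (-(r * s)) • u) = (r * s) • u := by
        rw [neg_smul]; abel
      rw [this, norm_smul, Real.norm_eq_abs, abs_mul, mul_assoc]
      gcongr
    have hcont : ∀ r : ℝ, Continuous (fun x => ψ (x + (-(r * s)) • u)) := fun r =>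
      hψc.continuous.comp (continuous_id.add continuous_const)
    have hcont' : ∀ r : ℝ, Continuous (fun x => fderiv ℝ ψ (x + (-(r * s)) • u)) := fun r =>
      hψ.continuous_fderiv.comp (continuous_id.add continuous_const)
    have hderiv : ∀ r ∈ Icc (0 : ℝ) 1, HasDerivAt Φ 0 r := by
      intro r hr
      have h1 := hasDerivAt_integral_of_dominated_loc_of_deriv_le
        (μ := (volume : Measure V)) (F := fun (r : ℝ) (x : V) => a x * ψ (x + (-(r * s)) • u))
        (F' := fun (r : ℝ) (x : V) => a x * fderiv ℝ ψ (x + (-(r * s)) • u) ((-s) • u))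
        (x₀ := r) (s := Metric.ball r 1) (bound := K'.indicator (fun _ => B * (Kψ * (|s| * ‖u‖))))
        (Metric.ball_mem_nhds r one_pos) ?_ ?_ ?_ ?_ ?_ ?_
      · have h2 : ∫ x, a x * fderiv ℝ ψ (x + (-(r * s)) • u) ((-s) • u) = 0 := by
          have ht := hψ.translate ((-(r * s)) • u)
          have hts : ∀ y ∈ tsupport (fun x => ψ (x + (-(r * s)) • u)),
              y + (-(r * s)) • u ∈ O := by
            have h3 : tsupport (fun x => ψ (x + (-(r * s)) • u)) ⊆
                (fun x => x + (-(r * s)) • u) ⁻¹' (tsupport ψ) := by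
              refine closure_minimal ?_ ((isClosed_tsupport ψ).preimage (by fun_prop))
              intro x hx
              exact subset_tsupport _ hx
            intro x hx
            exact hψO (h3 hx)
          have h4 := hdiv r hr _ ht hts
          have h5 : ∀ x, a x * fderiv ℝ ψ (x + (-(r * s)) • u) ((-s) • u) =
              (-s) * (a x * fderiv ℝ (fun y => ψ (y + (-(r * s)) • u)) x u) := by
            intro x
            rw [fderiv_translate, map_smul, smul_eq_mul]
            ring
          rw [integral_congr_ae (Eventually.of_forall h5), integral_const_mul, h4, mul_zero]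
        have h3 := h1.2
        rw [h2] at h3
        exact h3
      · exact Eventually.of_forall fun r' =>
          (ha.mul (hcont r').measurable).aestronglyMeasurable
      · have ht := hψ.translate ((-(r * s)) • u)
        have := ht.integrable_mul ha hB
        refine this.congr (Eventually.of_forall fun x => ?_)
        simp only
        ring
      · exact (ha.mul (measurable_apply (hcont' r)
          (measurable_const (a := (-s) • u)))).aestronglyMeasurable
      · filter_upwards with x r' hr'
        have hr2 : |r'| ≤ 2 := by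
          rw [Metric.mem_ball, Real.dist_eq] at hr'
          have h2 := abs_lt.mp hr'
          rw [abs_le]
          constructor <;> linarith [hr.1, hr.2, h2.1, h2.2]
        by_cases hx : x + (-(r' * s)) • u ∈ tsupport ψ
        · rw [indicator_of_mem (hmem r' hr2 x hx), norm_mul, Real.norm_eq_abs]
          refine mul_le_mul (hB x) ?_ (norm_nonneg _) hB0
          refine (ContinuousLinearMap.le_opNorm _ _).trans ?_
          rw [norm_smul, Real.norm_eq_abs, abs_neg]
          exact mul_le_mul_of_nonneg_right (hKψ _) (by positivity)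
        · have h2 : fderiv ℝ ψ (x + (-(r' * s)) • u) = 0 := by
            have h3 : x + (-(r' * s)) • u ∉ tsupport (fderiv ℝ ψ) :=
              fun h => hx (tsupport_fderiv_subset ℝ h)
            exact image_eq_zero_of_notMem_tsupport h3
          rw [h2]
          simp only [zero_apply, mul_zero, norm_zero]
          exact indicator_nonneg (fun _ _ => by positivity) _
      · exact IntegrableOn.integrable_indicator
          (integrableOn_const hK'c.measure_lt_top.ne) hK'c.measurableSet
      · filter_upwards with x r' hr'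
        have h2 : HasDerivAt (fun r : ℝ => x + (-(r * s)) • u) ((-s) • u) r' := by
          have h3 : HasDerivAt (fun r : ℝ => (-(r * s)) • u) ((-(1 * s)) • u) r' :=
            (((hasDerivAt_id r').mul_const s).neg).smul_const u
          rw [one_mul] at h3
          exact h3.const_add x
        exact ((hψ.differentiable _).hasFDerivAt.comp_hasDerivAt r' h2).const_mul (a x)
    have hconst : Φ 1 = Φ 0 := by
      obtain ⟨c, hc, hc'⟩ := exists_hasDerivAt_eq_slope Φ (fun _ => (0 : ℝ))
        (show (0 : ℝ) < 1 by norm_num)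
        (fun τ hτ => (hderiv τ hτ).continuousAt.continuousWithinAt)
        (fun τ hτ => hderiv τ ⟨hτ.1.le, hτ.2.le⟩)
      have h1 : (Φ 1 - Φ 0) / (1 - 0) = Φ 1 - Φ 0 := by ring
      rw [h1] at hc'
      linarith
    have h0 : Φ 0 = ∫ x, ψ x * a x := by
      simp only [hΦ]
      refine integral_congr_ae (Eventually.of_forall fun x => ?_)
      simp [mul_comm]
    have h1 : Φ 1 = ∫ x, ψ x * a (x + s • u) := by
      simp only [hΦ]
      rw [← integral_add_right_eq_self _ (s • u)]
      refine integral_congr_ae (Eventually.of_forall fun x => ?_)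
      simp only [one_mul]
      have h2 : x + s • u + (-s) • u = x := by rw [neg_smul]; abel
      rw [h2]
      ring
    have hi1 : Integrable (fun x => ψ x * a (x + s • u)) := hψ.integrable_mul hav fun x => hB _
    have hi0 : Integrable (fun x => ψ x * a x) := hψ.integrable_mul ha hB
    have h2 : ∫ x, ψ x • (a (x + s • u) - a x) = (∫ x, ψ x * a (x + s • u)) -
        ∫ x, ψ x * a x := by
      rw [← integral_sub hi1 hi0]
      refine integral_congr_ae (Eventually.of_forall fun x => ?_)
      simp only [smul_eq_mul]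
      ring
    rw [h2, ← h1, ← h0, hconst, sub_self]
  have hloc : LocallyIntegrableOn (fun x => a (x + s • u) - a x) O volume := by
    refine LocallyIntegrable.locallyIntegrableOn ?_ O
    refine (locallyIntegrable_const (B + B)).mono (hav.sub ha).aestronglyMeasurable ?_
    filter_upwards with x
    rw [Real.norm_eq_abs, Real.norm_eq_abs, abs_of_nonneg (show 0 ≤ B + B by linarith)]
    exact (abs_sub _ _).trans (add_le_add (hB _) (hB _))
  have h1 := hO.ae_eq_zero_of_integral_contDiff_smul_eq_zero hloc key
  filter_upwards [h1] with x hx hxO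
  exact sub_eq_zero.mp (hx hxO)

/-- Invariance along a direction inside an open set. -/
lemma shift_ae {a : V → ℝ} (ha : Measurable a) {B : ℝ} (hB : ∀ x, |a x| ≤ B) {u : V}
    {U : Set V} (hdiv : ∀ ψ, Test ψ → tsupport ψ ⊆ U → ∫ x, a x * fderiv ℝ ψ x u = 0)
    {O : Set V} (hO : IsOpen O) {s : ℝ}
    (hseg : ∀ x ∈ O, ∀ r ∈ Icc (0 : ℝ) 1, x + (r * s) • u ∈ U) :
    ∀ᵐ x, x ∈ O → a (x + s • u) = a x := by
  refine shift_ae' ha hB hO fun r hr ψ hψ hψs => hdiv ψ hψ ?_
  intro y hy
  have h4 := hseg _ (hψs y hy) r hr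
  have h5 : y + (-(r * s)) • u + (r * s) • u = y := by
    rw [neg_smul]; abel
  rw [h5] at h4
  exact h4

/-- Smooth approximation in `L¹`. -/
lemma exists_smooth_approx {a : V → ℝ} (ha : Integrable a) {ε : ℝ} (hε : 0 < ε) :
    ∃ A : V → ℝ, Test A ∧ ∫⁻ x, ENNReal.ofReal |A x - a x| ≤ ENNReal.ofReal ε := by
  have h1 : MemLp a 1 volume := memLp_one_iff_integrable.mpr ha
  obtain ⟨A, hA1, hA2, hA3⟩ := h1.exist_eLpNorm_sub_le (by simp) le_rfl hε
  refine ⟨A, ⟨hA2, hA1⟩, ?_⟩
  rw [eLpNorm_one_eq_lintegral_enorm] at hA3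
  refine le_trans (le_of_eq ?_) hA3
  refine lintegral_congr fun x => ?_
  rw [← ofReal_norm, Real.norm_eq_abs, Pi.sub_apply, abs_sub_comm]

end Pool.Agent.Helper96.Dim
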