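import Pool.Agent.Helper96.Dim.Dir

/-!
# The Legendre transform of the entropy and the duality gap
-/

namespace Pool.Agent.Helper96.Dim

open MeasureTheory Filter Topology Set

variable {ent : V → ℝ}

/-- The Legendre transform of the entropy. -/
noncomputable def Hf (ent : V → ℝ) (L : V →L[ℝ] ℝ) : ℝ := sSup ((fun s => ent s + L s) '' Oct)

lemma cont_aux (h : EntHyp ent) (L : V →L[ℝ] ℝ) : ContinuousOn (fun s => ent s + L s) Oct :=
  h.cont.add L.continuous.continuousOn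

lemma Hf_bdd (h : EntHyp ent) (L : V →L[ℝ] ℝ) : BddAbove ((fun s => ent s + L s) '' Oct) :=
  (isCompact_Oct.image_of_continuousOn (cont_aux h L)).bddAbove

lemma le_Hf (h : EntHyp ent) (L : V →L[ℝ] ℝ) {s : V} (hs : s ∈ Oct) :
    ent s + L s ≤ Hf ent L :=
  le_csSup (Hf_bdd h L) ⟨s, hs, rfl⟩

lemma exists_Hf (h : EntHyp ent) (L : V →L[ℝ] ℝ) : ∃ s ∈ Oct, Hf ent L = ent s + L s := by
  obtain ⟨s, hs, hmax⟩ := isCompact_Oct.exists_isMaxOn ⟨0, zero_mem_Oct⟩ (cont_aux h L)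
  refine ⟨s, hs, le_antisymm ?_ (le_Hf h L hs)⟩
  refine csSup_le ⟨_, ⟨s, hs, rfl⟩⟩ ?_
  rintro _ ⟨t, ht, rfl⟩
  exact hmax ht

lemma Hf_le (h : EntHyp ent) (L L' : V →L[ℝ] ℝ) : Hf ent L ≤ Hf ent L' + ‖L - L'‖ := by
  obtain ⟨s, hs, he⟩ := exists_Hf h L
  have h1 := le_Hf h L' hs
  have h2 : L s - L' s ≤ ‖L - L'‖ := by
    calc L s - L' s = (L - L') s := rfl
      _ ≤ ‖(L - L') s‖ := Real.le_norm_self _
      _ ≤ ‖L - L'‖ * ‖s‖ := (L - L').le_opNorm s
      _ ≤ ‖L - L'‖ * 1 := by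
        have := norm_le_one hs
        gcongr
      _ = ‖L - L'‖ := mul_one _
  rw [he]
  linarith

lemma Hf_lip (h : EntHyp ent) (L L' : V →L[ℝ] ℝ) : |Hf ent L - Hf ent L'| ≤ ‖L - L'‖ := by
  rw [abs_le]
  have h1 := Hf_le h L L'
  have h2 := Hf_le h L' L
  rw [norm_sub_rev] at h2
  constructor <;> linarith

lemma continuous_Hf (h : EntHyp ent) : Continuous (Hf ent) := by
  have : LipschitzWith 1 (Hf ent) := by
    refine LipschitzWith.of_dist_le_mul fun L L' => ?_
    rw [Real.dist_eq, dist_eq_norm, NNReal.coe_one, one_mul]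
    exact Hf_lip h L L'
  exact this.continuous

/-- The duality gap. -/
noncomputable def Gap (ent : V → ℝ) (L : V →L[ℝ] ℝ) (s : V) : ℝ := Hf ent L - L s - ent s

lemma Gap_nonneg (h : EntHyp ent) (L : V →L[ℝ] ℝ) {s : V} (hs : s ∈ Oct) : 0 ≤ Gap ent L s := by
  have := le_Hf h L hs
  unfold Gap
  linarith

/-- Boundedness of the entropy. -/
lemma EntHyp.bound (h : EntHyp ent) : ∃ B : ℝ, 0 ≤ B ∧ ∀ s ∈ Oct, |ent s| ≤ B := by
  obtain ⟨B, hB⟩ := (isCompact_Oct.image_of_continuousOn h.cont.abs).bddAbove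
  refine ⟨B, ?_, fun s hs => hB ⟨s, hs, rfl⟩⟩
  exact (abs_nonneg _).trans (hB ⟨0, zero_mem_Oct, rfl⟩)

/-- The gap at the two ends of a flow difference along the difference. -/
lemma gap_parallel (h : EntHyp ent) {s t : V} (hc : CommonEdge s t) (L : V →L[ℝ] ℝ) :
    |L (s - t)| ≤ Gap ent L s + Gap ent L t := by
  have hs := edges_subset hc.mem_left
  have ht := edges_subset hc.mem_right
  have h1 := Gap_nonneg h L hs
  have h2 := Gap_nonneg h L ht
  have h3 : L (s - t) = Gap ent L t - Gap ent L s := by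
    unfold Gap
    rw [h.zero _ hc.mem_left, h.zero _ hc.mem_right, map_sub]
    ring
  rw [h3, abs_le]
  constructor <;> linarith

/-- The midpoint of two points of an edge is on this edge. -/
lemma CommonEdge.mid_mem {s t : V} (h : CommonEdge s t) :
    (1 / 2 : ℝ) • s + (1 / 2 : ℝ) • t ∈ Edges := by
  obtain ⟨h1, h2, h3, k, hk, hk'⟩ := h
  have habs : ∀ x y : ℝ, 0 ≤ x * y → |1 / 2 * x + 1 / 2 * y| = 1 / 2 * |x| + 1 / 2 * |y| := by
    intro x y hxy
    have h7 : |x + y| = |x| + |y| := by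
      rw [abs_add_eq_add_abs_iff]
      rcases le_total 0 x with hx | hx
      · rcases le_total 0 y with hy | hy
        · exact Or.inl ⟨hx, hy⟩
        · have : x * y ≤ 0 := mul_nonpos_of_nonneg_of_nonpos hx hy
          have h0 : x * y = 0 := le_antisymm this hxy
          rcases mul_eq_zero.mp h0 with h0 | h0
          · right; exact ⟨h0.le, hy⟩
          · left; exact ⟨hx, h0.ge⟩
      · rcases le_total 0 y with hy | hy
        · have : x * y ≤ 0 := mul_nonpos_of_nonpos_of_nonneg hx hy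
          have h0 : x * y = 0 := le_antisymm this hxy
          rcases mul_eq_zero.mp h0 with h0 | h0
          · left; exact ⟨h0.ge, hy⟩
          · right; exact ⟨hx, h0.le⟩
        · exact Or.inr ⟨hx, hy⟩
    rw [← mul_add, abs_mul, h7, abs_of_pos (by norm_num : (0 : ℝ) < 1 / 2)]; ring
  apply mem_edges_of_coord
  · unfold l1
    simp only [Pi.add_apply, Pi.smul_apply, smul_eq_mul]
    rw [habs _ _ (h3 0), habs _ _ (h3 1), habs _ _ (h3 2)]
    have e1 : |s 0| + |s 1| + |s 2| = 1 := h1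
    have e2 : |t 0| + |t 1| + |t 2| = 1 := h2
    linarith
  · have h5 : ((1 / 2 : ℝ) • s + (1 / 2 : ℝ) • t) k = 0 := by simp [hk, hk']
    fin_cases k
    · exact Or.inl h5
    · exact Or.inr (Or.inl h5)
    · exact Or.inr (Or.inr h5)

/-- The lower bound for the derivative of the potential in the directions which are not parallel
to the difference. -/
lemma gap_push (h : EntHyp ent) {s t : V} (hc : CommonEdge s t) (hst : s ≠ t) (j : Fin 6)
    (hj : ¬ ∃ a : ℝ, s - t = a • dir j) :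
    ∃ κ : ℝ, 0 < κ ∧ ∃ η : ℝ, 0 < η ∧ ∃ ε : ℝ, (ε = 1 ∨ ε = -1) ∧ ∀ L : V →L[ℝ] ℝ,
      (η - (Gap ent L s + Gap ent L t)) ≤ κ * (ε * L (dir j)) := by
  obtain ⟨κ, hκ, ε, hε, hq⟩ := push hc hst j hj
  refine ⟨κ, hκ, ent (((1 / 2 : ℝ) • s + (1 / 2 : ℝ) • t) - (κ * ε) • dir j), h.pos hq, ε, hε, ?_⟩
  intro L
  have h1 := le_Hf h L hq.1
  have hs := edges_subset hc.mem_left
  have ht := edges_subset hc.mem_right
  have h2 := Gap_nonneg h L hs
  have h3 := Gap_nonneg h L ht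
  rw [map_sub, map_add, map_smul, map_smul, map_smul] at h1
  have e1 : Gap ent L s = Hf ent L - L s := by
    unfold Gap; rw [h.zero _ hc.mem_left]; ring
  have e2 : Gap ent L t = Hf ent L - L t := by
    unfold Gap; rw [h.zero _ hc.mem_right]; ring
  rw [e1] at h2 ⊢
  rw [e2] at h3 ⊢
  simp only [smul_eq_mul] at h1
  nlinarith

end Pool.Agent.Helper96.Dim
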