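import Pool.Agent.Helper96.Dim.Def

/-!
# The octahedron: faces, positivity of the entropy, strictness of the midpoint inequality
-/

namespace Pool.Agent.Helper96.Dim

open MeasureTheory Filter Topology Set

/-- The `ℓ¹` norm. -/
def l1 (s : V) : ℝ := |s 0| + |s 1| + |s 2|

lemma mem_Oct {s : V} : s ∈ Oct ↔ l1 s ≤ 1 := Iff.rfl

lemma l1_nonneg (s : V) : 0 ≤ l1 s := by unfold l1; positivity

lemma continuous_l1 : Continuous l1 := by
  unfold l1
  fun_prop

lemma isClosed_Oct : IsClosed Oct := isClosed_le continuous_l1 continuous_const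

lemma norm_le_l1 (s : V) : ‖s‖ ≤ l1 s := by
  rw [pi_norm_le_iff_of_nonneg (l1_nonneg s)]
  intro i
  rw [Real.norm_eq_abs]
  unfold l1
  fin_cases i
  · simp only [Fin.zero_eta]
    linarith [abs_nonneg (s 1), abs_nonneg (s 2)]
  · simp only [Fin.mk_one]
    linarith [abs_nonneg (s 0), abs_nonneg (s 2)]
  · simp only [Fin.reduceFinMk]
    linarith [abs_nonneg (s 0), abs_nonneg (s 1)]

lemma norm_le_one {s : V} (hs : s ∈ Oct) : ‖s‖ ≤ 1 := (norm_le_l1 s).trans hs

lemma isCompact_Oct : IsCompact Oct := by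
  refine Metric.isCompact_of_isClosed_isBounded isClosed_Oct ?_
  refine (Metric.isBounded_closedBall (x := (0 : V)) (r := 1)).subset ?_
  intro s hs
  rw [mem_closedBall_zero_iff]
  exact norm_le_one hs

lemma zero_mem_Oct : (0 : V) ∈ Oct := by
  rw [mem_Oct]; simp [l1]

lemma l1_add_smul (a b : ℝ) (ha : 0 ≤ a) (hb : 0 ≤ b) (s t : V) :
    l1 (a • s + b • t) ≤ a * l1 s + b * l1 t := by
  unfold l1
  simp only [Pi.add_apply, Pi.smul_apply, smul_eq_mul]
  have h : ∀ x y : ℝ, |a * x + b * y| ≤ a * |x| + b * |y| := by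
    intro x y
    calc |a * x + b * y| ≤ |a * x| + |b * y| := abs_add_le _ _
      _ = a * |x| + b * |y| := by rw [abs_mul, abs_mul, abs_of_nonneg ha, abs_of_nonneg hb]
  nlinarith [h (s 0) (t 0), h (s 1) (t 1), h (s 2) (t 2)]

lemma convex_Oct : Convex ℝ Oct := by
  intro s hs t ht a b ha hb hab
  rw [mem_Oct] at *
  calc l1 (a • s + b • t) ≤ a * l1 s + b * l1 t := l1_add_smul a b ha hb s t
    _ ≤ a * 1 + b * 1 := by gcongr
    _ = 1 := by linarith

/-- On an edge: some coordinate vanishes and the `ℓ¹` norm is one. -/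
lemma edges_coord {s : V} (hs : s ∈ Edges) : l1 s = 1 ∧ (s 0 = 0 ∨ s 1 = 0 ∨ s 2 = 0) := by
  obtain ⟨i, j, σ, τ, hij, hσ, hτ, a, b, ha, hb, hab, rfl⟩ := hs
  have h1 : |σ| = 1 := by rcases hσ with rfl | rfl <;> simp
  have h2 : |τ| = 1 := by rcases hτ with rfl | rfl <;> simp
  have h3 : |a| = a := abs_of_nonneg ha
  have h4 : |b| = b := abs_of_nonneg hb
  unfold l1
  fin_cases i <;> fin_cases j <;>
    first
    | (exact absurd rfl hij)
    | (simp [abs_mul, h1, h2, h3, h4]; linarith)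

lemma mem_edges_of_coord {s : V} (h1 : l1 s = 1) (h0 : s 0 = 0 ∨ s 1 = 0 ∨ s 2 = 0) :
    s ∈ Edges := by
  have key : ∀ x : ℝ, ∃ σ : ℝ, (σ = 1 ∨ σ = -1) ∧ x = |x| * σ := by
    intro x
    rcases le_total 0 x with hx | hx
    · exact ⟨1, Or.inl rfl, by rw [abs_of_nonneg hx, mul_one]⟩
    · exact ⟨-1, Or.inr rfl, by rw [abs_of_nonpos hx]; ring⟩
  unfold l1 at h1
  rcases h0 with h0 | h0 | h0
  · obtain ⟨σ, hσ, h⟩ := key (s 1)
    obtain ⟨τ, hτ, h'⟩ := key (s 2)
    refine ⟨1, 2, σ, τ, by decide, hσ, hτ, |s 1|, |s 2|, abs_nonneg _, abs_nonneg _, ?_, ?_⟩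
    · rw [h0] at h1; simpa using h1
    · ext i
      fin_cases i
      · simp [Pi.single_apply, h0]
      · simpa [Pi.single_apply] using h.symm
      · simpa [Pi.single_apply] using h'.symm
  · obtain ⟨σ, hσ, h⟩ := key (s 0)
    obtain ⟨τ, hτ, h'⟩ := key (s 2)
    refine ⟨0, 2, σ, τ, by decide, hσ, hτ, |s 0|, |s 2|, abs_nonneg _, abs_nonneg _, ?_, ?_⟩
    · rw [h0] at h1; simpa using h1
    · ext i
      fin_cases i
      · simpa [Pi.single_apply] using h.symm
      · simp [Pi.single_apply, h0]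
      · simpa [Pi.single_apply] using h'.symm
  · obtain ⟨σ, hσ, h⟩ := key (s 0)
    obtain ⟨τ, hτ, h'⟩ := key (s 1)
    refine ⟨0, 1, σ, τ, by decide, hσ, hτ, |s 0|, |s 1|, abs_nonneg _, abs_nonneg _, ?_, ?_⟩
    · rw [h0] at h1; simpa using h1
    · ext i
      fin_cases i
      · simpa [Pi.single_apply] using h.symm
      · simpa [Pi.single_apply] using h'.symm
      · simp [Pi.single_apply, h0]

lemma mem_edges_iff {s : V} : s ∈ Edges ↔ l1 s = 1 ∧ (s 0 = 0 ∨ s 1 = 0 ∨ s 2 = 0) :=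
  ⟨edges_coord, fun h => mem_edges_of_coord h.1 h.2⟩

/-- The hypotheses on the entropy. -/
structure EntHyp (ent : V → ℝ) : Prop where
  cont : ContinuousOn ent Oct
  strict : StrictConcaveOn ℝ (Oct \ Edges) ent
  zero : ∀ s ∈ Edges, ent s = 0

variable {ent : V → ℝ}

lemma smul_mem_diff {s : V} (hs : s ∈ Oct) {r : ℝ} (h0 : 0 ≤ r) (h1 : r < 1) :
    r • s ∈ Oct \ Edges := by
  have h : l1 (r • s) = r * l1 s := by
    unfold l1
    simp only [Pi.smul_apply, smul_eq_mul, abs_mul, abs_of_nonneg h0]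
    ring
  have h2 : l1 (r • s) < 1 := by
    rw [h]
    calc r * l1 s ≤ r * 1 := by gcongr; exact hs
      _ < 1 := by linarith
  refine ⟨h2.le, fun h3 => ?_⟩
  rw [(edges_coord h3).1] at h2
  exact lt_irrefl _ h2

/-- The entropy is concave on the octahedron. -/
lemma EntHyp.concave (h : EntHyp ent) : ConcaveOn ℝ Oct ent := by
  refine ⟨convex_Oct, ?_⟩
  intro s hs t ht a b ha hb hab
  have hst : a • s + b • t ∈ Oct := convex_Oct hs ht ha hb hab
  -- scaled points
  have hlim : ∀ z ∈ Oct, Tendsto (fun r : ℝ => ent (r • z)) (𝓝[Ico (0 : ℝ) 1] 1) (𝓝 (ent z)) := by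
    intro z hz
    have h1 : Tendsto (fun r : ℝ => r • z) (𝓝[Ico (0 : ℝ) 1] 1) (𝓝[Oct] z) := by
      refine tendsto_nhdsWithin_of_tendsto_nhds_of_eventually_within _ ?_ ?_
      · have : Continuous (fun r : ℝ => r • z) := by fun_prop
        have h2 := (this.tendsto 1).mono_left (nhdsWithin_le_nhds (s := Ico (0 : ℝ) 1))
        simpa using h2
      · filter_upwards [self_mem_nhdsWithin] with r hr
        exact (smul_mem_diff hz hr.1 hr.2).1
    exact (h.cont z hz).tendsto.comp h1
  have hne : (𝓝[Ico (0 : ℝ) 1] (1 : ℝ)).NeBot := by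
    have : (𝓝[Iio (1 : ℝ)] (1 : ℝ)).NeBot := inferInstance
    refine this.mono ?_
    refine (nhdsWithin_Ico_eq_nhdsLT (show (0 : ℝ) < 1 by norm_num)).ge
  refine le_of_tendsto_of_tendsto
    (((hlim s hs).const_smul a).add ((hlim t ht).const_smul b)) (hlim _ hst) ?_
  filter_upwards [self_mem_nhdsWithin] with r hr
  have h1 := h.strict.concaveOn.2 (smul_mem_diff hs hr.1 hr.2) (smul_mem_diff ht hr.1 hr.2)
    ha hb hab
  have h2 : r • (a • s + b • t) = a • (r • s) + b • (r • t) := by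
    rw [smul_add, smul_comm r a, smul_comm r b]
  rw [h2]
  exact h1

lemma single_mem_edges (i : Fin 3) {σ : ℝ} (hσ : σ = 1 ∨ σ = -1) : (Pi.single i σ : V) ∈ Edges := by
  have h2 : ∃ j : Fin 3, i ≠ j := by
    fin_cases i
    · exact ⟨1, by decide⟩
    · exact ⟨0, by decide⟩
    · exact ⟨0, by decide⟩
  obtain ⟨j, hj⟩ := h2
  exact ⟨i, j, σ, 1, hj, hσ, Or.inl rfl, left_mem_segment ℝ _ _⟩

lemma edges_subset : Edges ⊆ Oct := fun s hs => (edges_coord hs).1.le

/-- The entropy is nonnegative. -/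
lemma EntHyp.nonneg (h : EntHyp ent) {s : V} (hs : s ∈ Oct) : 0 ≤ ent s := by
  set c : ℝ := (1 - l1 s) / 6 with hc
  have hc0 : 0 ≤ c := by
    have : l1 s ≤ 1 := hs
    rw [hc]; linarith
  let w : Fin 3 × Bool → ℝ := fun p => (if p.2 then max (s p.1) 0 else max (-(s p.1)) 0) + c
  let P : Fin 3 × Bool → V := fun p => Pi.single p.1 (if p.2 then 1 else -1)
  have hPe : ∀ p, P p ∈ Edges := by
    intro p
    apply single_mem_edges
    cases p.2 <;> simp
  have hw0 : ∀ p ∈ (Finset.univ : Finset (Fin 3 × Bool)), 0 ≤ w p := by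
    intro p _
    have h1 : 0 ≤ (if p.2 then max (s p.1) 0 else max (-(s p.1)) 0) := by
      split_ifs <;> exact le_max_right _ _
    exact add_nonneg h1 hc0
  have habs : ∀ x : ℝ, max x 0 + max (-x) 0 = |x| := by
    intro x
    rcases le_total 0 x with hx | hx
    · rw [max_eq_left hx, max_eq_right (by linarith), abs_of_nonneg hx, add_zero]
    · rw [max_eq_right hx, max_eq_left (by linarith), abs_of_nonpos hx, zero_add]
  have hdiff : ∀ x : ℝ, max x 0 - max (-x) 0 = x := by
    intro x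
    rcases le_total 0 x with hx | hx
    · rw [max_eq_left hx, max_eq_right (by linarith), sub_zero]
    · rw [max_eq_right hx, max_eq_left (by linarith)]; ring
  have hw1 : ∑ p, w p = 1 := by
    simp only [w, Fintype.sum_prod_type, Fintype.sum_bool, Fin.sum_univ_three, if_true,
      Bool.false_eq_true, if_false]
    have h0 := habs (s 0)
    have h1 := habs (s 1)
    have h2 := habs (s 2)
    have h3 : l1 s = |s 0| + |s 1| + |s 2| := rfl
    rw [h3] at hc
    linarith
  have hs' : ∑ p, w p • P p = s := by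
    ext i
    simp only [w, P, Fintype.sum_prod_type, Fintype.sum_bool, Fin.sum_univ_three, if_true,
      Bool.false_eq_true, if_false, Finset.sum_apply, Pi.smul_apply, Pi.add_apply, smul_eq_mul]
    have h0 := hdiff (s 0)
    have h1 := hdiff (s 1)
    have h2 := hdiff (s 2)
    fin_cases i
    · simp [Pi.single_apply]; linarith
    · simp [Pi.single_apply]; linarith
    · simp [Pi.single_apply]; linarith
  have h1 := h.concave.le_map_sum hw0 hw1 (fun p _ => edges_subset (hPe p))
  rw [hs'] at h1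
  refine le_trans ?_ h1
  refine Finset.sum_nonneg fun p _ => ?_
  rw [h.zero _ (hPe p), smul_zero]

/-- If `q ± d` are two different points of the octahedron off the edges, the entropy at `q`
is positive. -/
lemma EntHyp.pos_of (h : EntHyp ent) {q d : V} (hd : d ≠ 0) (h1 : q + d ∈ Oct \ Edges)
    (h2 : q - d ∈ Oct \ Edges) : 0 < ent q := by
  have hne : q + d ≠ q - d := by
    intro he
    apply hd
    have : (2 : ℝ) • d = 0 := by
      rw [two_smul]
      have := congrArg (fun z => z - (q - d)) he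
      simp only [sub_self] at this
      rw [← this]; abel
    simpa using this
  have h3 := h.strict.2 h1 h2 hne (show (0 : ℝ) < 1 / 2 by norm_num)
    (show (0 : ℝ) < 1 / 2 by norm_num) (by norm_num)
  have h4 : (1 / 2 : ℝ) • (q + d) + (1 / 2 : ℝ) • (q - d) = q := by
    rw [← smul_add, add_add_sub_cancel, ← two_smul ℝ q, smul_smul]
    norm_num
  rw [h4] at h3
  refine lt_of_le_of_lt ?_ h3
  have := h.nonneg h1.1
  have := h.nonneg h2.1
  simp only [smul_eq_mul]
  linarith

/-- The entropy is positive off the edges. -/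
lemma EntHyp.pos (h : EntHyp ent) {q : V} (hq : q ∈ Oct \ Edges) : 0 < ent q := by
  have hq1 : l1 q ≤ 1 := hq.1
  by_cases hl : l1 q < 1
  · -- interior
    set δ : ℝ := (1 - l1 q) / 2 with hδ
    have hδ0 : 0 < δ := by rw [hδ]; linarith
    have hl1 : ∀ e : ℝ, |e| = 1 → l1 (q + (e * δ) • (Pi.single 0 1 : V)) < 1 := by
      intro e he
      have h1 : |q 0 + e * δ| ≤ |q 0| + δ := by
        calc |q 0 + e * δ| ≤ |q 0| + |e * δ| := abs_add_le _ _
          _ = |q 0| + δ := by rw [abs_mul, he, one_mul, abs_of_pos hδ0]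
      have h3 : l1 q = |q 0| + |q 1| + |q 2| := rfl
      unfold l1
      simp [Pi.single_apply]
      rw [h3] at hδ
      linarith
    refine h.pos_of (d := δ • (Pi.single 0 1 : V)) ?_ ?_ ?_
    · intro hz
      have := congrFun hz 0
      simp at this
      linarith
    · have h1 := hl1 1 (by simp)
      rw [one_mul] at h1
      exact ⟨h1.le, fun h2 => by rw [(edges_coord h2).1] at h1; exact lt_irrefl _ h1⟩
    · have h1 := hl1 (-1) (by simp)
      have h5 : q + (-1 * δ) • (Pi.single 0 1 : V) = q - δ • (Pi.single 0 1 : V) := by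
        rw [neg_mul, one_mul, neg_smul, sub_eq_add_neg]
      rw [h5] at h1
      exact ⟨h1.le, fun h2 => by rw [(edges_coord h2).1] at h1; exact lt_irrefl _ h1⟩
  · -- in a face, all coordinates different from zero
    have hl' : l1 q = 1 := le_antisymm hq1 (not_lt.mp hl)
    have hc : q 0 ≠ 0 ∧ q 1 ≠ 0 ∧ q 2 ≠ 0 := by
      by_contra hcon
      apply hq.2
      apply mem_edges_of_coord hl'
      tauto
    obtain ⟨hc0, hc1, hc2⟩ := hc
    have hl3 : |q 0| + |q 1| + |q 2| = 1 := hl'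
    set δ : ℝ := min |q 0| |q 1| / 2 with hδ
    have hp0 : 0 < |q 0| := abs_pos.mpr hc0
    have hp1 : 0 < |q 1| := abs_pos.mpr hc1
    have hδ0 : 0 < δ := by rw [hδ]; positivity
    have hδ1 : δ < |q 0| := by
      have := min_le_left |q 0| |q 1|
      rw [hδ]; linarith
    have hδ2 : δ < |q 1| := by
      have := min_le_right |q 0| |q 1|
      rw [hδ]; linarith
    -- direction keeping the `ℓ¹` norm
    have hscale : ∀ (x r : ℝ), -1 < r → |x * (1 + r)| = |x| * (1 + r) := by
      intro x r hr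
      rw [abs_mul, abs_of_pos (show (0:ℝ) < 1 + r by linarith)]
    let d : V := ![q 0 * (δ / |q 0|), -(q 1 * (δ / |q 1|)), 0]
    have hr0 : δ / |q 0| < 1 := by rw [div_lt_one hp0]; exact hδ1
    have hr1 : δ / |q 1| < 1 := by rw [div_lt_one hp1]; exact hδ2
    have hr0' : 0 < δ / |q 0| := by positivity
    have hr1' : 0 < δ / |q 1| := by positivity
    have hm0 : |q 0| * (δ / |q 0|) = δ := by field_simp
    have hm1 : |q 1| * (δ / |q 1|) = δ := by field_simp
    have hplus : (q + d) 0 = q 0 * (1 + δ / |q 0|) ∧ (q + d) 1 = q 1 * (1 + -(δ / |q 1|)) ∧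
        (q + d) 2 = q 2 := by
      refine ⟨?_, ?_, ?_⟩
      · simp [d]; ring
      · simp [d]; ring
      · simp [d]
    have hminus : (q - d) 0 = q 0 * (1 + -(δ / |q 0|)) ∧ (q - d) 1 = q 1 * (1 + (δ / |q 1|)) ∧
        (q - d) 2 = q 2 := by
      refine ⟨?_, ?_, ?_⟩
      · simp [d]; ring
      · simp [d]; ring
      · simp [d]
    refine h.pos_of (d := d) ?_ ?_ ?_
    · intro hz
      have := congrFun hz 0
      simp [d] at this
      rcases this with h1 | h1 | h1
      · exact hc0 h1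
      · linarith
      · exact hc0 h1
    · obtain ⟨e0, e1, e2⟩ := hplus
      have hl4 : l1 (q + d) = 1 := by
        unfold l1
        rw [e0, e1, e2, hscale _ _ (by linarith), hscale _ _ (by linarith)]
        nlinarith
      refine ⟨hl4.le, fun h2 => ?_⟩
      rcases (edges_coord h2).2 with h3 | h3 | h3
      · rw [e0] at h3
        rcases mul_eq_zero.mp h3 with h4 | h4
        · exact hc0 h4
        · linarith
      · rw [e1] at h3
        rcases mul_eq_zero.mp h3 with h4 | h4
        · exact hc1 h4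
        · linarith
      · rw [e2] at h3; exact hc2 h3
    · obtain ⟨e0, e1, e2⟩ := hminus
      have hl4 : l1 (q - d) = 1 := by
        unfold l1
        rw [e0, e1, e2, hscale _ _ (by linarith), hscale _ _ (by linarith)]
        nlinarith
      refine ⟨hl4.le, fun h2 => ?_⟩
      rcases (edges_coord h2).2 with h3 | h3 | h3
      · rw [e0] at h3
        rcases mul_eq_zero.mp h3 with h4 | h4
        · exact hc0 h4
        · linarith
      · rw [e1] at h3
        rcases mul_eq_zero.mp h3 with h4 | h4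
        · exact hc1 h4
        · linarith
      · rw [e2] at h3; exact hc2 h3

/-- Two points on a common edge. -/
def CommonEdge (s t : V) : Prop :=
  l1 s = 1 ∧ l1 t = 1 ∧ (∀ i, 0 ≤ s i * t i) ∧ ∃ k, s k = 0 ∧ t k = 0

/-- If a point strictly between `s` and `t` is on an edge then `s` and `t` are on this edge. -/
lemma commonEdge_of_quarter {s t : V} (hs : s ∈ Oct) (ht : t ∈ Oct) {a b : ℝ} (ha : 0 < a)
    (hb : 0 < b) (hab : a + b = 1) (hq : a • s + b • t ∈ Edges) : CommonEdge s t := by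
  obtain ⟨h1, h2⟩ := edges_coord hq
  have hs' : l1 s ≤ 1 := hs
  have ht' : l1 t ≤ 1 := ht
  have hle := l1_add_smul a b ha.le hb.le s t
  have hs1 : l1 s = 1 := by
    by_contra hne
    have : l1 s < 1 := lt_of_le_of_ne hs' hne
    nlinarith
  have ht1 : l1 t = 1 := by
    by_contra hne
    have : l1 t < 1 := lt_of_le_of_ne ht' hne
    nlinarith
  -- equality in the coordinatewise triangle inequalities
  have htri : ∀ x y : ℝ, |a * x + b * y| ≤ a * |x| + b * |y| := by
    intro x y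
    calc |a * x + b * y| ≤ |a * x| + |b * y| := abs_add_le _ _
      _ = a * |x| + b * |y| := by rw [abs_mul, abs_mul, abs_of_pos ha, abs_of_pos hb]
  have e0 := htri (s 0) (t 0)
  have e1 := htri (s 1) (t 1)
  have e2 := htri (s 2) (t 2)
  have hsum : |a * s 0 + b * t 0| + |a * s 1 + b * t 1| + |a * s 2 + b * t 2| = 1 := h1
  have hs2 : |s 0| + |s 1| + |s 2| = 1 := hs1
  have ht2 : |t 0| + |t 1| + |t 2| = 1 := ht1
  have hR : (a * |s 0| + b * |t 0|) + (a * |s 1| + b * |t 1|) + (a * |s 2| + b * |t 2|) = 1 := by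
    have : a * (|s 0| + |s 1| + |s 2|) + b * (|t 0| + |t 1| + |t 2|) = 1 := by
      rw [hs2, ht2]; linarith
    linarith
  have f0 : |a * s 0 + b * t 0| = a * |s 0| + b * |t 0| := by linarith
  have f1 : |a * s 1 + b * t 1| = a * |s 1| + b * |t 1| := by linarith
  have f2 : |a * s 2 + b * t 2| = a * |s 2| + b * |t 2| := by linarith
  have hsign : ∀ x y : ℝ, |a * x + b * y| = a * |x| + b * |y| → 0 ≤ x * y := by
    intro x y hxy
    have h3 : (a * x + b * y) ^ 2 = (a * |x| + b * |y|) ^ 2 := by rw [← hxy, sq_abs]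
    have h4 : (a * |x| + b * |y|) ^ 2 = a ^ 2 * x ^ 2 + b ^ 2 * y ^ 2 + 2 * a * b * |x * y| := by
      rw [abs_mul]
      nlinarith [sq_abs x, sq_abs y]
    have h5 : a * b * |x * y| = a * b * (x * y) := by nlinarith
    have h6 : |x * y| = x * y := mul_left_cancel₀ (by positivity) h5
    rw [← h6]
    exact abs_nonneg _
  have hzero : ∀ x y : ℝ, |a * x + b * y| = a * |x| + b * |y| → a * x + b * y = 0 →
      x = 0 ∧ y = 0 := by
    intro x y hxy h0
    rw [h0, abs_zero] at hxy
    have hx : 0 ≤ a * |x| := by positivity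
    have hy : 0 ≤ b * |y| := by positivity
    have hx0 : a * |x| = 0 := by linarith
    have hy0 : b * |y| = 0 := by linarith
    constructor
    · rcases mul_eq_zero.mp hx0 with h | h
      · linarith
      · exact abs_eq_zero.mp h
    · rcases mul_eq_zero.mp hy0 with h | h
      · linarith
      · exact abs_eq_zero.mp h
  refine ⟨hs1, ht1, ?_, ?_⟩
  · intro i
    fin_cases i
    · exact hsign _ _ f0
    · exact hsign _ _ f1
    · exact hsign _ _ f2
  · rcases h2 with h | h | h
    · exact ⟨0, hzero _ _ f0 h⟩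
    · exact ⟨1, hzero _ _ f1 h⟩
    · exact ⟨2, hzero _ _ f2 h⟩

/-- The strict midpoint inequality. -/
lemma EntHyp.mid_lt (h : EntHyp ent) {s t : V} (hs : s ∈ Oct) (ht : t ∈ Oct) (hst : s ≠ t)
    (hc : ¬ CommonEdge s t) :
    (1 / 2) * ent s + (1 / 2) * ent t < ent ((1 / 2 : ℝ) • s + (1 / 2 : ℝ) • t) := by
  have hq1 : (3 / 4 : ℝ) • s + (1 / 4 : ℝ) • t ∈ Oct :=
    convex_Oct hs ht (by norm_num) (by norm_num) (by norm_num)
  have hq2 : (1 / 4 : ℝ) • s + (3 / 4 : ℝ) • t ∈ Oct :=
    convex_Oct hs ht (by norm_num) (by norm_num) (by norm_num)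
  have hn1 : (3 / 4 : ℝ) • s + (1 / 4 : ℝ) • t ∉ Edges := fun he =>
    hc (commonEdge_of_quarter hs ht (by norm_num) (by norm_num) (by norm_num) he)
  have hn2 : (1 / 4 : ℝ) • s + (3 / 4 : ℝ) • t ∉ Edges := fun he =>
    hc (commonEdge_of_quarter hs ht (by norm_num) (by norm_num) (by norm_num) he)
  have hne : (3 / 4 : ℝ) • s + (1 / 4 : ℝ) • t ≠ (1 / 4 : ℝ) • s + (3 / 4 : ℝ) • t := by
    intro he
    apply hst
    ext i
    have := congrFun he i
    simp only [Pi.add_apply, Pi.smul_apply, smul_eq_mul] at this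
    linarith
  have h1 := h.strict.2 ⟨hq1, hn1⟩ ⟨hq2, hn2⟩ hne (show (0 : ℝ) < 1 / 2 by norm_num)
    (show (0 : ℝ) < 1 / 2 by norm_num) (by norm_num)
  have h2 := h.concave.2 hs ht (show (0 : ℝ) ≤ 3 / 4 by norm_num)
    (show (0 : ℝ) ≤ 1 / 4 by norm_num) (by norm_num)
  have h3 := h.concave.2 hs ht (show (0 : ℝ) ≤ 1 / 4 by norm_num)
    (show (0 : ℝ) ≤ 3 / 4 by norm_num) (by norm_num)
  have h4 : (1 / 2 : ℝ) • ((3 / 4 : ℝ) • s + (1 / 4 : ℝ) • t) +
      (1 / 2 : ℝ) • ((1 / 4 : ℝ) • s + (3 / 4 : ℝ) • t) = (1 / 2 : ℝ) • s + (1 / 2 : ℝ) • t := by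
    ext i
    simp only [Pi.add_apply, Pi.smul_apply, smul_eq_mul]
    ring
  rw [h4] at h1
  simp only [smul_eq_mul] at h1 h2 h3
  linarith

end Pool.Agent.Helper96.Dim
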