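import Pool.Agent.Helper96.Dim.Trans

/-!
# The differential inequality for the difference quotients of the potentials
-/

namespace Pool.Agent.Helper96.Dim

open MeasureTheory Filter Topology Set
open scoped ContDiff

/-- The differential inequality `Y' ≥ A cos² Y - B` with `Y 0 = 0`. -/
lemma ode_bound {Y Y' B : ℝ → ℝ} (hY : ∀ τ, HasDerivAt Y (Y' τ) τ) (hB : Continuous B)
    (hB0 : ∀ τ, 0 ≤ B τ) (hY0 : Y 0 = 0) (hYlt : Y 1 < Real.pi / 2) {A : ℝ} (hA : 0 ≤ A)
    (hode : ∀ τ, A * Real.cos (Y τ) ^ 2 - B τ ≤ Y' τ) {e : ℝ} (he : 0 < e)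
    (he4 : e ≤ Real.pi / 4) (hJ : ∫ s in (0 : ℝ)..1, B s ≤ e)
    (hAe : Real.pi < A * Real.sin e ^ 2) : Real.pi / 2 - 2 * e ≤ Y 1 := by
  by_contra hcon
  push Not at hcon
  have hpi := Real.pi_pos
  set Z : ℝ → ℝ := fun τ => Y τ + ∫ s in (0 : ℝ)..τ, B s with hZ
  have hZd : ∀ τ, HasDerivAt Z (Y' τ + B τ) τ := by
    intro τ
    exact (hY τ).add (intervalIntegral.integral_hasDerivAt_right
      (hB.intervalIntegrable _ _) (hB.stronglyMeasurableAtFilter _ _) hB.continuousAt)
  have hZd0 : ∀ τ, 0 ≤ Y' τ + B τ := by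
    intro τ
    have h1 := hode τ
    have h2 : 0 ≤ A * Real.cos (Y τ) ^ 2 := by positivity
    linarith
  have hmono : Monotone Z := by
    refine monotone_of_deriv_nonneg (fun τ => (hZd τ).differentiableAt) ?_
    intro τ
    rw [(hZd τ).deriv]; exact hZd0 τ
  have hZ0 : Z 0 = 0 := by simp [hZ, hY0]
  have hImono : ∀ τ ∈ Icc (0 : ℝ) 1, 0 ≤ ∫ s in (0 : ℝ)..τ, B s := fun τ hτ =>
    intervalIntegral.integral_nonneg hτ.1 fun s _ => hB0 s
  have hIle : ∀ τ ∈ Icc (0 : ℝ) 1, ∫ s in (0 : ℝ)..τ, B s ≤ e := by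
    intro τ hτ
    refine le_trans ?_ hJ
    have h1 := intervalIntegral.integral_add_adjacent_intervals
      (hB.intervalIntegrable (μ := volume) 0 τ) (hB.intervalIntegrable (μ := volume) τ 1)
    have h2 : 0 ≤ ∫ s in τ..1, B s :=
      intervalIntegral.integral_nonneg hτ.2 fun s _ => hB0 s
    linarith
  have hlow : ∀ τ ∈ Icc (0 : ℝ) 1, -e ≤ Y τ := by
    intro τ hτ
    have h1 := hmono hτ.1
    have h2 := hIle τ hτ
    rw [hZ0] at h1
    simp only [hZ] at h1
    linarith
  have hup : ∀ τ ∈ Icc (0 : ℝ) 1, Y τ ≤ Real.pi / 2 - e := by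
    intro τ hτ
    have h1 := hmono hτ.2
    have h2 := hImono τ hτ
    simp only [hZ] at h1
    linarith
  have hcos : ∀ τ ∈ Icc (0 : ℝ) 1, Real.sin e ^ 2 ≤ Real.cos (Y τ) ^ 2 := by
    intro τ hτ
    have h1 := hlow τ hτ
    have h2 := hup τ hτ
    have habs : |Y τ| ≤ Real.pi / 2 - e := by
      rw [abs_le]; constructor <;> linarith
    have h3 : Real.cos (Real.pi / 2 - e) ≤ Real.cos |Y τ| :=
      Real.cos_le_cos_of_nonneg_of_le_pi (abs_nonneg _) (by linarith) habs
    rw [Real.cos_pi_div_two_sub, Real.cos_abs] at h3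
    have h4 : 0 ≤ Real.sin e := Real.sin_nonneg_of_nonneg_of_le_pi he.le (by linarith)
    exact pow_le_pow_left₀ h4 h3 2
  -- mean value
  obtain ⟨c, hc, hc'⟩ := exists_hasDerivAt_eq_slope Z (fun τ => Y' τ + B τ)
    (show (0 : ℝ) < 1 by norm_num)
    (fun τ _ => (hZd τ).continuousAt.continuousWithinAt) (fun τ _ => hZd τ)
  rw [hZ0] at hc'
  have h5 := hode c
  have h6 := hcos c ⟨hc.1.le, hc.2.le⟩
  have h7 : A * Real.sin e ^ 2 ≤ A * Real.cos (Y c) ^ 2 := by gcongr
  have h8 : Z 1 = Y 1 + ∫ s in (0 : ℝ)..1, B s := rfl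
  have h9 : (Z 1 - 0) / (1 - 0) = Z 1 := by ring
  rw [h9, h8] at hc'
  linarith

variable {ent : V → ℝ}

/-- The path of the potential differences. -/
lemma hasDerivAt_path {φ : V → ℝ} (hφ : Test φ) (lam t : ℝ) (u x : V) (τ : ℝ) :
    HasDerivAt (fun τ : ℝ => Real.arctan ((φ (x + (τ * t) • u) - φ x) / lam))
      (wt φ lam ((τ * t) • u) x * ((t / lam) * fderiv ℝ φ (x + (τ * t) • u) u)) τ := by
  have h1 : HasDerivAt (fun τ : ℝ => x + (τ * t) • u) (t • u) τ := by
    have h2 : HasDerivAt (fun τ : ℝ => (τ * t) • u) ((1 * t) • u) τ :=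
      ((hasDerivAt_id τ).mul_const t).smul_const u
    rw [one_mul] at h2
    exact h2.const_add x
  have h3 : HasDerivAt (fun τ : ℝ => φ (x + (τ * t) • u))
      (fderiv ℝ φ (x + (τ * t) • u) (t • u)) τ :=
    (hφ.differentiable _).hasFDerivAt.comp_hasDerivAt τ h1
  have h4 : HasDerivAt (fun τ : ℝ => (φ (x + (τ * t) • u) - φ x) / lam)
      (fderiv ℝ φ (x + (τ * t) • u) (t • u) / lam) τ := (h3.sub_const _).div_const _
  have h5 := h4.arctan
  convert h5 using 1
  unfold wt
  rw [map_smul, smul_eq_mul]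
  ring

lemma cos_sq_path (φ : V → ℝ) (lam : ℝ) (v x : V) :
    Real.cos (Real.arctan ((φ (x + v) - φ x) / lam)) ^ 2 = wt φ lam v x := by
  rw [Real.cos_sq_arctan]; rfl

/-- The averaged gap. -/
noncomputable def Jx (ent : V → ℝ) (φ : V → ℝ) (κ t : ℝ) (u s s' x : V) : ℝ :=
  (1 / κ) * ∫ τ in (0 : ℝ)..1, (Gap ent (fderiv ℝ φ (x + (τ * t) • u)) s +
    Gap ent (fderiv ℝ φ (x + (τ * t) • u)) s') * wt φ (κ * t) ((τ * t) • u) x

lemma continuous_integrand (h : EntHyp ent) {φ : V → ℝ} (hφ : Test φ) (κ t : ℝ) (u s s' x : V) :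
    Continuous fun τ : ℝ => (Gap ent (fderiv ℝ φ (x + (τ * t) • u)) s +
      Gap ent (fderiv ℝ φ (x + (τ * t) • u)) s') * wt φ (κ * t) ((τ * t) • u) x := by
  have h1 : Continuous fun τ : ℝ => x + (τ * t) • u := by fun_prop
  have h2 : Continuous fun τ : ℝ => fderiv ℝ φ (x + (τ * t) • u) := hφ.continuous_fderiv.comp h1
  have h3 : ∀ r : V, Continuous fun τ : ℝ => Gap ent (fderiv ℝ φ (x + (τ * t) • u)) r := by
    intro r
    unfold Gap
    exact (((continuous_Hf h).comp h2).sub (h2.clm_apply continuous_const)).sub continuous_const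
  have h4 : Continuous fun τ : ℝ => wt φ (κ * t) ((τ * t) • u) x := by
    unfold wt
    have h5 : Continuous fun τ : ℝ => (φ (x + (τ * t) • u) - φ x) / (κ * t) :=
      ((hφ.continuous.comp h1).sub continuous_const).div_const _
    refine continuous_const.div (continuous_const.add (h5.pow 2)) ?_
    intro τ
    positivity
  exact ((h3 s).add (h3 s')).mul h4

/-- Convergence of the weights. -/
lemma wt_lim (h : EntHyp ent) {s s' : V} (hc : CommonEdge s s') (hss : s ≠ s') (j : Fin 6)
    (x : V) {φ : ℕ → V → ℝ} (hφ : ∀ k, Test (φ k)) {κ t : ℕ → ℝ} (hκ0 : ∀ k, 0 < κ k)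
    (ht0 : ∀ k, 0 < t k) (hκ : Tendsto κ atTop (𝓝 0))
    (hJ : Tendsto (fun k => Jx ent (φ k) (κ k) (t k) (dir j) s s' x) atTop (𝓝 0)) :
    ((∃ a : ℝ, s - s' = a • dir j) →
      Tendsto (fun k => wt (φ k) (κ k * t k) (t k • dir j) x) atTop (𝓝 1)) ∧
    ((¬ ∃ a : ℝ, s - s' = a • dir j) →
      Tendsto (fun k => wt (φ k) (κ k * t k) (t k • dir j) x) atTop (𝓝 0)) := by
  have hpi := Real.pi_pos
  have hs := edges_subset hc.mem_left
  have hs' := edges_subset hc.mem_right
  set u : V := dir j with hu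
  set Y : ℕ → ℝ → ℝ := fun k τ =>
    Real.arctan ((φ k (x + (τ * t k) • u) - φ k x) / (κ k * t k)) with hY
  set G : ℕ → ℝ → ℝ := fun k τ => (Gap ent (fderiv ℝ (φ k) (x + (τ * t k) • u)) s +
    Gap ent (fderiv ℝ (φ k) (x + (τ * t k) • u)) s') with hG
  have hG0 : ∀ k τ, 0 ≤ G k τ := fun k τ => add_nonneg (Gap_nonneg h _ hs) (Gap_nonneg h _ hs')
  have hY0 : ∀ k, Y k 0 = 0 := by intro k; simp [hY]
  have hwt1 : ∀ k, wt (φ k) (κ k * t k) (t k • u) x = Real.cos (Y k 1) ^ 2 := by
    intro k
    simp only [hY, one_mul]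
    rw [cos_sq_path]
  have hcos : ∀ k τ, Real.cos (Y k τ) ^ 2 = wt (φ k) (κ k * t k) ((τ * t k) • u) x :=
    fun k τ => cos_sq_path _ _ _ _
  have hYd : ∀ k τ, HasDerivAt (Y k) (wt (φ k) (κ k * t k) ((τ * t k) • u) x *
      ((1 / κ k) * fderiv ℝ (φ k) (x + (τ * t k) • u) u)) τ := by
    intro k τ
    have h1 := hasDerivAt_path (hφ k) (κ k * t k) (t k) u x τ
    have h2 : t k / (κ k * t k) = 1 / κ k := by
      have := (hκ0 k).ne'
      have := (ht0 k).ne'
      field_simp
    rw [h2] at h1
    exact h1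
  have hwt0 : ∀ k τ, 0 ≤ wt (φ k) (κ k * t k) ((τ * t k) • u) x := fun k τ => (wt_pos _ _ _ _).le
  constructor
  · rintro ⟨a, ha⟩
    have ha0 : a ≠ 0 := by
      rintro rfl
      rw [zero_smul, sub_eq_zero] at ha
      exact hss ha
    have hapos : 0 < |a| := abs_pos.mpr ha0
    -- bound of the derivative
    have hbound : ∀ k, |Y k 1| ≤ Jx ent (φ k) (κ k) (t k) u s s' x / |a| := by
      intro k
      have hcI := continuous_integrand h (hφ k) (κ k) (t k) u s s' x
      have hcY : Continuous fun τ : ℝ => wt (φ k) (κ k * t k) ((τ * t k) • u) x *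
          ((1 / κ k) * fderiv ℝ (φ k) (x + (τ * t k) • u) u) := by
        have h1 : Continuous fun τ : ℝ => x + (τ * t k) • u := by fun_prop
        have h2 : Continuous fun τ : ℝ => fderiv ℝ (φ k) (x + (τ * t k) • u) :=
          (hφ k).continuous_fderiv.comp h1
        have h4 : Continuous fun τ : ℝ => wt (φ k) (κ k * t k) ((τ * t k) • u) x := by
          unfold wt
          have h5 : Continuous fun τ : ℝ => (φ k (x + (τ * t k) • u) - φ k x) / (κ k * t k) :=
            (((hφ k).continuous.comp h1).sub continuous_const).div_const _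
          refine continuous_const.div (continuous_const.add (h5.pow 2)) ?_
          intro τ
          positivity
        exact h4.mul (continuous_const.mul (h2.clm_apply continuous_const))
      have hftc := intervalIntegral.integral_eq_sub_of_hasDerivAt (a := 0) (b := 1)
        (fun τ _ => hYd k τ) (hcY.intervalIntegrable _ _)
      rw [hY0, sub_zero] at hftc
      rw [← hftc]
      have h1 : |∫ τ in (0 : ℝ)..1, wt (φ k) (κ k * t k) ((τ * t k) • u) x *
          ((1 / κ k) * fderiv ℝ (φ k) (x + (τ * t k) • u) u)| ≤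
          ∫ τ in (0 : ℝ)..1, (1 / κ k) * (1 / |a|) * (G k τ *
            wt (φ k) (κ k * t k) ((τ * t k) • u) x) := by
        refine (intervalIntegral.abs_integral_le_integral_abs zero_le_one).trans ?_
        refine intervalIntegral.integral_mono_on zero_le_one
          (hcY.abs.intervalIntegrable _ _) ((continuous_const.mul hcI).intervalIntegrable _ _) ?_
        intro τ _
        have h2 := gap_parallel h hc (fderiv ℝ (φ k) (x + (τ * t k) • u))
        rw [ha, map_smul, smul_eq_mul, abs_mul] at h2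
        have h3 : |fderiv ℝ (φ k) (x + (τ * t k) • u) u| ≤ (1 / |a|) * G k τ := by
          rw [one_div, ← div_eq_inv_mul, le_div_iff₀ hapos, mul_comm]
          exact h2
        have h4 : 0 < 1 / κ k := by
          have := hκ0 k
          positivity
        rw [abs_mul, abs_of_nonneg (hwt0 k τ), abs_mul, abs_of_pos h4]
        calc wt (φ k) (κ k * t k) ((τ * t k) • u) x *
              (1 / κ k * |fderiv ℝ (φ k) (x + (τ * t k) • u) u|)
            ≤ wt (φ k) (κ k * t k) ((τ * t k) • u) x * (1 / κ k * ((1 / |a|) * G k τ)) := by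
              have := hwt0 k τ
              gcongr
          _ = _ := by ring
      refine h1.trans (le_of_eq ?_)
      rw [intervalIntegral.integral_const_mul]
      unfold Jx
      ring
    have h1 : Tendsto (fun k => Y k 1) atTop (𝓝 0) := by
      have h2 : Tendsto (fun k => Jx ent (φ k) (κ k) (t k) u s s' x / |a|) atTop (𝓝 0) := by
        have := hJ.div_const |a|
        simpa using this
      exact squeeze_zero_norm (fun k => by rw [Real.norm_eq_abs]; exact hbound k) h2
    have h3 : Tendsto (fun k => Real.cos (Y k 1) ^ 2) atTop (𝓝 (Real.cos 0 ^ 2)) :=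
      ((Real.continuous_cos.pow 2).tendsto 0).comp h1
    rw [Real.cos_zero, one_pow] at h3
    exact h3.congr fun k => (hwt1 k).symm
  · intro hna
    obtain ⟨c, hc0, η, hη, ε, hε, hpush⟩ := gap_push h hc hss j hna
    have hε1 : |ε| = 1 := by rcases hε with rfl | rfl <;> simp
    -- the lower bound
    have key : ∀ e : ℝ, 0 < e → e ≤ Real.pi / 4 →
        ∀ᶠ k in atTop, Real.pi / 2 - 2 * e ≤ ε * Y k 1 := by
      intro e he he4
      have hsin : 0 < Real.sin e := Real.sin_pos_of_pos_of_lt_pi he (by linarith)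
      have e1 : ∀ᶠ k in atTop, Jx ent (φ k) (κ k) (t k) u s s' x / c ≤ e := by
        have : Tendsto (fun k => Jx ent (φ k) (κ k) (t k) u s s' x / c) atTop (𝓝 0) := by
          have := hJ.div_const c
          simpa using this
        exact this.eventually_le_const he
      have e2 : ∀ᶠ k in atTop, Real.pi < (η / (κ k * c)) * Real.sin e ^ 2 := by
        have h1 : ∀ᶠ k in atTop, κ k < η * Real.sin e ^ 2 / (Real.pi * c) :=
          hκ.eventually_lt_const (by positivity)
        filter_upwards [h1] with k hk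
        have hk0 := hκ0 k
        rw [lt_div_iff₀ (by positivity)] at hk
        have h2 : (η / (κ k * c)) * Real.sin e ^ 2 = (η * Real.sin e ^ 2) / (κ k * c) := by ring
        rw [h2, lt_div_iff₀ (by positivity)]
        linarith
      filter_upwards [e1, e2] with k hk1 hk2
      have hk0 := hκ0 k
      refine ode_bound (Y := fun τ => ε * Y k τ) (Y' := fun τ => ε *
        (wt (φ k) (κ k * t k) ((τ * t k) • u) x *
          ((1 / κ k) * fderiv ℝ (φ k) (x + (τ * t k) • u) u)))
        (B := fun τ => (1 / (κ k * c)) * (G k τ * wt (φ k) (κ k * t k) ((τ * t k) • u) x))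
        (A := η / (κ k * c)) (fun τ => (hYd k τ).const_mul ε) ?_ ?_ ?_ ?_ ?_ ?_ he he4 ?_ hk2
      · exact continuous_const.mul (continuous_integrand h (hφ k) (κ k) (t k) u s s' x)
      · intro τ
        have h1 := hG0 k τ
        have h2 := hwt0 k τ
        positivity
      · simp only [hY0, mul_zero]
      · have h1 := Real.arctan_lt_pi_div_two ((φ k (x + (1 * t k) • u) - φ k x) / (κ k * t k))
        have h2 := Real.neg_pi_div_two_lt_arctan
          ((φ k (x + (1 * t k) • u) - φ k x) / (κ k * t k))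
        simp only [hY]
        rcases hε with rfl | rfl
        · linarith
        · linarith
      · positivity
      · intro τ
        have h1 := hpush (fderiv ℝ (φ k) (x + (τ * t k) • u))
        have hce : Real.cos (ε * Y k τ) ^ 2 = wt (φ k) (κ k * t k) ((τ * t k) • u) x := by
          rw [← hcos]
          rcases hε with rfl | rfl
          · rw [one_mul]
          · rw [neg_one_mul, Real.cos_neg]
        rw [hce]
        have h2 := hwt0 k τ
        have h3 : (1 / (κ k * c)) * (wt (φ k) (κ k * t k) ((τ * t k) • u) x * (η - G k τ)) ≤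
            (1 / (κ k * c)) * (wt (φ k) (κ k * t k) ((τ * t k) • u) x *
              (c * (ε * fderiv ℝ (φ k) (x + (τ * t k) • u) u))) := by
          gcongr
        calc η / (κ k * c) * wt (φ k) (κ k * t k) ((τ * t k) • u) x -
              1 / (κ k * c) * (G k τ * wt (φ k) (κ k * t k) ((τ * t k) • u) x)
            = (1 / (κ k * c)) * (wt (φ k) (κ k * t k) ((τ * t k) • u) x * (η - G k τ)) := by
              ring
          _ ≤ _ := h3
          _ = _ := by field_simp
      · rw [intervalIntegral.integral_const_mul]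
        have h1 : (1 / (κ k * c)) * ∫ τ in (0 : ℝ)..1,
            G k τ * wt (φ k) (κ k * t k) ((τ * t k) • u) x =
            Jx ent (φ k) (κ k) (t k) u s s' x / c := by
          have h2 : ∀ I : ℝ, (1 / (κ k * c)) * I = (1 / κ k) * I / c := by
            intro I
            field_simp
          exact h2 _
        rw [h1]
        exact hk1
    -- conclusion
    have hlim : Tendsto (fun k => ε * Y k 1) atTop (𝓝 (Real.pi / 2)) := by
      rw [tendsto_order]
      constructor
      · intro a' ha'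
        set e : ℝ := min (Real.pi / 4) ((Real.pi / 2 - a') / 4) with he
        have he0 : 0 < e := by
          rw [he]; refine lt_min (by positivity) ?_
          linarith
        have he1 : e ≤ Real.pi / 4 := min_le_left _ _
        have he2 : e ≤ (Real.pi / 2 - a') / 4 := min_le_right _ _
        filter_upwards [key e he0 he1] with k hk
        linarith
      · intro a' ha'
        refine Eventually.of_forall fun k => ?_
        have h1 := Real.arctan_lt_pi_div_two ((φ k (x + (1 * t k) • u) - φ k x) / (κ k * t k))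
        have h2 := Real.neg_pi_div_two_lt_arctan
          ((φ k (x + (1 * t k) • u) - φ k x) / (κ k * t k))
        simp only [hY]
        rcases hε with rfl | rfl
        · linarith
        · linarith
    have h3 : Tendsto (fun k => Real.cos (ε * Y k 1) ^ 2) atTop
        (𝓝 (Real.cos (Real.pi / 2) ^ 2)) :=
      ((Real.continuous_cos.pow 2).tendsto _).comp hlim
    rw [Real.cos_pi_div_two, zero_pow two_ne_zero] at h3
    refine h3.congr fun k => ?_
    rw [hwt1 k]
    rcases hε with rfl | rfl
    · rw [one_mul]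
    · rw [neg_one_mul, Real.cos_neg]

end Pool.Agent.Helper96.Dim
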