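import Pool.Agent.Helper96.Dim.Global
import Pool.Agent.Helper96.Dim.Inner2

/-!
# Two maximizers
-/

namespace Pool.Agent.Helper96.Dim

open MeasureTheory Filter Topology Set
open scoped ContDiff

variable {ent : V → ℝ} {R : Set V} {b : (V → ℝ) → ℝ} {g g₁ g₂ : V → V}

lemma AF.mem_Oct (hg : g ∈ AF R) (x : V) : g x ∈ Oct := by
  by_cases hx : x ∈ R
  · exact hg.2.1 x hx
  · rw [hg.2.2.1 x hx]; exact zero_mem_Oct

lemma AF.integrable (hR : IsCompact R) (hg : g ∈ AF R) : Integrable g := by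
  have h1 : Integrable (R.indicator (fun _ : V => (1 : ℝ))) :=
    IntegrableOn.integrable_indicator (integrableOn_const hR.measure_lt_top.ne)
      hR.isClosed.measurableSet
  refine h1.mono' hg.1.aestronglyMeasurable ?_
  filter_upwards with x
  by_cases hx : x ∈ R
  · rw [indicator_of_mem hx]; exact bounded_of_AF hg x
  · rw [indicator_of_notMem hx, hg.2.2.1 x hx, norm_zero]

lemma AF.div (hg : g ∈ AF R) {ψ : V → ℝ} (hψ : Test ψ) (hs : tsupport ψ ⊆ interior R) :
    ∫ x, fderiv ℝ ψ x (g x) = 0 := by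
  have h1 := hg.2.2.2 ψ hψ hs
  unfold divg at h1
  linarith

lemma finite_restrict (hR : IsCompact R) : IsFiniteMeasure (volume.restrict R : Measure V) :=
  ⟨by rw [Measure.restrict_apply_univ]; exact hR.measure_lt_top⟩

lemma integrable_ent (h : EntHyp ent) (hR : IsCompact R) (hg : g ∈ AF R) :
    Integrable (fun x => ent (g x)) (volume.restrict R) := by
  have := finite_restrict hR
  have h1 : (fun x => ent (g x)) = fun x => ent0 ent (g x) := by
    funext x; rw [ent0_eq (AF.mem_Oct hg x)]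
  rw [h1]
  exact integrable_ent0 _ h hg.1

lemma integral_ent_eq (hR : IsCompact R) (h1 : IsMaximizer ent R b g₁)
    (h2 : IsMaximizer ent R b g₂) : ∫ x in R, ent (g₁ x) = ∫ x in R, ent (g₂ x) :=
  le_antisymm (integral_ent_le_of_maximizer hR h2 h1.1) (integral_ent_le_of_maximizer hR h1 h2.1)

/-- The midpoint of two flows. -/
lemma mid_mem (hR : IsCompact R) (h1 : g₁ ∈ AFb R b) (h2 : g₂ ∈ AFb R b) :
    (fun x => (1 / 2 : ℝ) • g₁ x + (1 / 2 : ℝ) • g₂ x) ∈ AFb R b := by
  have hdiv : ∀ ψ, Test ψ →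
      divg (fun x => (1 / 2 : ℝ) • g₁ x + (1 / 2 : ℝ) • g₂ x) ψ = b ψ := by
    intro ψ hψ
    have e1 := h1.2 ψ hψ
    have e2 := h2.2 ψ hψ
    unfold divg at e1 e2 ⊢
    have i1 : Integrable (fun x => fderiv ℝ ψ x (g₁ x)) :=
      hψ.integrable_apply h1.1.1 (bounded_of_AF h1.1)
    have i2 : Integrable (fun x => fderiv ℝ ψ x (g₂ x)) :=
      hψ.integrable_apply h2.1.1 (bounded_of_AF h2.1)
    have h3 : ∫ x, fderiv ℝ ψ x ((1 / 2 : ℝ) • g₁ x + (1 / 2 : ℝ) • g₂ x) =
        (1 / 2) * (∫ x, fderiv ℝ ψ x (g₁ x)) + (1 / 2) * ∫ x, fderiv ℝ ψ x (g₂ x) := by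
      rw [← integral_const_mul, ← integral_const_mul,
        ← integral_add (i1.const_mul _) (i2.const_mul _)]
      refine integral_congr_ae (Eventually.of_forall fun x => ?_)
      simp only [map_add, map_smul, smul_eq_mul]
    rw [h3]
    linarith
  have hm : Measurable (fun x => (1 / 2 : ℝ) • g₁ x + (1 / 2 : ℝ) • g₂ x) :=
    (h1.1.1.const_smul (1 / 2 : ℝ)).add (h2.1.1.const_smul (1 / 2 : ℝ))
  refine ⟨⟨hm, ?_, ?_, ?_⟩, hdiv⟩
  · intro x hx
    exact convex_Oct (h1.1.2.1 x hx) (h2.1.2.1 x hx) (by norm_num) (by norm_num) (by norm_num)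
  · intro x hx
    simp only
    rw [h1.1.2.2.1 x hx, h2.1.2.2.1 x hx]
    simp
  · intro ψ hψ hs
    rw [hdiv ψ hψ, ← h1.2 ψ hψ]
    exact h1.1.2.2.2 ψ hψ hs

lemma ae_commonEdge (h : EntHyp ent) (hR : IsCompact R) (h1 : IsMaximizer ent R b g₁)
    (h2 : IsMaximizer ent R b g₂) :
    ∀ᵐ x, g₁ x = g₂ x ∨ (g₁ x ≠ g₂ x ∧ CommonEdge (g₁ x) (g₂ x)) := by
  have hRm : MeasurableSet R := hR.isClosed.measurableSet
  have hmid := mid_mem hR h1.1 h2.1
  set gm : V → V := fun x => (1 / 2 : ℝ) • g₁ x + (1 / 2 : ℝ) • g₂ x with hgm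
  have hle := integral_ent_le_of_maximizer hR h1 hmid
  have heq := integral_ent_eq hR h1 h2
  have i1 := integrable_ent h hR h1.1.1
  have i2 := integrable_ent h hR h2.1.1
  have im := integrable_ent h hR hmid.1
  have i12 : Integrable (fun x => (1 / 2) * ent (g₁ x) + (1 / 2) * ent (g₂ x))
    (volume.restrict R) := (i1.const_mul _).add (i2.const_mul _)
  have hint : ∫ x in R, (ent (gm x) - ((1 / 2) * ent (g₁ x) + (1 / 2) * ent (g₂ x))) ≤ 0 := by
    rw [integral_sub im i12, integral_add (i1.const_mul _) (i2.const_mul _),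
      integral_const_mul, integral_const_mul]
    linarith
  have hnn : ∀ x, 0 ≤ ent (gm x) - ((1 / 2) * ent (g₁ x) + (1 / 2) * ent (g₂ x)) := by
    intro x
    have h3 := h.concave.2 (AF.mem_Oct h1.1.1 x) (AF.mem_Oct h2.1.1 x)
      (show (0 : ℝ) ≤ 1 / 2 by norm_num) (show (0 : ℝ) ≤ 1 / 2 by norm_num) (by norm_num)
    simp only [smul_eq_mul] at h3
    have h4 : ent (gm x) = ent ((1 / 2 : ℝ) • g₁ x + (1 / 2 : ℝ) • g₂ x) := rfl
    rw [h4]
    linarith
  have hzero : ∫ x in R, (ent (gm x) - ((1 / 2) * ent (g₁ x) + (1 / 2) * ent (g₂ x))) = 0 :=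
    le_antisymm hint (integral_nonneg hnn)
  have hae : ∀ᵐ x ∂(volume.restrict R),
      ent (gm x) - ((1 / 2) * ent (g₁ x) + (1 / 2) * ent (g₂ x)) = 0 := by
    have := (integral_eq_zero_iff_of_nonneg hnn (im.sub i12)).mp hzero
    filter_upwards [this] with x hx using hx
  rw [ae_restrict_iff' hRm] at hae
  filter_upwards [hae] with x hx
  by_cases hxe : g₁ x = g₂ x
  · exact Or.inl hxe
  · right
    refine ⟨hxe, ?_⟩
    by_contra hc
    have hxR : x ∈ R := by
      by_contra hxR
      exact hxe (by rw [h1.1.1.2.2.1 x hxR, h2.1.1.2.2.1 x hxR])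
    have h3 := h.mid_lt (AF.mem_Oct h1.1.1 x) (AF.mem_Oct h2.1.1 x) hxe hc
    have h4 := hx hxR
    have h5 : ent (gm x) = ent ((1 / 2 : ℝ) • g₁ x + (1 / 2 : ℝ) • g₂ x) := rfl
    rw [h5] at h4
    linarith

/-- Two maximizers satisfy the standing assumptions. -/
lemma pair_of_maximizers (h : EntHyp ent) (hR : IsCompact R) (h1 : IsMaximizer ent R b g₁)
    (h2 : IsMaximizer ent R b g₂) : Pair ent R g₁ g₂ := by
  refine ⟨hR, h1.1.1.1, h2.1.1.1, AF.mem_Oct h1.1.1, AF.mem_Oct h2.1.1,
    AF.integrable hR h1.1.1, AF.integrable hR h2.1.1, fun ψ hψ hs => AF.div h1.1.1 hψ hs,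
    fun ψ hψ hs => AF.div h2.1.1 hψ hs, ?_, ae_commonEdge h hR h1 h2⟩
  intro ε hε
  have := finite_restrict hR
  obtain ⟨φ, hφ, hle⟩ := dual h hR h1 hε
  obtain ⟨K, hK0, hK⟩ := hφ.bound
  have hgap : ∀ g : V → V, g ∈ AFb R b → ∫ x in R, Gap ent (fderiv ℝ φ x) (g x) =
      (∫ x in R, Hf ent (fderiv ℝ φ x)) + b φ - ∫ x in R, ent (g x) := by
    intro g hg
    have hi3 : Integrable (fun x => Hf ent (fderiv ℝ φ x)) (volume.restrict R) := by
      refine Integrable.of_bound
        ((continuous_Hf h).comp hφ.continuous_fderiv).aestronglyMeasurable (|Hf ent 0| + K)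
        (Eventually.of_forall fun x => ?_)
      have h4 := Hf_lip h (fderiv ℝ φ x) 0
      rw [sub_zero] at h4
      have h5 := hK x
      rw [Real.norm_eq_abs]
      calc |Hf ent (fderiv ℝ φ x)| = |(Hf ent (fderiv ℝ φ x) - Hf ent 0) + Hf ent 0| := by
            rw [sub_add_cancel]
        _ ≤ |Hf ent (fderiv ℝ φ x) - Hf ent 0| + |Hf ent 0| := abs_add_le _ _
        _ ≤ |Hf ent 0| + K := by linarith
    have hi2 : Integrable (fun x => fderiv ℝ φ x (g x)) (volume.restrict R) :=
      (hφ.integrable_apply hg.1.1 (bounded_of_AF hg.1)).integrableOn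
    have hi1 := integrable_ent h hR hg.1
    unfold Gap
    have hi32 : Integrable (fun x => Hf ent (fderiv ℝ φ x) - fderiv ℝ φ x (g x))
      (volume.restrict R) := hi3.sub hi2
    rw [integral_sub hi32 hi1, integral_sub hi3 hi2, pairing_eq hg hφ]
    ring
  refine ⟨φ, hφ, ?_, ?_⟩
  · rw [hgap g₁ h1.1]
    linarith
  · rw [hgap g₂ h2.1, ← integral_ent_eq hR h1 h2]
    linarith

/-- The components of the difference. -/
noncomputable def comp (f : V → V) (j : Fin 6) (x : V) : ℝ :=
  (Dj f j).indicator (fun x => f x (piv j)) x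

lemma comp_smul (f : V → V) (j : Fin 6) (x : V) :
    comp f j x • dir j = (Dj f j).indicator f x := by
  unfold comp
  by_cases hx : x ∈ Dj f j
  · rw [indicator_of_mem hx, indicator_of_mem hx]
    exact hx.symm
  · rw [indicator_of_notMem hx, indicator_of_notMem hx, zero_smul]

lemma comp_disj (f : V → V) {i j : Fin 6} (hij : i ≠ j) (x : V) : comp f i x * comp f j x = 0 := by
  by_contra hne
  have h1 : comp f i x ≠ 0 := fun h => hne (by rw [h, zero_mul])
  have h2 : comp f j x ≠ 0 := fun h => hne (by rw [h, mul_zero])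
  have hi : x ∈ Dj f i := by
    by_contra hx
    exact h1 (indicator_of_notMem hx _)
  have hj : x ∈ Dj f j := by
    by_contra hx
    exact h2 (indicator_of_notMem hx _)
  have e1 := comp_smul f i x
  have e2 := comp_smul f j x
  rw [indicator_of_mem hi] at e1
  rw [indicator_of_mem hj] at e2
  exact hij (dir_parallel h1 (e1.trans e2.symm))

lemma sum_comp {f : V → V} {x : V} (h : f x = 0 ∨ ∃ (j : Fin 6) (a : ℝ), f x = a • dir j) :
    ∑ j, comp f j x • dir j = f x := by
  rcases h with h0 | ⟨j, a, ha⟩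
  · rw [h0]
    refine Finset.sum_eq_zero fun j _ => ?_
    rw [comp_smul]
    by_cases hx : x ∈ Dj f j
    · rw [indicator_of_mem hx, h0]
    · rw [indicator_of_notMem hx]
  · by_cases ha0 : a = 0
    · rw [ha0, zero_smul] at ha
      rw [ha]
      refine Finset.sum_eq_zero fun j _ => ?_
      rw [comp_smul]
      by_cases hx : x ∈ Dj f j
      · rw [indicator_of_mem hx, ha]
      · rw [indicator_of_notMem hx]
    · rw [Finset.sum_eq_single j]
      · rw [comp_smul, indicator_of_mem (mem_Dj.mpr ⟨a, ha⟩)]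
      · intro i _ hij
        rw [comp_smul, indicator_of_notMem]
        intro hx
        obtain ⟨c, hc⟩ := mem_Dj.mp hx
        rw [ha] at hc
        exact hij (dir_parallel ha0 hc).symm
      · intro hj
        exact absurd (Finset.mem_univ j) hj

theorem maximizers_ae_eq (h : EntHyp ent) (hR : IsRegion R) (h1 : IsMaximizer ent R b g₁)
    (h2 : IsMaximizer ent R b g₂) : g₁ =ᵐ[volume] g₂ := by
  have hp := pair_of_maximizers h hR.compact h1 h2
  set f : V → V := fun x => g₁ x - g₂ x with hf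
  have hfm : Measurable f := hp.m1.sub hp.m2
  have hfb : ∀ x, ‖f x‖ ≤ 2 := by
    intro x
    calc ‖g₁ x - g₂ x‖ ≤ ‖g₁ x‖ + ‖g₂ x‖ := norm_sub_le _ _
      _ ≤ 1 + 1 := add_le_add (norm_le_one (hp.O1 x)) (norm_le_one (hp.O2 x))
      _ = 2 := by norm_num
  have hcm : ∀ j, Measurable (comp f j) := by
    intro j
    exact ((measurable_pi_apply (piv j)).comp hfm).indicator (measurableSet_Dj hfm j)
  have hcb : ∀ j x, |comp f j x| ≤ 2 := by
    intro j x
    unfold comp
    by_cases hx : x ∈ Dj f j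
    · rw [indicator_of_mem hx, ← Real.norm_eq_abs]
      exact (norm_le_pi_norm (f x) (piv j)).trans (hfb x)
    · rw [indicator_of_notMem hx, abs_zero]; norm_num
  have hae : ∀ᵐ x, ∑ j, comp f j x • dir j = f x := by
    filter_upwards [hp.ce] with x hx
    apply sum_comp
    rcases hx with hx | ⟨hne, hce⟩
    · left; simp [hf, hx]
    · right; exact commonEdge_dir hce hne
  have hcd : ∀ j (ψ : V → ℝ) x, comp f j x * fderiv ℝ ψ x (dir j) =
      fderiv ℝ ψ x (comp f j x • dir j) := by
    intro j ψ x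
    rw [map_smul, smul_eq_mul]
  have hFam : Fam R (comp f) 2 := by
    refine ⟨hR.compact, hcm, hcb, ?_, fun i j hij x => comp_disj f hij x, ?_, ?_⟩
    · intro j x hx
      have h0 : f x = 0 := by
        simp only [hf]
        rw [h1.1.1.2.2.1 x hx, h2.1.1.2.2.1 x hx, sub_self]
      unfold comp
      by_cases hxD : x ∈ Dj f j
      · rw [indicator_of_mem hxD, h0]; rfl
      · rw [indicator_of_notMem hxD]
    · intro j ψ hψ hs
      have h3 := inner_main h hp j hψ hs
      rw [← h3]
      refine integral_congr_ae (Eventually.of_forall fun x => ?_)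
      simp only
      rw [hcd, comp_smul]
    · intro ψ hψ
      have hi : ∀ j ∈ (Finset.univ : Finset (Fin 6)),
          Integrable (fun x => comp f j x * fderiv ℝ ψ x (dir j)) := by
        intro j _
        have h3 := hψ.integrable_apply (a := fun x => comp f j x • dir j)
          ((hcm j).smul_const _) (B := 2) (fun x => by
            rw [norm_smul, Real.norm_eq_abs]
            calc |comp f j x| * ‖dir j‖ ≤ 2 * 1 :=
                  mul_le_mul (hcb j x) (norm_dir_le j) (norm_nonneg _) (by norm_num)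
              _ = 2 := by norm_num)
        exact h3.congr (Eventually.of_forall fun x => (hcd j ψ x).symm)
      rw [← integral_finsetSum _ hi]
      have h3 : ∫ x, ∑ j, comp f j x * fderiv ℝ ψ x (dir j) = ∫ x, fderiv ℝ ψ x (f x) := by
        refine integral_congr_ae ?_
        filter_upwards [hae] with x hx
        rw [← hx, map_sum]
        exact Finset.sum_congr rfl fun j _ => hcd j ψ x
      rw [h3]
      have i1 : Integrable (fun x => fderiv ℝ ψ x (g₁ x)) :=
        hψ.integrable_apply hp.m1 fun x => norm_le_one (hp.O1 x)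
      have i2 : Integrable (fun x => fderiv ℝ ψ x (g₂ x)) :=
        hψ.integrable_apply hp.m2 fun x => norm_le_one (hp.O2 x)
      have h4 : ∫ x, fderiv ℝ ψ x (f x) =
          (∫ x, fderiv ℝ ψ x (g₁ x)) - ∫ x, fderiv ℝ ψ x (g₂ x) := by
        rw [← integral_sub i1 i2]
        refine integral_congr_ae (Eventually.of_forall fun x => ?_)
        simp only [hf, map_sub]
      rw [h4]
      have e1 := h1.1.2 ψ hψ
      have e2 := h2.1.2 ψ hψ
      unfold divg at e1 e2
      linarith
  have hz : ∀ᵐ x, ∀ j, comp f j x = 0 := by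
    rw [ae_all_iff]
    exact fun j => fam_zero hFam hR.boundary j
  filter_upwards [hae, hz] with x hx hx0
  have h3 : f x = 0 := by
    rw [← hx]
    refine Finset.sum_eq_zero fun j _ => ?_
    rw [hx0 j, zero_smul]
  exact sub_eq_zero.mp h3

end Pool.Agent.Helper96.Dim
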