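import Pool.Agent.Helper96.Dim.Dual2

/-!
# Comparison of a flow with its translates
-/

namespace Pool.Agent.Helper96.Dim

open MeasureTheory Filter Topology Set
open scoped ContDiff

section meas

variable {X : Type*} [MeasurableSpace X] {ent : V → ℝ}

lemma measurable_apply' {P : X → V →L[ℝ] ℝ} (hP : Measurable P) {a : X → V} (ha : Measurable a) :
    Measurable (fun x => P x (a x)) :=
  isBoundedBilinearMap_apply.continuous.measurable.comp (hP.prodMk ha)

lemma measurable_ent_comp (h : EntHyp ent) {s : X → V} (hs : Measurable s)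
    (hO : ∀ x, s x ∈ Oct) : Measurable (fun x => ent (s x)) := by
  have : (fun x => ent (s x)) = fun x => ent0 ent (s x) := by
    funext x; rw [ent0_eq (hO x)]
  rw [this]
  exact (measurable_ent0 h).comp hs

lemma measurable_Gap (h : EntHyp ent) {P : X → V →L[ℝ] ℝ} (hP : Measurable P) {s : X → V}
    (hs : Measurable s) (hO : ∀ x, s x ∈ Oct) : Measurable (fun x => Gap ent (P x) (s x)) := by
  unfold Gap
  exact (((continuous_Hf h).measurable.comp hP).sub (measurable_apply' hP hs)).sub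
    (measurable_ent_comp h hs hO)

end meas

variable {ent : V → ℝ}

lemma Gap_bound (h : EntHyp ent) {φ : V → ℝ} (hφ : Test φ) :
    ∃ B : ℝ, 0 ≤ B ∧ ∀ y : V, ∀ s ∈ Oct, |Gap ent (fderiv ℝ φ y) s| ≤ B := by
  obtain ⟨K, hK0, hK⟩ := hφ.bound
  obtain ⟨B, hB0, hB⟩ := h.bound
  refine ⟨|Hf ent 0| + K + K + B, by positivity, ?_⟩
  intro y s hs
  have h4 := Hf_lip h (fderiv ℝ φ y) 0
  rw [sub_zero] at h4
  have h5 := hK y
  have h6 : |fderiv ℝ φ y s| ≤ K := by
    rw [← Real.norm_eq_abs]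
    calc ‖fderiv ℝ φ y s‖ ≤ ‖fderiv ℝ φ y‖ * ‖s‖ := (fderiv ℝ φ y).le_opNorm _
      _ ≤ K * 1 := mul_le_mul (hK y) (norm_le_one hs) (norm_nonneg _) hK0
      _ = K := mul_one _
  have h7 := hB s hs
  unfold Gap
  calc |Hf ent (fderiv ℝ φ y) - fderiv ℝ φ y s - ent s|
      = |(Hf ent (fderiv ℝ φ y) - Hf ent 0) + Hf ent 0 - fderiv ℝ φ y s - ent s| := by
        rw [sub_add_cancel]
    _ ≤ |(Hf ent (fderiv ℝ φ y) - Hf ent 0) + Hf ent 0 - fderiv ℝ φ y s| + |ent s| := abs_sub _ _
    _ ≤ |(Hf ent (fderiv ℝ φ y) - Hf ent 0) + Hf ent 0| + |fderiv ℝ φ y s| + |ent s| := by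
        gcongr; exact abs_sub _ _
    _ ≤ |Hf ent (fderiv ℝ φ y) - Hf ent 0| + |Hf ent 0| + |fderiv ℝ φ y s| + |ent s| := by
        gcongr; exact abs_add_le _ _
    _ ≤ |Hf ent 0| + K + K + B := by linarith

/-- The weight. -/
noncomputable def wt (φ : V → ℝ) (lam : ℝ) (v x : V) : ℝ :=
  1 / (1 + ((φ (x + v) - φ x) / lam) ^ 2)

lemma wt_pos (φ : V → ℝ) (lam : ℝ) (v x : V) : 0 < wt φ lam v x := by
  unfold wt; positivity

lemma wt_le_one (φ : V → ℝ) (lam : ℝ) (v x : V) : wt φ lam v x ≤ 1 := by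
  unfold wt
  rw [div_le_one (by positivity)]
  linarith [sq_nonneg ((φ (x + v) - φ x) / lam)]

lemma contDiff_diff {φ : V → ℝ} (hφ : ContDiff ℝ ∞ φ) (lam : ℝ) (v : V) :
    ContDiff ℝ ∞ (fun x => (φ (x + v) - φ x) / lam) :=
  ((hφ.comp (contDiff_id.add contDiff_const)).sub hφ).div_const _

lemma continuous_wt {φ : V → ℝ} (hφ : ContDiff ℝ ∞ φ) (lam : ℝ) (v : V) :
    Continuous (wt φ lam v) := by
  unfold wt
  have h1 := (contDiff_diff hφ lam v).continuous
  refine continuous_const.div (continuous_const.add (h1.pow 2)) ?_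
  intro x
  positivity

lemma hasFDerivAt_diff {φ : V → ℝ} (hφ : ContDiff ℝ ∞ φ) (lam : ℝ) (v x : V) :
    HasFDerivAt (fun x => (φ (x + v) - φ x) / lam)
      (lam⁻¹ • (fderiv ℝ φ (x + v) - fderiv ℝ φ x)) x := by
  have h1 : HasFDerivAt (fun x => φ (x + v)) (fderiv ℝ φ (x + v)) x := by
    have h2 := ((contDiff_differentiable hφ) (x + v)).hasFDerivAt
    have h4 := h2.comp x ((hasFDerivAt_id x).add_const v)
    simpa [Function.comp_def] using h4
  have h3 := (h1.sub ((contDiff_differentiable hφ) x).hasFDerivAt).const_mul lam⁻¹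
  refine h3.congr_of_eventuallyEq (Eventually.of_forall fun y => ?_)
  simp [div_eq_inv_mul]

/-- The comparison of a flow with its translates. -/
theorem trans_bound (h : EntHyp ent) {U R : Set V} (hUR : U ⊆ R) (hR : IsCompact R)
    {g : V → V} (hgm : Measurable g) (hgO : ∀ x, g x ∈ Oct) (hgi : Integrable g)
    (hgdiv : ∀ ψ, Test ψ → tsupport ψ ⊆ U → ∫ x, fderiv ℝ ψ x (g x) = 0)
    {φ : V → ℝ} (hφ : Test φ) {χ : V → ℝ} (hχ : Test χ) (hχ0 : ∀ x, 0 ≤ χ x)
    (hχ1 : ∀ x, χ x ≤ 1) {v : V} (hs : tsupport χ ⊆ U) (hsv : ∀ x ∈ tsupport χ, x + v ∈ U)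
    {lam : ℝ} (hlam : 0 < lam) {K : ℝ} (hK : ∀ x, ‖fderiv ℝ χ x‖ ≤ K) :
    ∫ x, χ x * (wt φ lam v x * Gap ent (fderiv ℝ φ (x + v)) (g x)) ≤
      2 * (∫ x in R, Gap ent (fderiv ℝ φ x) (g x)) +
        lam * (Real.pi / 2) * K * ∫ x, ‖g (x + v) - g x‖ := by
  have hRm : MeasurableSet R := hR.isClosed.measurableSet
  have hK0 : 0 ≤ K := (norm_nonneg _).trans (hK 0)
  obtain ⟨B, hB0, hB⟩ := Gap_bound h hφ
  have hgv : Measurable (fun x => g (x + v)) := hgm.comp (measurable_id.add_const v)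
  have hpc : Continuous (fun x => fderiv ℝ φ x) := hφ.continuous_fderiv
  have hpvc : Continuous (fun x => fderiv ℝ φ (x + v)) :=
    hpc.comp (continuous_id.add continuous_const)
  have hwc := continuous_wt hφ.1 lam v
  have hw0 : ∀ x, 0 ≤ wt φ lam v x := fun x => (wt_pos φ lam v x).le
  have hw1 : ∀ x, |wt φ lam v x| ≤ 1 := fun x => by
    rw [abs_of_nonneg (hw0 x)]; exact wt_le_one φ lam v x
  -- the five integrable functions
  have hint : ∀ f : V → ℝ, Measurable f → (∃ C, ∀ x, |f x| ≤ C) →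
      Integrable (fun x => χ x * (wt φ lam v x * f x)) := by
    rintro f hf ⟨C, hC⟩
    refine hχ.integrable_mul (hwc.measurable.mul hf) (B := C) ?_
    intro x
    rw [abs_mul]
    calc |wt φ lam v x| * |f x| ≤ 1 * C :=
          mul_le_mul (hw1 x) (hC x) (abs_nonneg _) zero_le_one
      _ = C := one_mul _
  have hmc : Measurable (fun x => Gap ent (fderiv ℝ φ x) (g x)) :=
    measurable_Gap h hpc.measurable hgm hgO
  have ha : Integrable (fun x => χ x * (wt φ lam v x * Gap ent (fderiv ℝ φ (x + v)) (g x))) :=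
    hint _ (measurable_Gap h hpvc.measurable hgm hgO) ⟨B, fun x => hB _ _ (hgO x)⟩
  have hb : Integrable (fun x => χ x * (wt φ lam v x * Gap ent (fderiv ℝ φ x) (g (x + v)))) :=
    hint _ (measurable_Gap h hpc.measurable hgv fun x => hgO _) ⟨B, fun x => hB _ _ (hgO _)⟩
  have hc : Integrable (fun x => χ x * (wt φ lam v x * Gap ent (fderiv ℝ φ x) (g x))) :=
    hint _ hmc ⟨B, fun x => hB _ _ (hgO x)⟩
  have hd : Integrable (fun x => χ x * (wt φ lam v x *
      Gap ent (fderiv ℝ φ (x + v)) (g (x + v)))) :=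
    hint _ (measurable_Gap h hpvc.measurable hgv fun x => hgO _) ⟨B, fun x => hB _ _ (hgO _)⟩
  obtain ⟨Kφ, hKφ0, hKφ⟩ := hφ.bound
  have hemeas : Measurable (fun x => (fderiv ℝ φ (x + v) - fderiv ℝ φ x) (g (x + v) - g x)) :=
    measurable_apply (hpvc.sub hpc) (hgv.sub hgm)
  have hebound : ∀ x, |(fderiv ℝ φ (x + v) - fderiv ℝ φ x) (g (x + v) - g x)| ≤
      (Kφ + Kφ) * (1 + 1) := by
    intro x
    rw [← Real.norm_eq_abs]
    calc ‖(fderiv ℝ φ (x + v) - fderiv ℝ φ x) (g (x + v) - g x)‖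
        ≤ ‖fderiv ℝ φ (x + v) - fderiv ℝ φ x‖ * ‖g (x + v) - g x‖ :=
          ContinuousLinearMap.le_opNorm _ _
      _ ≤ (Kφ + Kφ) * (1 + 1) := by
          refine mul_le_mul ?_ ?_ (norm_nonneg _) (by positivity)
          · exact (norm_sub_le _ _).trans (add_le_add (hKφ _) (hKφ _))
          · exact (norm_sub_le _ _).trans (add_le_add (norm_le_one (hgO _)) (norm_le_one (hgO _)))
  have he : Integrable (fun x => χ x * (wt φ lam v x *
      (fderiv ℝ φ (x + v) - fderiv ℝ φ x) (g (x + v) - g x))) := hint _ hemeas ⟨_, hebound⟩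
  -- algebra
  have halg : ∀ x, χ x * (wt φ lam v x * Gap ent (fderiv ℝ φ (x + v)) (g x)) +
      χ x * (wt φ lam v x * Gap ent (fderiv ℝ φ x) (g (x + v))) =
      χ x * (wt φ lam v x * Gap ent (fderiv ℝ φ x) (g x)) +
      χ x * (wt φ lam v x * Gap ent (fderiv ℝ φ (x + v)) (g (x + v))) +
      χ x * (wt φ lam v x * (fderiv ℝ φ (x + v) - fderiv ℝ φ x) (g (x + v) - g x)) := by
    intro x
    unfold Gap
    rw [sub_apply, map_sub, map_sub]
    ring
  have hb0 : 0 ≤ ∫ x, χ x * (wt φ lam v x * Gap ent (fderiv ℝ φ x) (g (x + v))) :=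
    integral_nonneg fun x => mul_nonneg (hχ0 x) (mul_nonneg (hw0 x) (Gap_nonneg h _ (hgO _)))
  have hsum : (∫ x, χ x * (wt φ lam v x * Gap ent (fderiv ℝ φ (x + v)) (g x))) +
      (∫ x, χ x * (wt φ lam v x * Gap ent (fderiv ℝ φ x) (g (x + v)))) =
      (∫ x, χ x * (wt φ lam v x * Gap ent (fderiv ℝ φ x) (g x))) +
      (∫ x, χ x * (wt φ lam v x * Gap ent (fderiv ℝ φ (x + v)) (g (x + v)))) +
      ∫ x, χ x * (wt φ lam v x * (fderiv ℝ φ (x + v) - fderiv ℝ φ x) (g (x + v) - g x)) := by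
    rw [← integral_add ha hb, ← integral_add hc hd]
    have hcd : Integrable (fun x => χ x * (wt φ lam v x * Gap ent (fderiv ℝ φ x) (g x)) +
      χ x * (wt φ lam v x * Gap ent (fderiv ℝ φ (x + v)) (g (x + v)))) := hc.add hd
    rw [← integral_add hcd he]
    exact integral_congr_ae (Eventually.of_forall halg)
  -- the diagonal terms
  have hGi : IntegrableOn (fun x => Gap ent (fderiv ℝ φ x) (g x)) R := by
    have : IsFiniteMeasure (volume.restrict R : Measure V) :=
      ⟨by rw [Measure.restrict_apply_univ]; exact hR.measure_lt_top⟩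
    exact Integrable.of_bound hmc.aestronglyMeasurable B
      (Eventually.of_forall fun x => hB _ _ (hgO x))
  have hGi' : Integrable (R.indicator (fun x => Gap ent (fderiv ℝ φ x) (g x))) :=
    hGi.integrable_indicator hRm
  have hc1 : ∫ x, χ x * (wt φ lam v x * Gap ent (fderiv ℝ φ x) (g x)) ≤
      ∫ x in R, Gap ent (fderiv ℝ φ x) (g x) := by
    rw [← integral_indicator hRm]
    refine integral_mono hc hGi' ?_
    intro x
    by_cases hx : x ∈ R
    · rw [indicator_of_mem hx]
      have h0 := Gap_nonneg h (fderiv ℝ φ x) (hgO x)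
      calc χ x * (wt φ lam v x * Gap ent (fderiv ℝ φ x) (g x))
          ≤ 1 * (1 * Gap ent (fderiv ℝ φ x) (g x)) := by
            refine mul_le_mul (hχ1 x) ?_ (mul_nonneg (hw0 x) h0) zero_le_one
            exact mul_le_mul_of_nonneg_right (wt_le_one φ lam v x) h0
        _ = _ := by rw [one_mul, one_mul]
    · rw [indicator_of_notMem hx]
      have : χ x = 0 := by
        by_contra hne
        exact hx (hUR (hs (subset_tsupport _ hne)))
      simp only
      rw [this, zero_mul]
  have hd1 : ∫ x, χ x * (wt φ lam v x * Gap ent (fderiv ℝ φ (x + v)) (g (x + v))) ≤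
      ∫ x in R, Gap ent (fderiv ℝ φ x) (g x) := by
    rw [← integral_indicator hRm]
    rw [← integral_add_right_eq_self (R.indicator (fun x => Gap ent (fderiv ℝ φ x) (g x))) v]
    refine integral_mono hd (hGi'.comp_add_right v) ?_
    intro x
    by_cases hx : x + v ∈ R
    · change _ ≤ R.indicator (fun x => Gap ent (fderiv ℝ φ x) (g x)) (x + v)
      rw [indicator_of_mem hx]
      have h0 := Gap_nonneg h (fderiv ℝ φ (x + v)) (hgO (x + v))
      calc χ x * (wt φ lam v x * Gap ent (fderiv ℝ φ (x + v)) (g (x + v)))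
          ≤ 1 * (1 * Gap ent (fderiv ℝ φ (x + v)) (g (x + v))) := by
            refine mul_le_mul (hχ1 x) ?_ (mul_nonneg (hw0 x) h0) zero_le_one
            exact mul_le_mul_of_nonneg_right (wt_le_one φ lam v x) h0
        _ = _ := by rw [one_mul, one_mul]
    · change _ ≤ R.indicator (fun x => Gap ent (fderiv ℝ φ x) (g x)) (x + v)
      rw [indicator_of_notMem hx]
      have : χ x = 0 := by
        by_contra hne
        exact hx (hUR (hsv x (subset_tsupport _ hne)))
      simp only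
      rw [this, zero_mul]
  -- the test function
  set F : V → ℝ := fun x => (φ (x + v) - φ x) / lam with hF
  have hFc : ContDiff ℝ ∞ F := contDiff_diff hφ.1 lam v
  set A : V → ℝ := fun x => lam * Real.arctan (F x) with hA
  have hAc : ContDiff ℝ ∞ A := contDiff_const.mul (Real.contDiff_arctan.comp hFc)
  have hAb : ∀ x, |A x| ≤ lam * (Real.pi / 2) := by
    intro x
    rw [hA]
    simp only
    rw [abs_mul, abs_of_pos hlam]
    have h1 := Real.arctan_lt_pi_div_two (F x)
    have h2 := Real.neg_pi_div_two_lt_arctan (F x)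
    have h3 : |Real.arctan (F x)| ≤ Real.pi / 2 := by
      rw [abs_le]; constructor <;> linarith
    gcongr
  set ψ : V → ℝ := fun x => χ x * A x with hψ
  have hψt : Test ψ := hχ.mul_right hAc
  have hψs : tsupport ψ ⊆ tsupport χ := tsupport_mul_subset_left
  have hderiv : ∀ x, fderiv ℝ ψ x = A x • fderiv ℝ χ x +
      (χ x * wt φ lam v x) • (fderiv ℝ φ (x + v) - fderiv ℝ φ x) := by
    intro x
    have h1 : HasFDerivAt A (lam • ((1 / (1 + F x ^ 2)) •
        (lam⁻¹ • (fderiv ℝ φ (x + v) - fderiv ℝ φ x)))) x := by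
      have h2 := (hasFDerivAt_diff hφ.1 lam v x).arctan
      exact h2.const_mul lam
    have h3 := ((hχ.differentiable x).hasFDerivAt.mul h1).fderiv
    rw [hψ]
    change fderiv ℝ (χ * A) x = _
    rw [h3]
    have h4 : lam • ((1 / (1 + F x ^ 2)) •
        (lam⁻¹ • (fderiv ℝ φ (x + v) - fderiv ℝ φ x))) =
        wt φ lam v x • (fderiv ℝ φ (x + v) - fderiv ℝ φ x) := by
      rw [smul_smul, smul_smul]
      congr 1
      unfold wt
      rw [hF]
      field_simp
    rw [h4, smul_smul, add_comm]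
  have hz1 : ∫ x, fderiv ℝ ψ x (g x) = 0 := hgdiv ψ hψt (hψs.trans hs)
  have hz2 : ∫ x, fderiv ℝ ψ x (g (x + v)) = 0 := by
    have ht : Test (fun x => ψ (x + (-v))) := hψt.translate (-v)
    have h1 : tsupport (fun x => ψ (x + (-v))) ⊆ U := by
      have h2 : tsupport (fun x => ψ (x + (-v))) ⊆ (fun x => x + (-v)) ⁻¹' (tsupport ψ) := by
        refine closure_minimal ?_ ((isClosed_tsupport ψ).preimage (by fun_prop))
        intro x hx
        exact subset_tsupport _ hx
      intro x hx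
      have h3 := hsv _ (hψs (h2 hx))
      simpa using h3
    have h2 := hgdiv _ ht h1
    rw [← integral_add_right_eq_self _ v] at h2
    rw [← h2]
    refine integral_congr_ae (Eventually.of_forall fun x => ?_)
    simp only
    rw [fderiv_translate, add_neg_cancel_right]
  have hi1 : Integrable (fun x => fderiv ℝ ψ x (g x)) :=
    hψt.integrable_apply hgm fun x => norm_le_one (hgO x)
  have hi2 : Integrable (fun x => fderiv ℝ ψ x (g (x + v))) :=
    hψt.integrable_apply hgv fun x => norm_le_one (hgO _)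
  have hz : ∫ x, (fderiv ℝ ψ x (g (x + v)) - fderiv ℝ ψ x (g x)) = 0 := by
    rw [integral_sub hi2 hi1, hz1, hz2, sub_zero]
  have hsplit : ∀ x, fderiv ℝ ψ x (g (x + v)) - fderiv ℝ ψ x (g x) =
      A x * fderiv ℝ χ x (g (x + v) - g x) +
      χ x * (wt φ lam v x * (fderiv ℝ φ (x + v) - fderiv ℝ φ x) (g (x + v) - g x)) := by
    intro x
    rw [← map_sub, hderiv]
    simp only [add_apply, smul_apply, smul_eq_mul]
    ring
  have hgd : Integrable (fun x => ‖g (x + v) - g x‖) := ((hgi.comp_add_right v).sub hgi).norm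
  have hAi : Integrable (fun x => A x * fderiv ℝ χ x (g (x + v) - g x)) := by
    refine (hgd.const_mul (lam * (Real.pi / 2) * K)).mono' ?_ ?_
    · exact (hAc.continuous.measurable.mul
        (measurable_apply hχ.continuous_fderiv (hgv.sub hgm))).aestronglyMeasurable
    · filter_upwards with x
      rw [Real.norm_eq_abs, abs_mul]
      have h1 : |fderiv ℝ χ x (g (x + v) - g x)| ≤ K * ‖g (x + v) - g x‖ := by
        rw [← Real.norm_eq_abs]
        exact (ContinuousLinearMap.le_opNorm _ _).trans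
          (mul_le_mul_of_nonneg_right (hK x) (norm_nonneg _))
      calc |A x| * |fderiv ℝ χ x (g (x + v) - g x)| ≤
          (lam * (Real.pi / 2)) * (K * ‖g (x + v) - g x‖) :=
            mul_le_mul (hAb x) h1 (abs_nonneg _) (by positivity)
        _ = _ := by ring
  have hAbound : -(∫ x, A x * fderiv ℝ χ x (g (x + v) - g x)) ≤
      lam * (Real.pi / 2) * K * ∫ x, ‖g (x + v) - g x‖ := by
    rw [← integral_neg, ← integral_const_mul]
    refine integral_mono hAi.neg (hgd.const_mul _) ?_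
    intro x
    have h1 : |fderiv ℝ χ x (g (x + v) - g x)| ≤ K * ‖g (x + v) - g x‖ := by
      rw [← Real.norm_eq_abs]
      exact (ContinuousLinearMap.le_opNorm _ _).trans
        (mul_le_mul_of_nonneg_right (hK x) (norm_nonneg _))
    calc -(A x * fderiv ℝ χ x (g (x + v) - g x)) ≤ |A x * fderiv ℝ χ x (g (x + v) - g x)| :=
          neg_le_abs _
      _ = |A x| * |fderiv ℝ χ x (g (x + v) - g x)| := abs_mul _ _
      _ ≤ (lam * (Real.pi / 2)) * (K * ‖g (x + v) - g x‖) :=
            mul_le_mul (hAb x) h1 (abs_nonneg _) (by positivity)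
      _ = _ := by ring
  have he1 : ∫ x, χ x * (wt φ lam v x *
      (fderiv ℝ φ (x + v) - fderiv ℝ φ x) (g (x + v) - g x)) =
      -(∫ x, A x * fderiv ℝ χ x (g (x + v) - g x)) := by
    have h1 : ∫ x, (fderiv ℝ ψ x (g (x + v)) - fderiv ℝ ψ x (g x)) =
        (∫ x, A x * fderiv ℝ χ x (g (x + v) - g x)) +
        ∫ x, χ x * (wt φ lam v x * (fderiv ℝ φ (x + v) - fderiv ℝ φ x) (g (x + v) - g x)) := by
      rw [← integral_add hAi he]
      exact integral_congr_ae (Eventually.of_forall hsplit)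
    linarith
  linarith

end Pool.Agent.Helper96.Dim
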